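import Mathlib

/-!
# Hyperplane transversals consistent with an ordering

`d = k + 1` throughout: the sets live in `ℝ^d = ℝ^(k+1)` and the points of the `(d-1)`-ordering in
`ℝ^(d-1) = ℝ^k`.
-/

namespace Pool.Agent.HT

/-- Orientation determinant of `k + 1` points of `ℝ^k`: the rows are `(1, q_i)`. -/
noncomputable def orient {k : ℕ} (q : Fin (k + 1) → Fin k → ℝ) : ℝ :=
  Matrix.det (Matrix.of fun i => (Fin.cons 1 (q i) : Fin (k + 1) → ℝ))

/-- A family: pairwise disjoint compact convex sets in `ℝ^(k+1)`. -/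
structure IsFamily {k n : ℕ} (a : Fin n → Set (Fin (k + 1) → ℝ)) : Prop where
  convex : ∀ i, Convex ℝ (a i)
  compact : ∀ i, IsCompact (a i)
  disjoint : ∀ i j, i ≠ j → Disjoint (a i) (a j)

/-- The members of `a` with index in `B` are met by an oriented hyperplane consistently with the
ordering `p`: `φ` is an orientation preserving affine coordinate system of the oriented hyperplane
and `q i` are the coordinates of the chosen point of `a i`. -/
def Consistent {k n : ℕ} (a : Fin n → Set (Fin (k + 1) → ℝ)) (p : Fin n → Fin k → ℝ)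
    (B : Finset (Fin n)) : Prop :=
  ∃ (φ : (Fin k → ℝ) →ᵃ[ℝ] (Fin (k + 1) → ℝ)) (q : Fin n → Fin k → ℝ),
    Function.Injective φ ∧ (∀ i ∈ B, φ (q i) ∈ a i) ∧
    ∀ t : Fin (k + 1) → Fin n, StrictMono t → (∀ j, t j ∈ B) →
      SignType.sign (orient fun j => q (t j)) = SignType.sign (orient fun j => p (t j))

/-- `(d-2)`-separated, `d = k + 1`: no flat of dimension at most `d - 2` meets `d` of the sets. -/
def Separated {k n : ℕ} (a : Fin n → Set (Fin (k + 1) → ℝ)) : Prop :=
  ∀ W : AffineSubspace ℝ (Fin (k + 1) → ℝ), Module.finrank ℝ W.direction < k →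
    ∀ t : Fin (k + 1) → Fin n, Function.Injective t → ∃ j, ∀ x ∈ a (t j), x ∉ W

/-- `h` is a Helly number bound for `(d-1)`-ordered families of pairwise disjoint compact convex
sets in `ℝ^d`, `d = k + 1`, which are `(d-2)`-separated. -/
def SepHelly (k h : ℕ) : Prop :=
  ∀ (n : ℕ) (a : Fin n → Set (Fin (k + 1) → ℝ)) (p : Fin n → Fin k → ℝ),
    IsFamily a → Separated a →
    (∀ B : Finset (Fin n), B.card ≤ h → Consistent a p B) → Consistent a p Finset.univ

/-- The same for merely pairwise disjoint families. -/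
def Helly (k h : ℕ) : Prop :=
  ∀ (n : ℕ) (a : Fin n → Set (Fin (k + 1) → ℝ)) (p : Fin n → Fin k → ℝ),
    IsFamily a →
    (∀ B : Finset (Fin n), B.card ≤ h → Consistent a p B) → Consistent a p Finset.univ

end Pool.Agent.HT
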