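import Mathlib
import Pool.Agent.HT.Problem

/-!
# Hyperplane transversals consistent with an ordering: the linear model

`d = k + 1`; points of `ℝ^(k+1)` in homogeneous coordinates are vectors of `ℝ^(k+2)`.
-/

namespace Pool.Agent.HT

open scoped Matrix

/-! ### The linear model -/

/-- Determinant with first row `f` (a normal vector) and the other rows given by `X`. -/
noncomputable def orn {k : ℕ} (f : Fin (k + 2) → ℝ) (X : Fin (k + 1) → Fin (k + 2) → ℝ) : ℝ :=
  Matrix.det (Matrix.of (Fin.cons f X : Fin (k + 2) → Fin (k + 2) → ℝ))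

/-- Determinant of the matrix with rows `X i`. -/
noncomputable def dt {m : ℕ} (X : Fin m → Fin m → ℝ) : ℝ := Matrix.det (Matrix.of X)

/-- Convex cones (without apex). -/
structure IsCone {m : ℕ} (C : Set (Fin m → ℝ)) : Prop where
  smul : ∀ v ∈ C, ∀ c : ℝ, 0 < c → c • v ∈ C
  add : ∀ v ∈ C, ∀ w ∈ C, v + w ∈ C

/-- Vectors from `k + 1` different cones are linearly independent. -/
def LSep {k : ℕ} {ι : Type} (C : ι → Set (Fin (k + 2) → ℝ)) : Prop :=
  ∀ t : Fin (k + 1) → ι, Function.Injective t → ∀ x : Fin (k + 1) → Fin (k + 2) → ℝ,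
    (∀ j, x j ∈ C (t j)) → LinearIndependent ℝ x

/-- The sign vector of `(f, x)` on tuples from `B` is the one of the vectors `p`. -/
def Agree {k : ℕ} {ι : Type} (f : Fin (k + 2) → ℝ) (x : ι → Fin (k + 2) → ℝ)
    (p : ι → Fin (k + 1) → ℝ) (B : Set ι) : Prop :=
  ∀ t : Fin (k + 1) → ι, (∀ j, t j ∈ B) →
    SignType.sign (orn f fun j => x (t j)) = SignType.sign (dt fun j => p (t j))

/-- Consistent hyperplane transversal in the linear model. -/
def LCons {k : ℕ} {ι : Type} (C : ι → Set (Fin (k + 2) → ℝ)) (p : ι → Fin (k + 1) → ℝ)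
    (B : Set ι) : Prop :=
  ∃ (f : Fin (k + 2) → ℝ) (x : ι → Fin (k + 2) → ℝ), f ≠ 0 ∧
    (∀ s ∈ B, x s ∈ C s ∧ f ⬝ᵥ x s = 0) ∧ Agree f x p B

/-- The cone over `{1} × a`. -/
def cone {m : ℕ} (a : Set (Fin m → ℝ)) : Set (Fin (m + 1) → ℝ) :=
  {v | 0 < v 0 ∧ (fun i : Fin m => v i.succ / v 0) ∈ a}

end Pool.Agent.HT
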