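import Mathlib
import Pool.Agent.HT.Defs

/-!
# Basic facts on orientation determinants of hyperplane transversals
-/

namespace Pool.Agent.HT

open scoped Matrix

variable {k : ℕ} {ι : Type}

theorem orn_ne_zero {f : Fin (k + 2) → ℝ} {X : Fin (k + 1) → Fin (k + 2) → ℝ} (hf : f ≠ 0)
    (hX : LinearIndependent ℝ X) (h : ∀ i, f ⬝ᵥ X i = 0) : orn f X ≠ 0 := by
  have hspan : f ∉ Submodule.span ℝ (Set.range X) := by
    intro hmem
    have h2 : ∀ v ∈ Submodule.span ℝ (Set.range X), f ⬝ᵥ v = 0 := by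
      intro v hv
      induction hv using Submodule.span_induction with
      | mem x hx => obtain ⟨i, rfl⟩ := hx; exact h i
      | zero => simp
      | add x y _ _ hx hy => rw [dotProduct_add, hx, hy, add_zero]
      | smul a x _ hx => rw [dotProduct_smul, hx, smul_zero]
    exact hf (dotProduct_self_eq_zero.mp (h2 f hmem))
  have hli : LinearIndependent ℝ (Fin.cons f X : Fin (k + 2) → Fin (k + 2) → ℝ) :=
    linearIndependent_finCons.mpr ⟨hX, hspan⟩
  have h3 : LinearIndependent ℝ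
      (Matrix.of (Fin.cons f X : Fin (k + 2) → Fin (k + 2) → ℝ)).row := hli
  have h4 := (Matrix.linearIndependent_rows_iff_isUnit.mp h3)
  exact ((Matrix.isUnit_iff_isUnit_det _).mp h4).ne_zero

theorem exists_coeff {f : Fin (k + 2) → ℝ} {X : Fin (k + 1) → Fin (k + 2) → ℝ} (hf : f ≠ 0)
    (h0 : orn f X ≠ 0) (h : ∀ i, f ⬝ᵥ X i = 0) {v : Fin (k + 2) → ℝ} (hv : f ⬝ᵥ v = 0) :
    ∃ c : Fin (k + 1) → ℝ, v = ∑ i, c i • X i := by
  have hu : IsUnit (Matrix.of (Fin.cons f X : Fin (k + 2) → Fin (k + 2) → ℝ)) :=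
    (Matrix.isUnit_iff_isUnit_det _).mpr (isUnit_iff_ne_zero.mpr h0)
  obtain ⟨c, hc⟩ := Matrix.vecMul_surjective_iff_isUnit.mpr hu v
  have hc2 : v = c 0 • f + ∑ i : Fin (k + 1), c i.succ • X i := by
    rw [← hc]
    ext j
    simp [Matrix.vecMul, dotProduct, Fin.sum_univ_succ]
  have hc0 : c 0 = 0 := by
    have h5 : f ⬝ᵥ v = c 0 * (f ⬝ᵥ f) := by
      rw [hc2, dotProduct_add, dotProduct_smul, dotProduct_sum]
      simp [dotProduct_smul, h]
    rw [hv] at h5
    have h6 : f ⬝ᵥ f ≠ 0 := fun h7 => hf (dotProduct_self_eq_zero.mp h7)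
    rcases mul_eq_zero.mp h5.symm with h7 | h7
    · exact h7
    · exact absurd h7 h6
  refine ⟨fun i => c i.succ, ?_⟩
  rw [hc0, zero_smul, zero_add] at hc2
  exact hc2

theorem orn_update (f : Fin (k + 2) → ℝ) (X : Fin (k + 1) → Fin (k + 2) → ℝ)
    (c : Fin (k + 1) → ℝ) (j : Fin (k + 1)) :
    orn f (Function.update X j (∑ i, c i • X i)) = c j * orn f X := by
  have h := Matrix.det_updateRow_sum (Matrix.of (Fin.cons f X : Fin (k + 2) → Fin (k + 2) → ℝ))
    j.succ (Fin.cons 0 c : Fin (k + 2) → ℝ)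
  simp only [Fin.cons_succ, smul_eq_mul] at h
  unfold orn
  rw [← h]
  congr 1
  ext a b
  refine Fin.cases ?_ (fun a' => ?_) a
  · simp [Matrix.updateRow_apply, (Fin.succ_ne_zero j).symm]
  · by_cases haj : a' = j
    · subst haj
      simp [Matrix.updateRow_apply, Fin.sum_univ_succ]
    · simp [Matrix.updateRow_apply, haj]

theorem sign_eq_of_continuousOn {g : ℝ → ℝ} (hg : ContinuousOn g (Set.Icc 0 1))
    (h0 : ∀ τ ∈ Set.Icc (0 : ℝ) 1, g τ ≠ 0) : SignType.sign (g 0) = SignType.sign (g 1) := by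
  have hz := h0 0 ⟨le_rfl, zero_le_one⟩
  have ho := h0 1 ⟨zero_le_one, le_rfl⟩
  rcases lt_or_gt_of_ne hz with h1 | h1 <;> rcases lt_or_gt_of_ne ho with h2 | h2
  · rw [sign_neg h1, sign_neg h2]
  · obtain ⟨τ, hτ, hτ0⟩ := intermediate_value_Icc (zero_le_one' ℝ) hg
      (show (0 : ℝ) ∈ Set.Icc (g 0) (g 1) from ⟨h1.le, h2.le⟩)
    exact absurd hτ0 (h0 τ hτ)
  · obtain ⟨τ, hτ, hτ0⟩ := intermediate_value_Icc' (zero_le_one' ℝ) hg
      (show (0 : ℝ) ∈ Set.Icc (g 1) (g 0) from ⟨h2.le, h1.le⟩)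
    exact absurd hτ0 (h0 τ hτ)
  · rw [sign_pos h1, sign_pos h2]

/-- The orientation does not change along a path of transversals. -/
theorem orn_path (F : ℝ → Fin (k + 2) → ℝ) (X : ℝ → Fin (k + 1) → Fin (k + 2) → ℝ)
    (hF : ContinuousOn F (Set.Icc 0 1)) (hX : ∀ i, ContinuousOn (fun τ => X τ i) (Set.Icc 0 1))
    (hF0 : ∀ τ ∈ Set.Icc (0 : ℝ) 1, F τ ≠ 0)
    (hind : ∀ τ ∈ Set.Icc (0 : ℝ) 1, LinearIndependent ℝ (X τ))
    (hFX : ∀ τ ∈ Set.Icc (0 : ℝ) 1, ∀ i, F τ ⬝ᵥ X τ i = 0) :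
    SignType.sign (orn (F 0) (X 0)) = SignType.sign (orn (F 1) (X 1)) := by
  have hcont : ContinuousOn (fun τ => orn (F τ) (X τ)) (Set.Icc 0 1) := by
    rw [continuousOn_iff_continuous_domRestrict] at hF ⊢
    have hX' : ∀ i, Continuous ((Set.Icc (0 : ℝ) 1).domRestrict (fun τ => X τ i)) := fun i =>
      continuousOn_iff_continuous_domRestrict.mp (hX i)
    change Continuous fun τ : Set.Icc (0 : ℝ) 1 => Matrix.det (Matrix.of
      (Fin.cons (F τ) (X τ) : Fin (k + 2) → Fin (k + 2) → ℝ))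
    refine Continuous.matrix_det ?_
    refine continuous_pi fun a => ?_
    refine Fin.cases ?_ (fun a' => ?_) a
    · exact hF
    · exact hX' a'
  exact sign_eq_of_continuousOn hcont fun τ hτ => orn_ne_zero (hF0 τ hτ) (hind τ hτ) (hFX τ hτ)

theorem orn_eq_zero_of_not_injective {f : Fin (k + 2) → ℝ} {x : ι → Fin (k + 2) → ℝ}
    {t : Fin (k + 1) → ι} (ht : ¬ Function.Injective t) : (orn f fun j => x (t j)) = 0 := by
  rw [Function.Injective] at ht
  push Not at ht
  obtain ⟨i, j, hij, hne⟩ := ht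
  unfold orn
  refine Matrix.det_zero_of_row_eq (i := i.succ) (j := j.succ)
    (fun h => hne (Fin.succ_injective _ h)) ?_
  funext b
  simp [hij]

theorem dt_eq_zero_of_not_injective {p : ι → Fin (k + 1) → ℝ}
    {t : Fin (k + 1) → ι} (ht : ¬ Function.Injective t) : (dt fun j => p (t j)) = 0 := by
  rw [Function.Injective] at ht
  push Not at ht
  obtain ⟨i, j, hij, hne⟩ := ht
  unfold dt
  refine Matrix.det_zero_of_row_eq (i := i) (j := j) hne ?_
  funext b
  simp [hij]

theorem IsCone.combo {m : ℕ} {C : Set (Fin m → ℝ)} (hC : IsCone C) {v w : Fin m → ℝ}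
    (hv : v ∈ C) (hw : w ∈ C) {a b : ℝ} (ha : 0 ≤ a) (hb : 0 ≤ b) (hab : 0 < a + b) :
    a • v + b • w ∈ C := by
  rcases ha.eq_or_lt with h | h
  · rcases hb.eq_or_lt with h' | h'
    · exfalso; linarith
    · rw [← h, zero_smul, zero_add]; exact hC.smul _ hw _ h'
  · rcases hb.eq_or_lt with h' | h'
    · rw [← h', zero_smul, add_zero]; exact hC.smul _ hv _ h
    · exact hC.add _ (hC.smul _ hv _ h) _ (hC.smul _ hw _ h')

/-- The orientation does not depend on the representatives. -/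
theorem orn_rep {C : ι → Set (Fin (k + 2) → ℝ)} (hC : ∀ s, IsCone (C s)) (hsep : LSep C)
    {f : Fin (k + 2) → ℝ} (hf : f ≠ 0) {x y : ι → Fin (k + 2) → ℝ} {B : Set ι}
    (hx : ∀ s ∈ B, x s ∈ C s ∧ f ⬝ᵥ x s = 0) (hy : ∀ s ∈ B, y s ∈ C s ∧ f ⬝ᵥ y s = 0)
    (t : Fin (k + 1) → ι) (ht : ∀ j, t j ∈ B) :
    SignType.sign (orn f fun j => x (t j)) = SignType.sign (orn f fun j => y (t j)) := by
  by_cases hinj : Function.Injective t
  · have := orn_path (fun _ => f) (fun τ j => (1 - τ) • x (t j) + τ • y (t j)) continuousOn_const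
      (fun i => by fun_prop) (fun _ _ => hf)
      (fun τ hτ => hsep t hinj _ fun j => (hC _).combo (hx _ (ht j)).1 (hy _ (ht j)).1
        (by linarith [hτ.2]) hτ.1 (by linarith))
      (fun τ _ i => by
        rw [dotProduct_add, dotProduct_smul, dotProduct_smul, (hx _ (ht i)).2, (hy _ (ht i)).2]
        simp)
    simpa using this
  · rw [orn_eq_zero_of_not_injective hinj, orn_eq_zero_of_not_injective hinj]

theorem dt_update {m : ℕ} (X : Fin m → Fin m → ℝ) (c : Fin m → ℝ) (j : Fin m) :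
    dt (Function.update X j (∑ i, c i • X i)) = c j * dt X := by
  have h := Matrix.det_updateRow_sum (Matrix.of X) j c
  rw [smul_eq_mul] at h
  unfold dt
  rw [← h]
  rfl

/-- Relations between `k + 2` of the vectors `p` transfer to the points of a transversal. -/
theorem exists_rel {C : ι → Set (Fin (k + 2) → ℝ)} (hsep : LSep C)
    {p : ι → Fin (k + 1) → ℝ} {f : Fin (k + 2) → ℝ} (hf : f ≠ 0) {x : ι → Fin (k + 2) → ℝ}
    {B : Set ι} (hx : ∀ s ∈ B, x s ∈ C s ∧ f ⬝ᵥ x s = 0) (hag : Agree f x p B)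
    (a : Fin (k + 2) → ι) (ha : Function.Injective a) (haB : ∀ i, a i ∈ B)
    (μ : Fin (k + 2) → ℝ) (hμ : ∀ i, μ i ≠ 0) (hrel : ∑ i, μ i • p (a i) = 0) :
    ∃ ν : Fin (k + 2) → ℝ, (∀ i, 0 < ν i) ∧ ∑ i, (μ i * ν i) • x (a i) = 0 := by
  classical
  set t : Fin (k + 1) → ι := fun j => a j.succ with ht
  have htinj : Function.Injective t := fun i j hij => Fin.succ_injective _ (ha hij)
  have htB : ∀ j, t j ∈ B := fun j => haB _
  have hind : LinearIndependent ℝ (fun j => x (t j)) := hsep t htinj _ fun j => (hx _ (htB j)).1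
  have hX : ∀ j, f ⬝ᵥ x (t j) = 0 := fun j => (hx _ (htB j)).2
  have h0 : (orn f fun j => x (t j)) ≠ 0 := orn_ne_zero hf hind hX
  obtain ⟨c, hc⟩ := exists_coeff hf h0 hX (hx _ (haB 0)).2
  -- coefficients of p (a 0)
  have hp : p (a 0) = ∑ j, (-(μ j.succ / μ 0)) • p (t j) := by
    rw [Fin.sum_univ_succ] at hrel
    have h1 : μ 0 • p (a 0) = -∑ j : Fin (k + 1), μ j.succ • p (a j.succ) :=
      eq_neg_of_add_eq_zero_left hrel
    have h2 : p (a 0) = (μ 0)⁻¹ • (μ 0 • p (a 0)) := by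
      rw [smul_smul, inv_mul_cancel₀ (hμ 0), one_smul]
    rw [h2, h1, smul_neg, Finset.smul_sum, ← Finset.sum_neg_distrib]
    refine Finset.sum_congr rfl fun j _ => ?_
    rw [smul_smul, ← neg_smul]
    congr 1
    field_simp
  -- compare signs
  have hsign : ∀ j, SignType.sign (c j) = SignType.sign (-(μ j.succ / μ 0)) := by
    intro j
    set t' : Fin (k + 1) → ι := Function.update t j (a 0) with ht'
    have ht'B : ∀ i, t' i ∈ B := by
      intro i
      by_cases hij : i = j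
      · subst hij; rw [ht', Function.update_self]; exact haB 0
      · rw [ht', Function.update_of_ne hij]; exact htB i
    have h1 := hag t' ht'B
    have h2 : (fun i => x (t' i)) = Function.update (fun i => x (t i)) j (∑ i, c i • x (t i)) := by
      funext i
      by_cases hij : i = j
      · subst hij; rw [ht', Function.update_self, Function.update_self]; exact hc
      · rw [ht', Function.update_of_ne hij, Function.update_of_ne hij]
    have h3 : (fun i => p (t' i)) = Function.update (fun i => p (t i)) j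
        (∑ i, (-(μ i.succ / μ 0)) • p (t i)) := by
      funext i
      by_cases hij : i = j
      · subst hij; rw [ht', Function.update_self, Function.update_self]; exact hp
      · rw [ht', Function.update_of_ne hij, Function.update_of_ne hij]
    rw [h2, orn_update, h3, dt_update, sign_mul, sign_mul, hag t htB] at h1
    have h4 : SignType.sign (dt fun j => p (t j)) ≠ 0 := by
      rw [← hag t htB]; exact sign_ne_zero.mpr h0
    exact mul_right_cancel₀ h4 h1
  refine ⟨Fin.cons 1 fun j => -(c j * μ 0 / μ j.succ), ?_, ?_⟩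
  · intro i
    refine Fin.cases ?_ (fun j => ?_) i
    · simp
    · simp only [Fin.cons_succ]
      have h1 := hsign j
      have h2 : μ j.succ / μ 0 ≠ 0 := div_ne_zero (hμ _) (hμ _)
      have h3 : -(c j * μ 0 / μ j.succ) = c j * (-(μ j.succ / μ 0)) * (μ 0 / μ j.succ) ^ 2 := by
        field_simp [hμ 0, hμ j.succ]
      rw [h3]
      have h4 : 0 < c j * (-(μ j.succ / μ 0)) := by
        have : SignType.sign (c j * (-(μ j.succ / μ 0))) = 1 := by
          rw [sign_mul, h1]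
          rcases lt_or_gt_of_ne (neg_ne_zero.mpr h2) with h | h
          · rw [sign_neg h]; rfl
          · rw [sign_pos h]; rfl
        exact sign_eq_one_iff.mp this
      have h5 : μ 0 / μ j.succ ≠ 0 := div_ne_zero (hμ _) (hμ _)
      positivity
  · rw [Fin.sum_univ_succ]
    simp only [Fin.cons_zero, mul_one, Fin.cons_succ]
    rw [hc, Finset.smul_sum, ← Finset.sum_add_distrib]
    refine Finset.sum_eq_zero fun j _ => ?_
    rw [smul_smul, ← add_smul]
    have : μ 0 * c j + μ j.succ * -(c j * μ 0 / μ j.succ) = 0 := by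
      field_simp [hμ j.succ]; ring
    rw [this, zero_smul]

/-- `orn f` on the image of a linear map is a multiple of the determinant. -/
theorem orn_map (f : Fin (k + 2) → ℝ) (Φ : (Fin (k + 1) → ℝ) →ₗ[ℝ] (Fin (k + 2) → ℝ))
    (q : Fin (k + 1) → Fin (k + 1) → ℝ) :
    orn f (fun j => Φ (q j)) = orn f (fun j => Φ (Pi.single j 1)) * dt q := by
  set A : (Fin (k + 1) → ℝ) [⋀^Fin (k + 1)]→ₗ[ℝ] ℝ :=
    ((Matrix.detRowAlternating (R := ℝ) (n := Fin (k + 2))).curryLeft f).compLinearMap Φ with hA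
  have hA' : ∀ v : Fin (k + 1) → Fin (k + 1) → ℝ, A v = orn f (fun j => Φ (v j)) := by
    intro v
    rw [hA, AlternatingMap.compLinearMap_apply, AlternatingMap.curryLeft_apply_apply]
    rfl
  have h := A.eq_smul_basis_det (Pi.basisFun ℝ (Fin (k + 1)))
  have h2 := congrArg (fun B => B q) h
  simp only [AlternatingMap.smul_apply, smul_eq_mul] at h2
  rw [Pi.basisFun_det_apply, hA', hA'] at h2
  rw [h2]
  congr 2
  funext j
  rw [Pi.basisFun_apply]

theorem orn_neg (f : Fin (k + 2) → ℝ) (X : Fin (k + 1) → Fin (k + 2) → ℝ) :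
    orn (-f) X = -orn f X := by
  have h := Matrix.det_updateRow_smul (Matrix.of (Fin.cons f X : Fin (k + 2) → Fin (k + 2) → ℝ))
    0 (-1 : ℝ) f
  have h1 : Matrix.updateRow (Matrix.of (Fin.cons f X : Fin (k + 2) → Fin (k + 2) → ℝ)) 0
      ((-1 : ℝ) • f) = Matrix.of (Fin.cons (-f) X : Fin (k + 2) → Fin (k + 2) → ℝ) := by
    ext a b
    refine Fin.cases ?_ (fun a' => ?_) a
    · simp [Matrix.updateRow_apply]
    · simp [Matrix.updateRow_apply]
  have h2 : Matrix.updateRow (Matrix.of (Fin.cons f X : Fin (k + 2) → Fin (k + 2) → ℝ)) 0 f =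
      Matrix.of (Fin.cons f X : Fin (k + 2) → Fin (k + 2) → ℝ) := by
    ext a b
    refine Fin.cases ?_ (fun a' => ?_) a
    · simp [Matrix.updateRow_apply]
    · simp [Matrix.updateRow_apply]
  rw [h1, h2] at h
  unfold orn
  rw [h]; ring

theorem exists_normal (X : Fin (k + 1) → Fin (k + 2) → ℝ) :
    ∃ f : Fin (k + 2) → ℝ, f ≠ 0 ∧ ∀ i, f ⬝ᵥ X i = 0 := by
  set T : (Fin (k + 2) → ℝ) →ₗ[ℝ] (Fin (k + 1) → ℝ) := Matrix.mulVecLin (Matrix.of X) with hT
  have hk : LinearMap.ker T ≠ ⊥ := by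
    apply LinearMap.ker_ne_bot_of_finrank_lt
    simp
  obtain ⟨f, hf, hf0⟩ := Submodule.exists_mem_ne_zero_of_ne_bot hk
  refine ⟨f, hf0, fun i => ?_⟩
  rw [LinearMap.mem_ker, hT, Matrix.mulVecLin_apply] at hf
  have := congrFun hf i
  rw [dotProduct_comm]
  simpa [Matrix.mulVec] using this

/-- A criterion for subfamilies of `k + 2` members. -/
theorem lcons_of_rel {C : ι → Set (Fin (k + 2) → ℝ)} (hsep : LSep C)
    {p : ι → Fin (k + 1) → ℝ} (a : Fin (k + 2) → ι) (ha : Function.Injective a)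
    (μ : Fin (k + 2) → ℝ) (hμ : ∀ i, μ i ≠ 0) (hrel : ∑ i, μ i • p (a i) = 0)
    (hp : dt (fun j : Fin (k + 1) => p (a j.castSucc)) ≠ 0)
    (x : Fin (k + 2) → Fin (k + 2) → ℝ) (hx : ∀ i, x i ∈ C (a i))
    (hrelx : ∑ i, μ i • x i = 0) : LCons C p (Set.range a) := by
  classical
  -- the linear map
  have hli : LinearIndependent ℝ (fun j : Fin (k + 1) => p (a j.castSucc)) := by
    have : LinearIndependent ℝ (Matrix.of fun j : Fin (k + 1) => p (a j.castSucc)).row :=
      Matrix.linearIndependent_rows_iff_isUnit.mpr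
        ((Matrix.isUnit_iff_isUnit_det _).mpr (isUnit_iff_ne_zero.mpr hp))
    exact this
  set b := basisOfLinearIndependentOfCardEqFinrank hli (by simp) with hb
  set Φ : (Fin (k + 1) → ℝ) →ₗ[ℝ] (Fin (k + 2) → ℝ) :=
    b.constr ℝ (fun j : Fin (k + 1) => x j.castSucc) with hΦ
  have hbj : ∀ j, b j = p (a j.castSucc) := fun j => by
    rw [hb, coe_basisOfLinearIndependentOfCardEqFinrank]
  have hΦ1 : ∀ j : Fin (k + 1), Φ (p (a j.castSucc)) = x j.castSucc := fun j => by
    rw [← hbj, hΦ, Module.Basis.constr_basis]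
  have hΦ2 : ∀ i, Φ (p (a i)) = x i := by
    intro i
    refine Fin.lastCases ?_ (fun j => hΦ1 j) i
    have h1 := congrArg Φ hrel
    rw [map_sum, map_zero, Fin.sum_univ_castSucc] at h1
    rw [Fin.sum_univ_castSucc] at hrelx
    simp only [map_smul, hΦ1] at h1
    have h2 : μ (Fin.last _) • Φ (p (a (Fin.last _))) = μ (Fin.last _) • x (Fin.last _) := by
      rw [eq_neg_of_add_eq_zero_right h1, eq_neg_of_add_eq_zero_right hrelx]
    exact smul_right_injective _ (hμ (Fin.last _)) h2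
  -- the normal vector
  obtain ⟨f0, hf0, hf0x⟩ := exists_normal (fun j : Fin (k + 1) => x j.castSucc)
  have hf0x' : ∀ i, f0 ⬝ᵥ x i = 0 := by
    intro i
    refine Fin.lastCases ?_ (fun j => hf0x j) i
    have h1 : f0 ⬝ᵥ (∑ i, μ i • x i) = 0 := by rw [hrelx, dotProduct_zero]
    rw [Fin.sum_univ_castSucc, dotProduct_add, dotProduct_sum] at h1
    simp only [dotProduct_smul, hf0x, smul_eq_mul, mul_zero, Finset.sum_const_zero, zero_add]
      at h1
    exact (mul_eq_zero.mp h1).resolve_left (hμ _)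
  have hind : LinearIndependent ℝ (fun j : Fin (k + 1) => x j.castSucc) :=
    hsep (fun j => a j.castSucc) (fun i j hij => Fin.castSucc_injective _ (ha hij)) _
      fun j => hx _
  have hne := orn_ne_zero hf0 hind hf0x
  obtain ⟨f, hf, hfx, hpos⟩ : ∃ f : Fin (k + 2) → ℝ, f ≠ 0 ∧ (∀ i, f ⬝ᵥ x i = 0) ∧
      0 < (orn f fun j => Φ (Pi.single j 1)) := by
    have h1 : ∀ g : Fin (k + 2) → ℝ, (orn g fun j : Fin (k + 1) => x j.castSucc) =
        (orn g fun j => Φ (Pi.single j 1)) * dt (fun j : Fin (k + 1) => p (a j.castSucc)) := by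
      intro g
      rw [← orn_map]
      simp only [hΦ1]
    have h2 : (orn f0 fun j => Φ (Pi.single j 1)) ≠ 0 := by
      intro h0
      rw [h1, h0, zero_mul] at hne
      exact hne rfl
    rcases lt_or_gt_of_ne h2 with h | h
    · refine ⟨-f0, neg_ne_zero.mpr hf0, fun i => by rw [neg_dotProduct, hf0x' i, neg_zero], ?_⟩
      rw [orn_neg]; linarith
    · exact ⟨f0, hf0, hf0x', h⟩
  refine ⟨f, fun s => Φ (p s), hf, ?_, ?_⟩
  · rintro s ⟨i, rfl⟩
    have h3 : Φ (p (a i)) ∈ C (a i) := by rw [hΦ2]; exact hx i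
    exact ⟨h3, (congrArg (fun v => f ⬝ᵥ v) (hΦ2 i)).trans (hfx i)⟩
  · intro t _
    rw [orn_map, sign_mul, sign_pos hpos, one_mul]

end Pool.Agent.HT
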