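import Mathlib
import Pool.Agent.HT.Basic

/-!
# Conformal functionals of small support, and the basic move of a transversal
-/

namespace Pool.Agent.HT

open scoped Matrix

variable {k : ℕ} {ι : Type}

/-- A functional vanishing on a basis of the hyperplane is a multiple of the normal vector. -/
theorem eq_smul_of_orth {f : Fin (k + 2) → ℝ} {X : Fin (k + 1) → Fin (k + 2) → ℝ} (hf : f ≠ 0)
    (hX : LinearIndependent ℝ X) (h : ∀ i, f ⬝ᵥ X i = 0) {g : Fin (k + 2) → ℝ}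
    (hg : ∀ i, g ⬝ᵥ X i = 0) : ∃ c : ℝ, g = c • f := by
  have hff : f ⬝ᵥ f ≠ 0 := fun h7 => hf (dotProduct_self_eq_zero.mp h7)
  refine ⟨(f ⬝ᵥ g) / (f ⬝ᵥ f), ?_⟩
  set c := (f ⬝ᵥ g) / (f ⬝ᵥ f) with hc
  have h1 : f ⬝ᵥ (g - c • f) = 0 := by
    rw [dotProduct_sub, dotProduct_smul, smul_eq_mul, hc]
    field_simp
    ring
  obtain ⟨b, hb⟩ := exists_coeff hf (orn_ne_zero hf hX h) h h1
  have h2 : ∀ i, (g - c • f) ⬝ᵥ X i = 0 := fun i => by
    rw [sub_dotProduct, smul_dotProduct, h i, hg i]; simp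
  have h3 : (g - c • f) ⬝ᵥ (∑ i, b i • X i) = 0 := by
    rw [dotProduct_sum]
    refine Finset.sum_eq_zero fun i _ => ?_
    rw [dotProduct_smul, h2 i, smul_zero]
  rw [← hb] at h3
  have h4 := dotProduct_self_eq_zero.mp h3
  exact sub_eq_zero.mp h4

theorem exists_tuple [DecidableEq ι] {m : ℕ} {S : Finset ι} (h : m ≤ S.card) :
    ∃ t : Fin m → ι, Function.Injective t ∧ ∀ j, t j ∈ S := by
  obtain ⟨T, hT, hTm⟩ := Finset.exists_subset_card_eq h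
  refine ⟨fun j => ((T.equivFinOfCardEq hTm).symm j : ι), fun i j hij => ?_, fun j => hT (Subtype.coe_prop _)⟩
  exact (T.equivFinOfCardEq hTm).symm.injective (Subtype.ext hij)

/-- Conformal functionals with exactly `k` zeros. -/
theorem exists_conformal [DecidableEq ι] {S : Finset ι} (hS : k + 1 ≤ S.card)
    {y : ι → Fin (k + 2) → ℝ} {g : Fin (k + 2) → ℝ} (hg : g ≠ 0) (hy : ∀ s ∈ S, g ⬝ᵥ y s = 0)
    (hind : ∀ t : Fin (k + 1) → ι, Function.Injective t → (∀ j, t j ∈ S) →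
      LinearIndependent ℝ fun j => y (t j))
    (φ : Fin (k + 2) → ℝ) (hφ : ∃ s ∈ S, φ ⬝ᵥ y s ≠ 0) :
    ∃ (γ : Fin (k + 2) → ℝ) (E : Finset ι), E ⊆ S ∧ E.card = k ∧ (∀ s ∈ E, γ ⬝ᵥ y s = 0) ∧
      ∀ s ∈ S, s ∉ E → 0 < (γ ⬝ᵥ y s) * (φ ⬝ᵥ y s) := by
  classical
  set P : ℕ → Prop := fun n => ∃ γ : Fin (k + 2) → ℝ,
    (∀ s ∈ S, φ ⬝ᵥ y s = 0 → γ ⬝ᵥ y s = 0) ∧ (∀ s ∈ S, 0 ≤ (γ ⬝ᵥ y s) * (φ ⬝ᵥ y s)) ∧
    (∃ s ∈ S, γ ⬝ᵥ y s ≠ 0) ∧ (S.filter fun s => γ ⬝ᵥ y s ≠ 0).card = n with hP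
  have hex : ∃ n, P n := ⟨_, φ, fun _ _ h => h, fun s _ => mul_self_nonneg _, hφ, rfl⟩
  obtain ⟨γ, h1, h2, h3, h4⟩ := Nat.find_spec hex
  have hmin := fun m (hm : m < Nat.find hex) => Nat.find_min hex hm
  rw [← h4] at hmin
  set E := S.filter fun s => γ ⬝ᵥ y s = 0 with hE
  have hvan : ∀ s ∈ E, γ ⬝ᵥ y s = 0 := fun s hs => (Finset.mem_filter.mp hs).2
  have hES : E ⊆ S := Finset.filter_subset _ _
  -- a functional vanishing on `k+1` of the `y s` is a multiple of `g`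
  have key : ∀ (h : Fin (k + 2) → ℝ) (T : Finset ι), T ⊆ S → k + 1 ≤ T.card →
      (∀ s ∈ T, h ⬝ᵥ y s = 0) → ∃ c : ℝ, h = c • g := by
    intro h T hTS hT hT0
    obtain ⟨t, ht, htT⟩ := exists_tuple hT
    exact eq_smul_of_orth hg (hind t ht fun j => hTS (htT j)) (fun j => hy _ (hTS (htT j)))
      (fun j => hT0 _ (htT j))
  have hEle : E.card ≤ k := by
    by_contra hlt
    obtain ⟨c, hc⟩ := key γ E hES (by omega) hvan
    obtain ⟨s, hs, hs0⟩ := h3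
    exact hs0 (by rw [hc, smul_dotProduct, hy s hs, smul_zero])
  have hEge : k ≤ E.card := by
    by_contra hlt
    obtain ⟨s1, hs1, hs10⟩ := h3
    -- a functional vanishing on `E` and `s1`, not a multiple of `g`
    set E' := insert s1 E with hE'
    have hE'card : E'.card ≤ k := by
      have : E'.card ≤ E.card + 1 := Finset.card_insert_le s1 E
      omega
    set T : (Fin (k + 2) → ℝ) →ₗ[ℝ] (E' → ℝ) :=
      Matrix.mulVecLin (Matrix.of fun s : E' => y s) with hT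
    have hker : ¬ LinearMap.ker T ≤ Submodule.span ℝ {g} := by
      intro hle
      have e1 := Submodule.finrank_mono hle
      have e2 := finrank_span_le_card (R := ℝ) ({g} : Set (Fin (k + 2) → ℝ))
      have e3 := LinearMap.finrank_range_add_finrank_ker T
      have e4 := Submodule.finrank_le (LinearMap.range T)
      simp only [Module.finrank_fintype_fun_eq_card, Fintype.card_fin, Fintype.card_coe] at e3 e4
      simp only [Set.toFinset_singleton, Finset.card_singleton] at e2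
      omega
    obtain ⟨γ2, hγ2, hγ2g⟩ := Set.not_subset.mp hker
    have hγ2E : ∀ s ∈ E', γ2 ⬝ᵥ y s = 0 := by
      intro s hs
      have e1 : T γ2 = 0 := hγ2
      have e2 := congrFun e1 ⟨s, hs⟩
      rw [dotProduct_comm]
      simpa [hT, Matrix.mulVec] using e2
    have hex2 : (S.filter fun s => γ2 ⬝ᵥ y s ≠ 0).Nonempty := by
      by_contra hemp
      rw [Finset.not_nonempty_iff_eq_empty, Finset.filter_eq_empty_iff] at hemp
      obtain ⟨c, hc⟩ := key γ2 S le_rfl hS fun s hs => not_not.mp (hemp hs)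
      exact hγ2g (Submodule.mem_span_singleton.mpr ⟨c, hc.symm⟩)
    obtain ⟨s2, hs2, hs2min⟩ := Finset.exists_min_image _
      (fun s => |(γ ⬝ᵥ y s) / (γ2 ⬝ᵥ y s)|) hex2
    rw [Finset.mem_filter] at hs2
    obtain ⟨hs2S, hs2ne⟩ := hs2
    set c := -((γ ⬝ᵥ y s2) / (γ2 ⬝ᵥ y s2)) with hc
    have hbound : ∀ s ∈ S, |c * (γ2 ⬝ᵥ y s)| ≤ |γ ⬝ᵥ y s| := by
      intro s hs
      by_cases h0 : γ2 ⬝ᵥ y s = 0
      · rw [h0]; simp
      · have e1 := hs2min s (Finset.mem_filter.mpr ⟨hs, h0⟩)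
        rw [abs_div] at e1
        rw [abs_mul, hc, abs_neg]
        have e2 : 0 < |γ2 ⬝ᵥ y s| := abs_pos.mpr h0
        calc |(γ ⬝ᵥ y s2) / (γ2 ⬝ᵥ y s2)| * |γ2 ⬝ᵥ y s|
            ≤ (|γ ⬝ᵥ y s| / |γ2 ⬝ᵥ y s|) * |γ2 ⬝ᵥ y s| := by
              refine mul_le_mul_of_nonneg_right ?_ e2.le
              rw [← abs_div]
              simpa [abs_div] using e1
          _ = |γ ⬝ᵥ y s| := by field_simp
    have hval : ∀ s, (γ + c • γ2) ⬝ᵥ y s = γ ⬝ᵥ y s + c * (γ2 ⬝ᵥ y s) := fun s => by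
      rw [add_dotProduct, smul_dotProduct, smul_eq_mul]
    have hzero : ∀ s ∈ S, γ ⬝ᵥ y s = 0 → (γ + c • γ2) ⬝ᵥ y s = 0 := by
      intro s hs h0
      have e1 := hbound s hs
      rw [h0, abs_zero] at e1
      have e2 : c * (γ2 ⬝ᵥ y s) = 0 := abs_eq_zero.mp (le_antisymm e1 (abs_nonneg _))
      rw [hval, h0, e2, add_zero]
    have hsame : ∀ s ∈ S, 0 ≤ ((γ + c • γ2) ⬝ᵥ y s) * (γ ⬝ᵥ y s) := by
      intro s hs
      rw [hval]
      have e1 := hbound s hs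
      have e2 : -(|γ ⬝ᵥ y s| * |γ ⬝ᵥ y s|) ≤ c * (γ2 ⬝ᵥ y s) * (γ ⬝ᵥ y s) := by
        have e3 := neg_abs_le (c * (γ2 ⬝ᵥ y s) * (γ ⬝ᵥ y s))
        rw [abs_mul] at e3
        have e4 := mul_le_mul_of_nonneg_right e1 (abs_nonneg (γ ⬝ᵥ y s))
        linarith
      have e5 : |γ ⬝ᵥ y s| * |γ ⬝ᵥ y s| = (γ ⬝ᵥ y s) * (γ ⬝ᵥ y s) := abs_mul_abs_self _
      nlinarith
    have hnew : P ((S.filter fun s => (γ + c • γ2) ⬝ᵥ y s ≠ 0).card) := by
      refine ⟨γ + c • γ2, fun s hs h0 => hzero s hs (h1 s hs h0), fun s hs => ?_, ⟨s1, hs1, ?_⟩, rfl⟩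
      · by_cases h0 : γ ⬝ᵥ y s = 0
        · rw [hzero s hs h0, zero_mul]
        · have e1 := hsame s hs
          have e2 := h2 s hs
          have e3 : 0 < (γ ⬝ᵥ y s) * (γ ⬝ᵥ y s) := mul_self_pos.mpr h0
          have e4 : 0 ≤ (((γ + c • γ2) ⬝ᵥ y s) * (φ ⬝ᵥ y s)) * ((γ ⬝ᵥ y s) * (γ ⬝ᵥ y s)) := by
            have := mul_nonneg e1 e2
            nlinarith [this]
          exact nonneg_of_mul_nonneg_left e4 e3
      · rw [hval, hγ2E s1 (Finset.mem_insert_self _ _), mul_zero, add_zero]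
        exact hs10
    refine hmin _ ?_ hnew
    apply Finset.card_lt_card
    rw [Finset.ssubset_iff_of_subset]
    · refine ⟨s2, ?_, ?_⟩
      · rw [Finset.mem_filter]
        refine ⟨hs2S, fun h0 => hs2ne (hγ2E s2 (Finset.mem_insert_of_mem ?_))⟩
        exact Finset.mem_filter.mpr ⟨hs2S, h0⟩
      · rw [Finset.mem_filter, not_and, not_not]
        intro _
        rw [hval, hc]
        field_simp
        ring
    · intro s hs
      rw [Finset.mem_filter] at hs ⊢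
      exact ⟨hs.1, fun h0 => hs.2 (hzero s hs.1 h0)⟩
  refine ⟨γ, E, hES, le_antisymm hEle hEge, hvan, fun s hs hsE => ?_⟩
  have e1 : γ ⬝ᵥ y s ≠ 0 := fun h0 => hsE (Finset.mem_filter.mpr ⟨hs, h0⟩)
  have e2 : φ ⬝ᵥ y s ≠ 0 := fun h0 => e1 (h1 s hs h0)
  exact lt_of_le_of_ne (h2 s hs) (mul_ne_zero e1 e2).symm

end Pool.Agent.HT
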