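import Mathlib
import Pool.Agent.HT.Conf

/-!
# The basic move of a transversal towards another one
-/

namespace Pool.Agent.HT

open scoped Matrix

variable {k : ℕ} {ι : Type}

/-- Moving the transversal `(f, x)` towards `y` in a suitable direction until it contains a new
point `y s`. -/
theorem move_step [DecidableEq ι] {C : ι → Set (Fin (k + 2) → ℝ)} (hC : ∀ s, IsCone (C s))
    (hsep : LSep C) {S : Finset ι} {f : Fin (k + 2) → ℝ} {x y : ι → Fin (k + 2) → ℝ}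
    (hx : ∀ s ∈ S, x s ∈ C s ∧ f ⬝ᵥ x s = 0) (hy : ∀ s ∈ S, y s ∈ C s)
    (δ : Fin (k + 2) → ℝ) (hδ0 : ∀ s ∈ S, f ⬝ᵥ y s = 0 → δ ⬝ᵥ y s = 0)
    (hδ1 : ∀ s ∈ S, 0 ≤ (δ ⬝ᵥ x s) * (f ⬝ᵥ y s))
    (hδ2 : ∃ s ∈ S, f ⬝ᵥ y s ≠ 0 ∧ δ ⬝ᵥ x s ≠ 0) :
    ∃ (f' : Fin (k + 2) → ℝ) (x' : ι → Fin (k + 2) → ℝ), f' ≠ 0 ∧
      (∀ s ∈ S, x' s ∈ C s ∧ f' ⬝ᵥ x' s = 0) ∧
      (∀ t : Fin (k + 1) → ι, (∀ j, t j ∈ S) →
        SignType.sign (orn f' fun j => x' (t j)) = SignType.sign (orn f fun j => x (t j))) ∧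
      (∀ s ∈ S, 0 ≤ (f' ⬝ᵥ y s) * (f ⬝ᵥ y s)) ∧
      (∀ s ∈ S, f ⬝ᵥ y s = 0 → f' ⬝ᵥ y s = 0) ∧
      (∃ s ∈ S, f ⬝ᵥ y s ≠ 0 ∧ f' ⬝ᵥ y s = 0) := by
  classical
  set W := S.filter fun s => f ⬝ᵥ y s ≠ 0 with hW
  obtain ⟨s0, hs0, hs0f, hs0δ⟩ := hδ2
  have hWne : W.Nonempty := ⟨s0, Finset.mem_filter.mpr ⟨hs0, hs0f⟩⟩
  set M : ℝ := 1 + ∑ s ∈ W, |δ ⬝ᵥ y s| / |f ⬝ᵥ y s| with hM
  set h : Fin (k + 2) → ℝ := -δ - M • f with hh
  have hhv : ∀ v, h ⬝ᵥ v = -(δ ⬝ᵥ v) - M * (f ⬝ᵥ v) := fun v => by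
    rw [hh, sub_dotProduct, neg_dotProduct, smul_dotProduct, smul_eq_mul]
  have hneg : ∀ s ∈ W, (h ⬝ᵥ y s) * (f ⬝ᵥ y s) < 0 := by
    intro s hs
    have hfs := (Finset.mem_filter.mp hs).2
    have h1 : |δ ⬝ᵥ y s| / |f ⬝ᵥ y s| ≤ ∑ s ∈ W, |δ ⬝ᵥ y s| / |f ⬝ᵥ y s| :=
      Finset.single_le_sum (f := fun s => |δ ⬝ᵥ y s| / |f ⬝ᵥ y s|) (fun i _ => by positivity) hs
    have h2 : 0 < |f ⬝ᵥ y s| := abs_pos.mpr hfs
    have h3 : |δ ⬝ᵥ y s| < M * |f ⬝ᵥ y s| := by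
      have : |δ ⬝ᵥ y s| / |f ⬝ᵥ y s| < M := by rw [hM]; linarith
      rwa [div_lt_iff₀ h2] at this
    rw [hhv]
    have h4 : -(δ ⬝ᵥ y s) * (f ⬝ᵥ y s) ≤ |δ ⬝ᵥ y s| * |f ⬝ᵥ y s| := by
      rw [← abs_mul]
      have := neg_abs_le ((δ ⬝ᵥ y s) * (f ⬝ᵥ y s))
      linarith
    have h5 : |f ⬝ᵥ y s| * |f ⬝ᵥ y s| = (f ⬝ᵥ y s) * (f ⬝ᵥ y s) := abs_mul_abs_self _
    have h6 : |δ ⬝ᵥ y s| * |f ⬝ᵥ y s| < M * |f ⬝ᵥ y s| * |f ⬝ᵥ y s| :=
      mul_lt_mul_of_pos_right h3 h2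
    have h7 : M * |f ⬝ᵥ y s| * |f ⬝ᵥ y s| = M * (f ⬝ᵥ y s) * (f ⬝ᵥ y s) := by
      rw [mul_assoc, h5]; ring
    have h8 : (-(δ ⬝ᵥ y s) - M * (f ⬝ᵥ y s)) * (f ⬝ᵥ y s) =
        -(δ ⬝ᵥ y s) * (f ⬝ᵥ y s) - M * (f ⬝ᵥ y s) * (f ⬝ᵥ y s) := by ring
    rw [h8]
    linarith
  -- the first time a new point is reached
  obtain ⟨s1, hs1, hs1min⟩ := Finset.exists_min_image W
    (fun s => (f ⬝ᵥ y s) / (-(h ⬝ᵥ y s))) hWne
  set T := (f ⬝ᵥ y s1) / (-(h ⬝ᵥ y s1)) with hT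
  have hpos : ∀ s ∈ W, 0 < (f ⬝ᵥ y s) / (-(h ⬝ᵥ y s)) := by
    intro s hs
    have h1 := hneg s hs
    have h2 : h ⬝ᵥ y s ≠ 0 := fun h0 => by rw [h0, zero_mul] at h1; exact lt_irrefl _ h1
    have h3 : (f ⬝ᵥ y s) / (-(h ⬝ᵥ y s)) =
        (-((h ⬝ᵥ y s) * (f ⬝ᵥ y s))) / ((h ⬝ᵥ y s) * (h ⬝ᵥ y s)) := by
      field_simp
    rw [h3]
    apply div_pos (by linarith) (mul_self_pos.mpr h2)
  have hTpos : 0 < T := hpos s1 hs1
  set F : ℝ → Fin (k + 2) → ℝ := fun u => f + (u * T) • h with hF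
  have hFv : ∀ u v, F u ⬝ᵥ v = f ⬝ᵥ v + u * T * (h ⬝ᵥ v) := fun u v => by
    simp only [hF, add_dotProduct, smul_dotProduct, smul_eq_mul]
  have hFx : ∀ u, ∀ s ∈ S, F u ⬝ᵥ x s = -(u * T * (δ ⬝ᵥ x s)) := fun u s hs => by
    rw [hFv, hhv, (hx s hs).2]; ring
  have hF0 : ∀ s ∈ S, f ⬝ᵥ y s = 0 → ∀ u, F u ⬝ᵥ y s = 0 := fun s hs h0 u => by
    rw [hFv, hhv, h0, hδ0 s hs h0]; ring
  have hFy : ∀ u ∈ Set.Icc (0 : ℝ) 1, ∀ s ∈ S, 0 ≤ (F u ⬝ᵥ y s) * (f ⬝ᵥ y s) := by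
    intro u hu s hs
    by_cases h0 : f ⬝ᵥ y s = 0
    · rw [h0, mul_zero]
    · have hsW : s ∈ W := Finset.mem_filter.mpr ⟨hs, h0⟩
      have h1 := hneg s hsW
      have h2 := hs1min s hsW
      have h3 : h ⬝ᵥ y s ≠ 0 := fun h0 => by rw [h0, zero_mul] at h1; exact lt_irrefl _ h1
      rw [hFv]
      have h4 : u * T ≤ (f ⬝ᵥ y s) / (-(h ⬝ᵥ y s)) := by
        calc u * T ≤ 1 * T := by
              apply mul_le_mul_of_nonneg_right hu.2 hTpos.le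
          _ = T := one_mul _
          _ ≤ _ := h2
      have h5 : (u * T) * (-((h ⬝ᵥ y s) * (f ⬝ᵥ y s))) ≤
          (f ⬝ᵥ y s) / (-(h ⬝ᵥ y s)) * (-((h ⬝ᵥ y s) * (f ⬝ᵥ y s))) :=
        mul_le_mul_of_nonneg_right h4 (by linarith)
      have h6 : (f ⬝ᵥ y s) / (-(h ⬝ᵥ y s)) * (-((h ⬝ᵥ y s) * (f ⬝ᵥ y s))) =
          (f ⬝ᵥ y s) * (f ⬝ᵥ y s) := by field_simp
      rw [h6] at h5
      nlinarith
  have hFne : ∀ u ∈ Set.Icc (0 : ℝ) 1, F u ≠ 0 := by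
    intro u hu h0
    rcases hu.1.eq_or_lt with h1 | h1
    · have h2 : F u ⬝ᵥ y s0 = f ⬝ᵥ y s0 := by rw [hFv, ← h1]; ring
      rw [h0, zero_dotProduct] at h2
      exact hs0f h2.symm
    · have h2 := hFx u s0 hs0
      rw [h0, zero_dotProduct] at h2
      have h3 : u * T * (δ ⬝ᵥ x s0) = 0 := by linarith
      rcases mul_eq_zero.mp h3 with h4 | h4
      · exact (mul_pos h1 hTpos).ne' h4
      · exact hs0δ h4
  -- the moving points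
  set X : ℝ → ι → Fin (k + 2) → ℝ := fun u s =>
    if f ⬝ᵥ y s = 0 then y s else if δ ⬝ᵥ x s = 0 then x s else
      ((f ⬝ᵥ y s) * (F u ⬝ᵥ y s)) • x s + (-((f ⬝ᵥ y s) * (F u ⬝ᵥ x s))) • y s with hX
  have hXC : ∀ u ∈ Set.Icc (0 : ℝ) 1, ∀ s ∈ S, X u s ∈ C s ∧ F u ⬝ᵥ X u s = 0 := by
    intro u hu s hs
    simp only [hX]
    by_cases h0 : f ⬝ᵥ y s = 0
    · rw [if_pos h0]
      exact ⟨hy s hs, hF0 s hs h0 u⟩
    · rw [if_neg h0]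
      by_cases h1 : δ ⬝ᵥ x s = 0
      · rw [if_pos h1]
        exact ⟨(hx s hs).1, by rw [hFx u s hs, h1]; ring⟩
      · rw [if_neg h1]
        constructor
        · have h2 : 0 ≤ (f ⬝ᵥ y s) * (F u ⬝ᵥ y s) := by
            have := hFy u hu s hs
            linarith
          have h3 : 0 ≤ -((f ⬝ᵥ y s) * (F u ⬝ᵥ x s)) := by
            rw [hFx u s hs]
            have h4 := hδ1 s hs
            have h5 : 0 ≤ u * T := mul_nonneg hu.1 hTpos.le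
            have := mul_nonneg h5 h4
            nlinarith
          refine (hC s).combo (hx s hs).1 (hy s hs) h2 h3 ?_
          rcases hu.1.eq_or_lt with h4 | h4
          · have h5 : F u ⬝ᵥ y s = f ⬝ᵥ y s := by rw [hFv, ← h4]; ring
            rw [h5]
            have := mul_self_pos.mpr h0
            linarith
          · have h5 : 0 < -((f ⬝ᵥ y s) * (F u ⬝ᵥ x s)) := by
              refine lt_of_le_of_ne h3 ?_
              rw [hFx u s hs]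
              intro h6
              have h7 : (f ⬝ᵥ y s) * ((u * T) * (δ ⬝ᵥ x s)) = 0 := by linarith
              rcases mul_eq_zero.mp h7 with h8 | h8
              · exact h0 h8
              · rcases mul_eq_zero.mp h8 with h9 | h9
                · exact (mul_pos h4 hTpos).ne' h9
                · exact h1 h9
            linarith
        · rw [dotProduct_add, dotProduct_smul, dotProduct_smul, smul_eq_mul, smul_eq_mul]
          ring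
  refine ⟨F 1, X 1, hFne 1 ⟨zero_le_one, le_rfl⟩, hXC 1 ⟨zero_le_one, le_rfl⟩, ?_,
    hFy 1 ⟨zero_le_one, le_rfl⟩, fun s hs h0 => hF0 s hs h0 1, s1,
    (Finset.mem_filter.mp hs1).1, (Finset.mem_filter.mp hs1).2, ?_⟩
  · intro t htS
    by_cases hinj : Function.Injective t
    · have h1 := orn_path F (fun u j => X u (t j)) (by simp only [hF]; fun_prop)
        (fun i => by
          simp only [hX, hF]
          split_ifs
          · exact continuousOn_const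
          · exact continuousOn_const
          · simp only [add_dotProduct, smul_dotProduct, smul_eq_mul]
            fun_prop)
        hFne (fun u hu => hsep t hinj _ fun j => (hXC u hu _ (htS j)).1)
        (fun u hu i => (hXC u hu _ (htS i)).2)
      have hF00 : F 0 = f := by simp [hF]
      rw [← h1, hF00]
      have hf : f ≠ 0 := by rw [← hF00]; exact hFne 0 ⟨le_rfl, zero_le_one⟩
      refine orn_rep (B := (S : Set ι)) hC hsep hf (fun s hs => ?_) (fun s hs => hx s hs) t htS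
      have := hXC 0 ⟨le_rfl, zero_le_one⟩ s hs
      rwa [hF00] at this
    · rw [orn_eq_zero_of_not_injective hinj, orn_eq_zero_of_not_injective hinj]
  · have h1 := hneg s1 hs1
    have h3 : h ⬝ᵥ y s1 ≠ 0 := fun h0 => by rw [h0, zero_mul] at h1; exact lt_irrefl _ h1
    rw [hFv, hT]
    field_simp
    ring

end Pool.Agent.HT
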