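import Mathlib
import Pool.Agent.HT.Move

/-!
# Pinned hyperplanes: the main step of the upper bound
-/

namespace Pool.Agent.HT

open scoped Matrix

variable {k : ℕ} {ι : Type}

theorem exists_enum [DecidableEq ι] {m : ℕ} {S : Finset ι} (h : S.card = m) :
    ∃ t : Fin m → ι, Function.Injective t ∧ (∀ j, t j ∈ S) ∧ ∀ s ∈ S, ∃ j, t j = s := by
  refine ⟨fun j => ((S.equivFinOfCardEq h).symm j : ι), fun i j hij => ?_, fun j => Subtype.coe_prop _,
    fun s hs => ⟨S.equivFinOfCardEq h ⟨s, hs⟩, by simp⟩⟩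
  exact (S.equivFinOfCardEq h).symm.injective (Subtype.ext hij)

/-- The functional `v ↦ κ * orn f (v, Y)` as a vector. -/
theorem exists_delta (f : Fin (k + 2) → ℝ) (Y : Fin k → Fin (k + 2) → ℝ) (κ : ℝ) :
    ∃ δ : Fin (k + 2) → ℝ, ∀ v, δ ⬝ᵥ v = κ * orn f (Fin.cons v Y) := by
  set L : (Fin (k + 2) → ℝ) →ₗ[ℝ] ((Fin (k + 2) → ℝ) [⋀^Fin k]→ₗ[ℝ] ℝ) :=
    ((Matrix.detRowAlternating (R := ℝ) (n := Fin (k + 2))).curryLeft f).curryLeft with hL
  have hLv : ∀ v, (L v) Y = orn f (Fin.cons v Y) := fun v => rfl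
  set L' : (Fin (k + 2) → ℝ) →ₗ[ℝ] ℝ :=
    { toFun := fun v => (L v) Y
      map_add' := fun a b => by rw [map_add]; rfl
      map_smul' := fun a b => by rw [map_smul]; rfl } with hL'
  refine ⟨fun i => κ * L' (fun j => if i = j then 1 else 0), fun v => ?_⟩
  have h2 := LinearMap.pi_apply_eq_sum_univ L' v
  have h3 : L' v = orn f (Fin.cons v Y) := rfl
  rw [← h3, h2, dotProduct, Finset.mul_sum]
  refine Finset.sum_congr rfl fun i _ => ?_
  rw [smul_eq_mul]
  ring

theorem orn_smul (c : ℝ) (f : Fin (k + 2) → ℝ) (X : Fin (k + 1) → Fin (k + 2) → ℝ) :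
    orn (c • f) X = c * orn f X := by
  have h := (Matrix.detRowAlternating (R := ℝ) (n := Fin (k + 2))).curryLeft.map_smul c f
  have h2 := congrArg (fun B => B X) h
  exact h2

theorem eq_mul_orn {g : Fin (k + 2) → ℝ} {Y : Fin k → Fin (k + 2) → ℝ} (hg : g ≠ 0)
    {u : Fin (k + 2) → ℝ} (hu : g ⬝ᵥ u = 0) (hY : ∀ i, g ⬝ᵥ Y i = 0)
    (hind : LinearIndependent ℝ (Fin.cons u Y : Fin (k + 1) → Fin (k + 2) → ℝ))
    {γ : Fin (k + 2) → ℝ} (hγ : ∀ i, γ ⬝ᵥ Y i = 0) {v : Fin (k + 2) → ℝ} (hv : g ⬝ᵥ v = 0) :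
    γ ⬝ᵥ v = (γ ⬝ᵥ u / orn g (Fin.cons u Y)) * orn g (Fin.cons v Y) := by
  have h0 : ∀ i, g ⬝ᵥ (Fin.cons u Y : Fin (k + 1) → Fin (k + 2) → ℝ) i = 0 := by
    intro i
    refine Fin.cases ?_ (fun j => ?_) i
    · simpa using hu
    · simpa using hY j
  have hne := orn_ne_zero hg hind h0
  obtain ⟨c, hc⟩ := exists_coeff hg hne h0 hv
  have h1 := orn_update g (Fin.cons u Y) c 0
  rw [← hc] at h1
  have h2 : Function.update (Fin.cons u Y : Fin (k + 1) → Fin (k + 2) → ℝ) 0 v = Fin.cons v Y := by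
    rw [Fin.update_cons_zero]
  rw [h2] at h1
  rw [h1]
  have h3 : γ ⬝ᵥ v = c 0 * (γ ⬝ᵥ u) := by
    rw [hc, dotProduct_sum, Fin.sum_univ_succ]
    simp [dotProduct_smul, hγ]
  rw [h3]
  field_simp

/-- Signs of coordinates are determined by the signs of the determinants. -/
theorem coord_sign {f1 f2 : Fin (k + 2) → ℝ} {x1 x2 : ι → Fin (k + 2) → ℝ} [DecidableEq ι]
    {t : Fin (k + 1) → ι} {j0 : ι} {c1 c2 : Fin (k + 1) → ℝ}
    (h1 : x1 j0 = ∑ n, c1 n • x1 (t n)) (h2 : x2 j0 = ∑ n, c2 n • x2 (t n))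
    (ht : SignType.sign (orn f1 fun j => x1 (t j)) = SignType.sign (orn f2 fun j => x2 (t j)))
    (ht0 : (orn f1 fun j => x1 (t j)) ≠ 0) (n : Fin (k + 1))
    (ht' : SignType.sign (orn f1 fun j => x1 (Function.update t n j0 j)) =
      SignType.sign (orn f2 fun j => x2 (Function.update t n j0 j))) :
    SignType.sign (c1 n) = SignType.sign (c2 n) := by
  have e : ∀ x : ι → Fin (k + 2) → ℝ, (fun j => x (Function.update t n j0 j)) =
      Function.update (fun j => x (t j)) n (x j0) := by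
    intro x
    funext j
    by_cases hj : j = n
    · subst hj; simp
    · simp [hj]
  rw [e, e, h1, h2, orn_update, orn_update, sign_mul, sign_mul, ← ht] at ht'
  exact mul_right_cancel₀ (sign_ne_zero.mpr ht0) ht'

theorem cons_apply (x : ι → Fin (k + 2) → ℝ) (s : ι) (e : Fin k → ι) :
    (fun j => x ((Fin.cons s e : Fin (k + 1) → ι) j)) =
      (Fin.cons (x s) (fun i => x (e i)) : Fin (k + 1) → Fin (k + 2) → ℝ) := by
  funext j
  refine Fin.cases ?_ (fun j' => ?_) j <;> simp

theorem pinned_step {k : ℕ} {ι : Type} [Fintype ι] [DecidableEq ι]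
    (C : ι → Set (Fin (k + 2) → ℝ)) (p : ι → Fin (k + 1) → ℝ)
    (hC : ∀ s, IsCone (C s)) (hsep : LSep C)
    (A : Finset ι) (hA : A.card = k + 2) (hJ : 2 ≤ Aᶜ.card)
    (f : Fin (k + 2) → ℝ) (hf : f ≠ 0) (w : ι → Fin (k + 2) → ℝ)
    (hw : ∀ s, w s ∈ C s ∧ f ⬝ᵥ w s = 0)
    (hpin : ∀ s ∈ A, ∀ v ∈ C s, 0 ≤ f ⬝ᵥ v)
    (α : ι → ℝ) (hα : ∀ s ∈ A, 0 < α s) (hdep : ∑ s ∈ A, α s • w s = 0)
    (hright : ∀ j ∉ A, Agree f w p {j}ᶜ)
    (hcons : ∀ c ∈ A, LCons C p {c}ᶜ) : Agree f w p Set.univ := by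
  classical
  by_contra hwrong
  set Wr : (Fin (k + 1) → ι) → Prop := fun t => Function.Injective t ∧
    SignType.sign (orn f fun j => w (t j)) ≠ SignType.sign (dt fun j => p (t j)) with hWr
  have hnotinj : ∀ t : Fin (k + 1) → ι,
      SignType.sign (orn f fun j => w (t j)) ≠ SignType.sign (dt fun j => p (t j)) → Wr t := by
    intro t ht
    refine ⟨?_, ht⟩
    by_contra hinj
    exact ht (by rw [orn_eq_zero_of_not_injective hinj, dt_eq_zero_of_not_injective hinj])
  obtain ⟨t1, ht1⟩ : ∃ t, Wr t := by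
    unfold Agree at hwrong
    push Not at hwrong
    obtain ⟨t, _, ht⟩ := hwrong
    exact ⟨t, hnotinj t ht⟩
  -- a wrong tuple contains all indices outside `A`
  have hW1 : ∀ t, Wr t → ∀ j, j ∉ A → ∃ i, t i = j := by
    intro t ht j hj
    by_contra hne
    push Not at hne
    exact ht.2 (hright j hj t fun i => hne i)
  have hfind : ∀ t : Fin (k + 1) → ι, ∃ c ∈ A, ∀ i, t i ≠ c := by
    intro t
    have h1 : ¬ A ⊆ Finset.univ.image t := by
      intro hsub
      have h2 := Finset.card_le_card hsub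
      have h3 : (Finset.univ.image t).card ≤ k + 1 := by
        simpa using Finset.card_image_le (s := (Finset.univ : Finset (Fin (k + 1)))) (f := t)
      omega
    obtain ⟨c, hc, hc2⟩ := Finset.not_subset.mp h1
    refine ⟨c, hc, fun i hi => hc2 ?_⟩
    rw [← hi]
    exact Finset.mem_image_of_mem _ (Finset.mem_univ i)
  set U := A.filter (fun c => ∃ t, Wr t ∧ ∀ i, t i ≠ c) with hU
  have hUne : U.Nonempty := by
    obtain ⟨c, hc, hc2⟩ := hfind t1
    exact ⟨c, Finset.mem_filter.mpr ⟨hc, t1, ht1, hc2⟩⟩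
  have hUmem : ∀ t, Wr t → ∀ c ∈ A, (∀ i, t i ≠ c) → c ∈ U := fun t ht c hc hc2 =>
    Finset.mem_filter.mpr ⟨hc, t, ht, hc2⟩
  -- the expansion of `w j0`
  obtain ⟨j0, j1, hj0, hj1, hj01⟩ : ∃ j0 j1, j0 ∉ A ∧ j1 ∉ A ∧ j0 ≠ j1 := by
    obtain ⟨a, ha, b, hb, hab⟩ := Finset.one_lt_card.mp (show 1 < Aᶜ.card by omega)
    exact ⟨a, b, Finset.mem_compl.mp ha, Finset.mem_compl.mp hb, hab⟩
  have hwind : ∀ t : Fin (k + 1) → ι, Function.Injective t →
      LinearIndependent ℝ (fun j => w (t j)) := fun t ht => hsep t ht _ fun j => (hw _).1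
  obtain ⟨b, hb⟩ : ∃ b : ι → ℝ, w j0 = ∑ s ∈ A, b s • w s := by
    obtain ⟨c0, hc0, _⟩ := hfind t1
    obtain ⟨t0, ht0, ht0A, ht0s⟩ := exists_enum (S := A.erase c0) (m := k + 1)
      (by rw [Finset.card_erase_of_mem hc0]; omega)
    obtain ⟨c, hc⟩ := exists_coeff hf (orn_ne_zero hf (hwind t0 ht0) fun i => (hw _).2)
      (fun i => (hw _).2) (hw j0).2
    refine ⟨fun s => ∑ n, if t0 n = s then c n else 0, ?_⟩
    rw [hc]
    simp_rw [Finset.sum_smul]
    rw [Finset.sum_comm]
    refine Finset.sum_congr rfl fun n _ => ?_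
    rw [Finset.sum_eq_single (t0 n)]
    · simp
    · intro s _ hs; rw [if_neg (Ne.symm hs), zero_smul]
    · intro h; exact absurd (Finset.mem_of_mem_erase (ht0A n)) h
  obtain ⟨c, hcU, hcmin⟩ := Finset.exists_min_image U (fun s => b s / α s) hUne
  have hcA : c ∈ A := (Finset.mem_filter.mp hcU).1
  set ρ : ι → ℝ := fun s => b s - b c / α c * α s with hρ
  have hρc : ρ c = 0 := by
    simp only [hρ]
    rw [div_mul_cancel₀ _ (hα c hcA).ne', sub_self]
  have hρU : ∀ s ∈ U, 0 ≤ ρ s := by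
    intro s hs
    have h1 := hcmin s hs
    have h2 := hα s (Finset.mem_filter.mp hs).1
    have h3 : b c / α c * α s ≤ b s := by
      calc b c / α c * α s ≤ b s / α s * α s := mul_le_mul_of_nonneg_right h1 h2.le
        _ = b s := div_mul_cancel₀ _ h2.ne'
    simp only [hρ]
    linarith
  obtain ⟨i0, hi0, hi0A, hi0s⟩ := exists_enum (S := A.erase c) (m := k + 1)
      (by rw [Finset.card_erase_of_mem hcA]; omega)
  have hsumI : ∀ F : ι → Fin (k + 2) → ℝ, ∑ n, F (i0 n) = ∑ s ∈ A.erase c, F s := by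
    intro F
    have himg : A.erase c = Finset.univ.image i0 := by
      ext s
      constructor
      · intro hs
        obtain ⟨j, hj⟩ := hi0s s hs
        exact Finset.mem_image.mpr ⟨j, Finset.mem_univ _, hj⟩
      · intro hs
        obtain ⟨j, _, hj⟩ := Finset.mem_image.mp hs
        rw [← hj]; exact hi0A j
    rw [himg, Finset.sum_image fun a _ b _ h => hi0 h]
  have hwρ : w j0 = ∑ n, ρ (i0 n) • w (i0 n) := by
    rw [hsumI (fun s => ρ s • w s)]
    have h1 := Finset.add_sum_erase A (fun s => ρ s • w s) hcA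
    simp only [hρc, zero_smul, zero_add] at h1
    rw [h1, hb]
    simp only [hρ, sub_smul, Finset.sum_sub_distrib]
    have h2 : ∑ s ∈ A, (b c / α c * α s) • w s = 0 := by
      simp_rw [mul_smul]
      rw [← Finset.smul_sum, hdep, smul_zero]
    rw [h2, sub_zero]
  have hupd : ∀ n, Function.Injective (Function.update i0 n j0) := by
    intro n a b hab
    by_cases ha : a = n <;> by_cases hb : b = n
    · rw [ha, hb]
    · rw [ha, Function.update_self, Function.update_of_ne hb] at hab
      exact absurd (hab ▸ Finset.mem_of_mem_erase (hi0A b)) hj0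
    · rw [hb, Function.update_self, Function.update_of_ne ha] at hab
      exact absurd (hab ▸ Finset.mem_of_mem_erase (hi0A a)) hj0
    · rw [Function.update_of_ne ha, Function.update_of_ne hb] at hab
      exact hi0 hab
  have hupd1 : ∀ n m, Function.update i0 n j0 m ≠ j1 := by
    intro n m
    by_cases hm : m = n
    · rw [hm, Function.update_self]; exact hj01
    · rw [Function.update_of_ne hm]
      intro h
      exact hj1 (h ▸ Finset.mem_of_mem_erase (hi0A m))
  have hi01 : ∀ m, i0 m ≠ j1 := fun m h => hj1 (h ▸ Finset.mem_of_mem_erase (hi0A m))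
  have hi0ne := orn_ne_zero hf (hwind i0 hi0) fun i => (hw _).2
  have hρne : ∀ n, ρ (i0 n) ≠ 0 := by
    intro n h0
    have h1 := orn_ne_zero hf (hwind _ (hupd n)) fun i => (hw _).2
    have e : (fun j => w (Function.update i0 n j0 j)) =
        Function.update (fun j => w (i0 j)) n (w j0) := by
      funext j
      by_cases hj : j = n
      · subst hj; simp
      · simp [hj]
    rw [e, hwρ, orn_update, h0, zero_mul] at h1
    exact h1 rfl
  -- the transversal missing `c`
  obtain ⟨g, y, hg, hy, hag⟩ := hcons c hcA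
  set S : Finset ι := Finset.univ.erase c with hS
  have hSc : ∀ s, s ∈ S ↔ s ≠ c := fun s => by simp [hS]
  have hyS : ∀ s ∈ S, y s ∈ C s ∧ g ⬝ᵥ y s = 0 := fun s hs => hy s ((hSc s).mp hs)
  have hyind : ∀ t : Fin (k + 1) → ι, Function.Injective t → (∀ j, t j ∈ S) →
      LinearIndependent ℝ (fun j => y (t j)) := fun t ht htS =>
    hsep t ht _ fun j => (hyS _ (htS j)).1
  have hScard : k + 1 < S.card := by
    rw [hS, Finset.card_erase_of_mem (Finset.mem_univ c), Finset.card_univ,
      ← Finset.card_add_card_compl A]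
    omega
  have hi0S : ∀ n, i0 n ∈ S := fun n => (hSc _).mpr (Finset.ne_of_mem_erase (hi0A n))
  have hj0S : j0 ∈ S := (hSc _).mpr fun h => hj0 (h ▸ hcA)
  have hupdS : ∀ n m, Function.update i0 n j0 m ∈ S := by
    intro n m
    by_cases hm : m = n
    · rw [hm, Function.update_self]; exact hj0S
    · rw [Function.update_of_ne hm]; exact hi0S m
  -- coordinates of `y j0`
  have hyi0ne := orn_ne_zero hg (hyind i0 hi0 hi0S) fun i => (hyS _ (hi0S i)).2
  obtain ⟨σ, hσ⟩ := exists_coeff hg hyi0ne (fun i => (hyS _ (hi0S i)).2) (hyS _ hj0S).2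
  have hσsign : ∀ n, SignType.sign (ρ (i0 n)) = SignType.sign (σ n) := by
    intro n
    refine coord_sign (f1 := f) (f2 := g) (c1 := fun n => ρ (i0 n)) hwρ hσ ?_ hi0ne n ?_
    · rw [hright j1 hj1 i0 hi01, hag i0 fun j => (hSc _).mp (hi0S j)]
    · rw [hright j1 hj1 _ (hupd1 n), hag _ fun j => (hSc _).mp (hupdS n j)]
  -- states
  set St : (Fin (k + 2) → ℝ) → (ι → Fin (k + 2) → ℝ) → Prop := fun f' x' =>
    f' ≠ 0 ∧ (∀ s ∈ S, x' s ∈ C s ∧ f' ⬝ᵥ x' s = 0) ∧ (∀ n, 0 ≤ f' ⬝ᵥ y (i0 n)) ∧
    (∀ t : Fin (k + 1) → ι, (∀ j, t j ∈ S) →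
      SignType.sign (orn f' fun j => x' (t j)) = SignType.sign (orn f fun j => w (t j))) with hSt
  have hex : ∃ m, ∃ f' x', St f' x' ∧ (S.filter fun s => f' ⬝ᵥ y s ≠ 0).card = m :=
    ⟨_, f, w, ⟨hf, fun s _ => hw s, fun n => hpin _ (Finset.mem_of_mem_erase (hi0A n)) _
      (hyS _ (hi0S n)).1, fun _ _ => rfl⟩, rfl⟩
  obtain ⟨f1, x1, ⟨hf1, hx1, hf1y, hx1t⟩, hcard⟩ := Nat.find_spec hex
  have hmin := fun m (hm : m < Nat.find hex) => Nat.find_min hex hm
  rw [← hcard] at hmin
  by_cases hall : ∀ s ∈ S, f1 ⬝ᵥ y s = 0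
  · -- final state
    obtain ⟨κ, hκ⟩ := eq_smul_of_orth hg (hyind i0 hi0 hi0S) (fun i => (hyS _ (hi0S i)).2)
      (g := f1) (fun i => hall _ (hi0S i))
    have horn : ∀ t : Fin (k + 1) → ι, (∀ j, t j ∈ S) →
        SignType.sign (orn f fun j => w (t j)) =
          SignType.sign κ * SignType.sign (dt fun j => p (t j)) := by
      intro t ht
      rw [← hx1t t ht, orn_rep (B := (S : Set ι)) hC hsep hf1 (fun s hs => hx1 s hs)
        (fun s hs => ⟨(hyS s hs).1, hall s hs⟩) t ht]
      have h1 : (orn f1 fun j => y (t j)) = κ * orn g fun j => y (t j) := by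
        rw [hκ, orn_smul]
      rw [h1, sign_mul, hag t fun j => (hSc _).mp (ht j)]
    have h1 := horn i0 hi0S
    have h2 : SignType.sign (orn f fun j => w (i0 j)) = SignType.sign (dt fun j => p (i0 j)) :=
      hright j1 hj1 i0 hi01
    have h3 : SignType.sign (dt fun j => p (i0 j)) ≠ 0 := by
      rw [← h2]; exact sign_ne_zero.mpr hi0ne
    have h4 : SignType.sign κ = 1 := by
      rw [h2] at h1
      have : 1 * SignType.sign (dt fun j => p (i0 j)) =
        SignType.sign κ * SignType.sign (dt fun j => p (i0 j)) := by rw [one_mul]; exact h1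
      exact (mul_right_cancel₀ h3 this).symm
    obtain ⟨_, t, ht, htc⟩ := Finset.mem_filter.mp hcU
    have h5 := horn t fun j => (hSc _).mpr (htc j)
    rw [h4, one_mul] at h5
    exact ht.2 h5
  · push Not at hall
    -- normalise the representatives
    set x2 : ι → Fin (k + 2) → ℝ := fun s => if f1 ⬝ᵥ y s = 0 then y s else x1 s with hx2
    have hx2S : ∀ s ∈ S, x2 s ∈ C s ∧ f1 ⬝ᵥ x2 s = 0 := by
      intro s hs
      simp only [hx2]
      by_cases h0 : f1 ⬝ᵥ y s = 0
      · rw [if_pos h0]; exact ⟨(hyS s hs).1, h0⟩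
      · rw [if_neg h0]; exact hx1 s hs
    have hx2t : ∀ t : Fin (k + 1) → ι, (∀ j, t j ∈ S) →
        SignType.sign (orn f1 fun j => x2 (t j)) = SignType.sign (orn f fun j => w (t j)) := by
      intro t ht
      rw [← hx1t t ht]
      exact orn_rep (B := (S : Set ι)) hC hsep hf1 (fun s hs => hx2S s hs) (fun s hs => hx1 s hs)
        t ht
    have hx2ind : ∀ t : Fin (k + 1) → ι, Function.Injective t → (∀ j, t j ∈ S) →
        LinearIndependent ℝ (fun j => x2 (t j)) := fun t ht htS =>
      hsep t ht _ fun j => (hx2S _ (htS j)).1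
    -- the conformal functional
    obtain ⟨γ, E, hES, hEk, hγE, hγpos⟩ := exists_conformal (by omega) hg
      (fun s hs => (hyS s hs).2) hyind f1 hall
    obtain ⟨e, he, heE, hes⟩ := exists_enum hEk
    have hTinj : ∀ s, s ∉ E → Function.Injective (Fin.cons s e : Fin (k + 1) → ι) := by
      intro s hs
      rw [Fin.cons_injective_iff]
      refine ⟨?_, he⟩
      rintro ⟨i, hi⟩
      exact hs (hi ▸ heE i)
    have hTS : ∀ s ∈ S, ∀ j, (Fin.cons s e : Fin (k + 1) → ι) j ∈ S := by
      intro s hs j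
      refine Fin.cases ?_ (fun j' => ?_) j
      · simpa using hs
      · simpa using hES (heE j')
    obtain ⟨s0, hs0, hs0E⟩ : ∃ s ∈ S, s ∉ E := by
      by_contra hcon
      push Not at hcon
      have := Finset.card_le_card (show S ⊆ E from hcon)
      omega
    have hgY : ∀ i, g ⬝ᵥ y (e i) = 0 := fun i => (hyS _ (hES (heE i))).2
    have hindu : LinearIndependent ℝ
        (Fin.cons (y s0) (fun i => y (e i)) : Fin (k + 1) → Fin (k + 2) → ℝ) := by
      rw [← cons_apply]
      exact hyind _ (hTinj s0 hs0E) (hTS s0 hs0)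
    set κ : ℝ := γ ⬝ᵥ y s0 / orn g (Fin.cons (y s0) (fun i => y (e i))) with hκ
    have hγv : ∀ s ∈ S, γ ⬝ᵥ y s = κ * orn g (Fin.cons (y s) (fun i => y (e i))) := fun s hs =>
      eq_mul_orn hg (hyS s0 hs0).2 hgY hindu (fun i => hγE _ (heE i)) (hyS s hs).2
    obtain ⟨δ, hδ⟩ := exists_delta f1 (fun i => x2 (e i)) κ
    have hδE : ∀ s ∈ E, δ ⬝ᵥ x2 s = 0 := by
      intro s hs
      obtain ⟨i, hi⟩ := hes s hs
      have h1 : ¬ Function.Injective (Fin.cons s e : Fin (k + 1) → ι) := by
        rw [Fin.cons_injective_iff]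
        exact fun h => h.1 ⟨i, hi⟩
      have h2 := orn_eq_zero_of_not_injective (f := f1) (x := x2) h1
      rw [cons_apply] at h2
      rw [hδ, h2, mul_zero]
    -- signs of `δ` and `γ`
    have hsδ : ∀ s ∈ S, s ∉ E → SignType.sign (δ ⬝ᵥ x2 s) = SignType.sign κ *
        SignType.sign (orn f fun j => w ((Fin.cons s e : Fin (k + 1) → ι) j)) := by
      intro s hs hsE
      rw [hδ, sign_mul, ← cons_apply, hx2t _ (hTS s hs)]
    have hsγ : ∀ s ∈ S, s ∉ E → SignType.sign (γ ⬝ᵥ y s) = SignType.sign κ *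
        SignType.sign (dt fun j => p ((Fin.cons s e : Fin (k + 1) → ι) j)) := by
      intro s hs hsE
      rw [hγv s hs, sign_mul, ← cons_apply, hag _ fun j => (hSc _).mp (hTS s hs j)]
    have hright2 : ∀ s ∈ S, s ∉ E → ¬ Wr (Fin.cons s e : Fin (k + 1) → ι) →
        SignType.sign (δ ⬝ᵥ x2 s) = SignType.sign (γ ⬝ᵥ y s) := by
      intro s hs hsE hnw
      have h1 : SignType.sign (orn f fun j => w ((Fin.cons s e : Fin (k + 1) → ι) j)) =
          SignType.sign (dt fun j => p ((Fin.cons s e : Fin (k + 1) → ι) j)) := by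
        by_contra h; exact hnw (hnotinj _ h)
      rw [hsδ s hs hsE, hsγ s hs hsE, h1]
    have hwrong2 : ∀ s ∈ S, s ∉ E → Wr (Fin.cons s e : Fin (k + 1) → ι) →
        0 < γ ⬝ᵥ y s → δ ⬝ᵥ x2 s < 0 := by
      intro s hs hsE hw2 hpos
      have h1 := hsγ s hs hsE
      rw [sign_pos hpos] at h1
      have h2 := hsδ s hs hsE
      have h3 : SignType.sign (orn f fun j => w ((Fin.cons s e : Fin (k + 1) → ι) j)) ≠ 0 :=
        sign_ne_zero.mpr (orn_ne_zero hf (hwind _ hw2.1) fun i => (hw _).2)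
      have h4 := hw2.2
      rw [← sign_eq_neg_one_iff, h2]
      revert h1 h3 h4
      generalize SignType.sign κ = a
      generalize SignType.sign (orn f fun j => w ((Fin.cons s e : Fin (k + 1) → ι) j)) = b
      generalize SignType.sign (dt fun j => p ((Fin.cons s e : Fin (k + 1) → ι) j)) = d
      revert a b d
      decide
    -- coordinates of `x2 j0`
    have hxi0ne := orn_ne_zero hf1 (hx2ind i0 hi0 hi0S) fun i => (hx2S _ (hi0S i)).2
    obtain ⟨τ, hτ⟩ := exists_coeff hf1 hxi0ne (fun i => (hx2S _ (hi0S i)).2) (hx2S _ hj0S).2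
    have hτsign : ∀ n, SignType.sign (ρ (i0 n)) = SignType.sign (τ n) := by
      intro n
      refine coord_sign (f1 := f) (f2 := f1) (c1 := fun n => ρ (i0 n)) hwρ hτ ?_ hi0ne n ?_
      · rw [hx2t i0 hi0S]
      · rw [hx2t _ (hupdS n)]
    have hγj0 : γ ⬝ᵥ y j0 = ∑ n, σ n * (γ ⬝ᵥ y (i0 n)) := by
      conv_lhs => rw [hσ]
      rw [dotProduct_sum]
      simp only [dotProduct_smul, smul_eq_mul]
    have hδj0 : δ ⬝ᵥ x2 j0 = ∑ n, τ n * (δ ⬝ᵥ x2 (i0 n)) := by
      conv_lhs => rw [hτ]
      rw [dotProduct_sum]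
      simp only [dotProduct_smul, smul_eq_mul]
    have hγi : ∀ n, i0 n ∉ E → 0 < γ ⬝ᵥ y (i0 n) := by
      intro n hn
      have h1 := hγpos _ (hi0S n) hn
      have h2 := hf1y n
      by_contra h3
      push Not at h3
      have := mul_nonpos_of_nonpos_of_nonneg h3 h2
      linarith
    -- main claim
    have hclaim : ∀ s ∈ S, s ∉ E → ¬ Wr (Fin.cons s e : Fin (k + 1) → ι) := by
      intro s hs hsE hw2
      have hJin : ∀ j, j ∉ A → j = s ∨ j ∈ E := by
        intro j hj
        obtain ⟨i, hi⟩ := hW1 _ hw2 j hj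
        revert hi
        refine Fin.cases ?_ (fun i' => ?_) i
        · intro h; left; simpa using h.symm
        · intro h; right; rw [← h]; simpa using heE i'
      -- elements of `I` outside `E` and different from `s` are in `U`
      have hIU : ∀ n, i0 n ∉ E → i0 n ≠ s → i0 n ∈ U := by
        intro n hn hns
        refine hUmem _ hw2 _ (Finset.mem_of_mem_erase (hi0A n)) fun i => ?_
        refine Fin.cases ?_ (fun i' => ?_) i
        · simpa using hns.symm
        · intro h; exact hn (h ▸ by simpa using heE i')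
      have hσpos : ∀ n, i0 n ∉ E → i0 n ≠ s → 0 < σ n := by
        intro n hn hns
        have h1 := hρU _ (hIU n hn hns)
        have h2 := lt_of_le_of_ne h1 (hρne n).symm
        have h3 := hσsign n
        rw [sign_pos h2] at h3
        exact sign_eq_one_iff.mp h3.symm
      have hτpos : ∀ n, i0 n ∉ E → i0 n ≠ s → 0 < τ n := by
        intro n hn hns
        have h1 := hρU _ (hIU n hn hns)
        have h2 := lt_of_le_of_ne h1 (hρne n).symm
        have h3 := hτsign n
        rw [sign_pos h2] at h3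
        exact sign_eq_one_iff.mp h3.symm
      -- there is such an element
      obtain ⟨n1, hn1E, hn1s⟩ : ∃ n, i0 n ∉ E ∧ i0 n ≠ s := by
        by_contra hcon
        push Not at hcon
        have hsub : S ⊆ insert s E := by
          intro j hj
          by_cases hjA : j ∈ A
          · obtain ⟨n, hn⟩ := hi0s j (Finset.mem_erase.mpr ⟨(hSc j).mp hj, hjA⟩)
            by_cases hjE : j ∈ E
            · exact Finset.mem_insert_of_mem hjE
            · rw [← hn] at hjE ⊢
              rw [hcon n hjE]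
              exact Finset.mem_insert_self _ _
          · rcases hJin j hjA with h | h
            · rw [h]; exact Finset.mem_insert_self _ _
            · exact Finset.mem_insert_of_mem h
        have h1 := Finset.card_le_card hsub
        have h2 := Finset.card_insert_le s E
        omega
      by_cases hsA : s ∈ A
      · -- `s ∈ I`
        have hj0E : j0 ∈ E := by
          rcases hJin j0 hj0 with h | h
          · exact absurd (h ▸ hsA) hj0
          · exact h
        obtain ⟨n0, hn0⟩ := hi0s s (Finset.mem_erase.mpr ⟨(hSc s).mp hs, hsA⟩)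
        have h1 : γ ⬝ᵥ y j0 = 0 := hγE j0 hj0E
        have h2 : δ ⬝ᵥ x2 j0 = 0 := hδE j0 hj0E
        have hn0E : i0 n0 ∉ E := by rw [hn0]; exact hsE
        have hγs : 0 < γ ⬝ᵥ y s := by rw [← hn0]; exact hγi n0 hn0E
        -- `σ n0 < 0`
        have hσ0 : σ n0 < 0 := by
          by_contra hcon
          push Not at hcon
          have h3 : 0 < ∑ n, σ n * (γ ⬝ᵥ y (i0 n)) := by
            apply Finset.sum_pos' (fun n _ => ?_)
              ⟨n1, Finset.mem_univ _, mul_pos (hσpos n1 hn1E hn1s) (hγi n1 hn1E)⟩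
            by_cases hnE : i0 n ∈ E
            · rw [hγE _ hnE, mul_zero]
            · by_cases hns : i0 n = s
              · have : n = n0 := hi0 (hns.trans hn0.symm)
                rw [this]
                exact mul_nonneg hcon (hγi n0 hn0E).le
              · exact (mul_pos (hσpos n hnE hns) (hγi n hnE)).le
          rw [← hγj0, h1] at h3
          exact lt_irrefl _ h3
        have hρ0 : ρ (i0 n0) < 0 := by
          have h3 := hσsign n0
          rw [sign_neg hσ0] at h3
          exact sign_eq_neg_one_iff.mp h3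
        have hτ0 : τ n0 < 0 := by
          have h3 := hτsign n0
          rw [sign_neg hρ0] at h3
          exact sign_eq_neg_one_iff.mp h3.symm
        have hsU : s ∉ U := by
          intro h
          have := hρU s h
          rw [← hn0] at this
          linarith
        have hδi : ∀ n, i0 n ∉ E → i0 n ≠ s → 0 < δ ⬝ᵥ x2 (i0 n) := by
          intro n hnE hns
          have hnw : ¬ Wr (Fin.cons (i0 n) e : Fin (k + 1) → ι) := by
            intro hw3
            refine hsU (hUmem _ hw3 s hsA fun i => ?_)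
            refine Fin.cases ?_ (fun i' => ?_) i
            · simpa using hns
            · intro h; exact hsE (h ▸ by simpa using heE i')
          have h3 := hright2 _ (hi0S n) hnE hnw
          rw [sign_pos (hγi n hnE)] at h3
          exact sign_eq_one_iff.mp h3
        have hδs : δ ⬝ᵥ x2 s < 0 := hwrong2 s hs hsE hw2 hγs
        have h3 : 0 < ∑ n, τ n * (δ ⬝ᵥ x2 (i0 n)) := by
          apply Finset.sum_pos' (fun n _ => ?_)
            ⟨n1, Finset.mem_univ _, mul_pos (hτpos n1 hn1E hn1s) (hδi n1 hn1E hn1s)⟩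
          by_cases hnE : i0 n ∈ E
          · rw [hδE _ hnE, mul_zero]
          · by_cases hns : i0 n = s
            · have : n = n0 := hi0 (hns.trans hn0.symm)
              rw [this, hn0]
              exact (mul_pos_of_neg_of_neg hτ0 hδs).le
            · exact (mul_pos (hτpos n hnE hns) (hδi n hnE hns)).le
        rw [← hδj0, h2] at h3
        exact lt_irrefl _ h3
      · -- `s ∉ A`
        have hne : ∀ n, i0 n ≠ s := fun n h => hsA (h ▸ Finset.mem_of_mem_erase (hi0A n))
        have h3 : 0 < γ ⬝ᵥ y j0 := by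
          rw [hγj0]
          apply Finset.sum_pos' (fun n _ => ?_)
            ⟨n1, Finset.mem_univ _, mul_pos (hσpos n1 hn1E hn1s) (hγi n1 hn1E)⟩
          by_cases hnE : i0 n ∈ E
          · rw [hγE _ hnE, mul_zero]
          · exact (mul_pos (hσpos n hnE (hne n)) (hγi n hnE)).le
        have hj0E : j0 ∉ E := fun h => by rw [hγE j0 h] at h3; exact lt_irrefl _ h3
        have hj0s : j0 = s := (hJin j0 hj0).resolve_right hj0E
        have hδi : ∀ n, i0 n ∉ E → 0 < δ ⬝ᵥ x2 (i0 n) := by
          intro n hnE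
          have hnw : ¬ Wr (Fin.cons (i0 n) e : Fin (k + 1) → ι) := by
            intro hw3
            obtain ⟨i, hi⟩ := hW1 _ hw3 j0 hj0
            revert hi
            refine Fin.cases ?_ (fun i' => ?_) i
            · intro h; exact hne n (by simpa [hj0s] using h)
            · intro h; exact hj0E (h ▸ by simpa using heE i')
          have h4 := hright2 _ (hi0S n) hnE hnw
          rw [sign_pos (hγi n hnE)] at h4
          exact sign_eq_one_iff.mp h4
        have h5 : 0 < δ ⬝ᵥ x2 j0 := by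
          rw [hδj0]
          apply Finset.sum_pos' (fun n _ => ?_)
            ⟨n1, Finset.mem_univ _, mul_pos (hτpos n1 hn1E hn1s) (hδi n1 hn1E)⟩
          by_cases hnE : i0 n ∈ E
          · rw [hδE _ hnE, mul_zero]
          · exact (mul_pos (hτpos n hnE (hne n)) (hδi n hnE)).le
        have h6 := hwrong2 s hs hsE hw2 (hj0s ▸ h3)
        rw [← hj0s] at h6
        linarith
    -- move
    have hδy : ∀ s ∈ S, f1 ⬝ᵥ y s = 0 → δ ⬝ᵥ y s = 0 := by
      intro s hs h0
      have hsE : s ∈ E := by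
        by_contra hsE
        have := hγpos s hs hsE
        rw [h0, mul_zero] at this
        exact lt_irrefl _ this
      have h1 := hδE s hsE
      simp only [hx2, if_pos h0] at h1
      exact h1
    have hδpos : ∀ s ∈ S, s ∉ E → 0 < (δ ⬝ᵥ x2 s) * (f1 ⬝ᵥ y s) := by
      intro s hs hsE
      have h1 := hγpos s hs hsE
      have h2 := hright2 s hs hsE (hclaim s hs hsE)
      have h3 : SignType.sign ((δ ⬝ᵥ x2 s) * (f1 ⬝ᵥ y s)) = 1 := by
        rw [sign_mul, h2, ← sign_mul, sign_pos h1]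
      exact sign_eq_one_iff.mp h3
    obtain ⟨f', x', hf', hx', hx't, hyge, hyz, s3, hs3, hs3a, hs3b⟩ := move_step hC hsep hx2S
      (fun s hs => (hyS s hs).1) δ hδy
      (fun s hs => by
        by_cases hsE : s ∈ E
        · rw [hδE s hsE, zero_mul]
        · exact (hδpos s hs hsE).le)
      ⟨s0, hs0, fun h => by
          have := hδpos s0 hs0 hs0E
          rw [h, mul_zero] at this
          exact lt_irrefl _ this,
        fun h => by
          have := hδpos s0 hs0 hs0E
          rw [h, zero_mul] at this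
          exact lt_irrefl _ this⟩
    refine hmin _ ?_ ⟨f', x', ⟨hf', hx', fun n => ?_, fun t ht => ?_⟩, rfl⟩
    · apply Finset.card_lt_card
      rw [Finset.ssubset_iff_of_subset]
      · refine ⟨s3, Finset.mem_filter.mpr ⟨hs3, hs3a⟩, ?_⟩
        rw [Finset.mem_filter, not_and, not_not]
        exact fun _ => hs3b
      · intro s hs
        rw [Finset.mem_filter] at hs ⊢
        exact ⟨hs.1, fun h0 => hs.2 (hyz s hs.1 h0)⟩
    · rcases (hf1y n).eq_or_lt with h | h
      · rw [hyz _ (hi0S n) h.symm]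
      · exact nonneg_of_mul_nonneg_left (hyge _ (hi0S n)) h
    · rw [hx't t ht, hx2t t ht]

end Pool.Agent.HT
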