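import Mathlib
import Pool.Agent.HT.Basic

/-!
# The shrinking argument
-/

namespace Pool.Agent.HT

open scoped Matrix

namespace Shr

variable {k m : ℕ} {ι : Type}

/-- homogeneous coordinates of a point -/
def hat (x : Fin m → ℝ) : Fin (m + 1) → ℝ := Fin.cons 1 x

theorem hat_zero (x : Fin m → ℝ) : hat x 0 = 1 := rfl

theorem hat_succ (x : Fin m → ℝ) (i : Fin m) : hat x i.succ = x i := by
  simp [hat]

theorem hat_mem {a : Set (Fin m → ℝ)} {x : Fin m → ℝ} : hat x ∈ cone a ↔ x ∈ a := by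
  simp [cone, hat]

theorem mem_cone_iff {a : Set (Fin m → ℝ)} {v : Fin (m + 1) → ℝ} :
    v ∈ cone a ↔ ∃ c : ℝ, 0 < c ∧ ∃ x ∈ a, v = c • hat x := by
  constructor
  · rintro ⟨h0, h⟩
    refine ⟨v 0, h0, _, h, ?_⟩
    funext i
    refine Fin.cases ?_ (fun i => ?_) i
    · simp [hat]
    · simp only [Pi.smul_apply, hat_succ, smul_eq_mul]
      field_simp
  · rintro ⟨c, hc, x, hx, rfl⟩
    refine ⟨by simpa [hat] using hc, ?_⟩
    have : (fun i : Fin m => (c • hat x) i.succ / (c • hat x) 0) = x := by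
      funext i
      simp only [Pi.smul_apply, hat_succ, hat_zero, smul_eq_mul]
      field_simp
    rw [this]
    exact hx

theorem smul_mem_cone {a : Set (Fin m → ℝ)} {v : Fin (m + 1) → ℝ} (hv : v ∈ cone a) {c : ℝ}
    (hc : 0 < c) : c • v ∈ cone a := by
  rw [mem_cone_iff] at hv ⊢
  obtain ⟨d, hd, x, hx, rfl⟩ := hv
  exact ⟨c * d, mul_pos hc hd, x, hx, by rw [smul_smul]⟩

theorem isCone_cone {a : Set (Fin m → ℝ)} (ha : Convex ℝ a) : IsCone (cone a) := by
  refine ⟨fun v hv c hc => smul_mem_cone hv hc, ?_⟩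
  intro v hv w hw
  rw [mem_cone_iff] at hv hw ⊢
  obtain ⟨c, hc, x, hx, rfl⟩ := hv
  obtain ⟨d, hd, y, hy, rfl⟩ := hw
  have hcd : 0 < c + d := by positivity
  refine ⟨c + d, hcd, (c / (c + d)) • x + (d / (c + d)) • y,
    ha hx hy (by positivity) (by positivity) (by field_simp), ?_⟩
  funext i
  refine Fin.cases ?_ (fun i => ?_) i
  · simp [hat]
  · simp only [Pi.smul_apply, Pi.add_apply, hat_succ, smul_eq_mul]
    field_simp

theorem cone_mono {a b : Set (Fin m → ℝ)} (h : a ⊆ b) : cone a ⊆ cone b :=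
  fun _ hv => ⟨hv.1, h hv.2⟩

theorem LSep.mono' {C D : ι → Set (Fin (k + 2) → ℝ)} (h : LSep C) (hD : ∀ s, D s ⊆ C s) :
    LSep D := fun t ht x hx => h t ht x fun j => hD _ (hx j)

theorem dot_hat (f : Fin (m + 1) → ℝ) (x : Fin m → ℝ) :
    f ⬝ᵥ hat x = f 0 + ∑ i, f i.succ * x i := by
  simp [dotProduct, Fin.sum_univ_succ, hat]

theorem dot_hat_comb (f : Fin (m + 1) → ℝ) (x y : Fin m → ℝ) (a b : ℝ) (hab : a + b = 1) :
    f ⬝ᵥ hat (a • x + b • y) = a * (f ⬝ᵥ hat x) + b * (f ⬝ᵥ hat y) := by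
  rw [dot_hat, dot_hat, dot_hat]
  simp only [Pi.add_apply, Pi.smul_apply, smul_eq_mul, mul_add, Finset.sum_add_distrib]
  have h1 : ∑ i, f i.succ * (a * x i) = a * ∑ i, f i.succ * x i := by
    rw [Finset.mul_sum]; exact Finset.sum_congr rfl fun i _ => by ring
  have h2 : ∑ i, f i.succ * (b * y i) = b * ∑ i, f i.succ * y i := by
    rw [Finset.mul_sum]; exact Finset.sum_congr rfl fun i _ => by ring
  rw [h1, h2]
  have : f 0 = (a + b) * f 0 := by rw [hab, one_mul]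
  linear_combination this

/-! ### signs of determinants -/

theorem orn_smul_right (f : Fin (k + 2) → ℝ) (X : Fin (k + 1) → Fin (k + 2) → ℝ)
    (c : Fin (k + 1) → ℝ) : orn f (fun j => c j • X j) = (∏ j, c j) * orn f X := by
  have h : (Matrix.of (Fin.cons f fun j => c j • X j : Fin (k + 2) → Fin (k + 2) → ℝ)) =
      Matrix.of fun i j => (Fin.cons 1 c : Fin (k + 2) → ℝ) i *
        (Matrix.of (Fin.cons f X : Fin (k + 2) → Fin (k + 2) → ℝ)) i j := by
    ext i j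
    refine Fin.cases ?_ (fun i => ?_) i
    · simp
    · simp
  rw [orn, h, Matrix.det_mul_column, Fin.prod_univ_succ]
  simp [orn]

theorem orn_smul_left (f : Fin (k + 2) → ℝ) (X : Fin (k + 1) → Fin (k + 2) → ℝ)
    (c : ℝ) : orn (c • f) X = c * orn f X := by
  have h : (Matrix.of (Fin.cons (c • f) X : Fin (k + 2) → Fin (k + 2) → ℝ)) =
      Matrix.of fun i j => (Fin.cons c (fun _ => 1) : Fin (k + 2) → ℝ) i *
        (Matrix.of (Fin.cons f X : Fin (k + 2) → Fin (k + 2) → ℝ)) i j := by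
    ext i j
    refine Fin.cases ?_ (fun i => ?_) i
    · simp
    · simp
  rw [orn, h, Matrix.det_mul_column, Fin.prod_univ_succ]
  simp [orn]

theorem dt_smul (X : Fin m → Fin m → ℝ) (c : Fin m → ℝ) :
    dt (fun j => c j • X j) = (∏ j, c j) * dt X := by
  have h : (Matrix.of fun j => c j • X j) =
      Matrix.of fun i j => c i * (Matrix.of X) i j := by
    ext i j
    simp
  rw [dt, h, Matrix.det_mul_column]
  rfl

theorem orn_eq_zero_of_not_inj (f : Fin (k + 2) → ℝ) (x : ι → Fin (k + 2) → ℝ)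
    {t : Fin (k + 1) → ι} (ht : ¬ Function.Injective t) : orn f (fun j => x (t j)) = 0 := by
  rw [Function.not_injective_iff] at ht
  obtain ⟨i, j, hij, hne⟩ := ht
  refine Matrix.det_zero_of_row_eq (i := i.succ) (j := j.succ)
    (fun h => hne (Fin.succ_injective _ h)) ?_
  funext l
  simp [hij]

theorem dt_eq_zero_of_not_inj (p : ι → Fin m → ℝ)
    {t : Fin m → ι} (ht : ¬ Function.Injective t) : dt (fun j => p (t j)) = 0 := by
  rw [Function.not_injective_iff] at ht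
  obtain ⟨i, j, hij, hne⟩ := ht
  refine Matrix.det_zero_of_row_eq (i := i) (j := j) hne ?_
  funext l
  simp [hij]

theorem sign_eq_of_mul_nonneg {a b : ℝ} (ha : a ≠ 0) (hb : b ≠ 0) (h : 0 ≤ a * b) :
    SignType.sign a = SignType.sign b := by
  rcases lt_or_gt_of_ne ha with ha' | ha' <;> rcases lt_or_gt_of_ne hb with hb' | hb'
  · rw [sign_neg ha', sign_neg hb']
  · nlinarith [mul_neg_of_neg_of_pos ha' hb']
  · nlinarith [mul_neg_of_pos_of_neg ha' hb']
  · rw [sign_pos ha', sign_pos hb']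

theorem mul_nonneg_of_sign_eq {a b : ℝ} (h : SignType.sign a = SignType.sign b) : 0 ≤ a * b := by
  rcases lt_trichotomy a 0 with ha | ha | ha
  · rw [sign_neg ha] at h
    have hb : b < 0 := sign_eq_neg_one_iff.1 h.symm
    nlinarith [mul_pos_of_neg_of_neg ha hb]
  · simp [ha]
  · rw [sign_pos ha] at h
    have hb : 0 < b := sign_eq_one_iff.1 h.symm
    positivity

theorem sign_ne_zero_iff {a : ℝ} : SignType.sign a ≠ 0 ↔ a ≠ 0 := by
  rw [Ne, sign_eq_zero_iff]

/-- the orientation of an injective tuple does not vanish -/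
theorem orn_ne {C : ι → Set (Fin (k + 2) → ℝ)} (hsep : LSep C) {f : Fin (k + 2) → ℝ}
    (hf : f ≠ 0) {x : ι → Fin (k + 2) → ℝ} {B : Set ι} (hx : ∀ s ∈ B, x s ∈ C s ∧ f ⬝ᵥ x s = 0)
    {t : Fin (k + 1) → ι} (ht : Function.Injective t) (htB : ∀ j, t j ∈ B) :
    orn f (fun j => x (t j)) ≠ 0 :=
  orn_ne_zero hf (hsep t ht _ fun j => (hx _ (htB j)).1) fun j => (hx _ (htB j)).2

/-- Two functionals vanishing on the same independent vectors are proportional. -/
theorem exists_smul {f g : Fin (k + 2) → ℝ} (hf : f ≠ 0) {X : Fin (k + 1) → Fin (k + 2) → ℝ}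
    (h0 : orn f X ≠ 0) (hfX : ∀ i, f ⬝ᵥ X i = 0) (hgX : ∀ i, g ⬝ᵥ X i = 0) :
    ∃ c : ℝ, g = c • f := by
  have hff : f ⬝ᵥ f ≠ 0 := by
    rw [Ne, dotProduct_self_eq_zero]
    exact hf
  have hker : ∀ v, f ⬝ᵥ v = 0 → g ⬝ᵥ v = 0 := by
    intro v hv
    obtain ⟨c, rfl⟩ := exists_coeff hf h0 hfX hv
    rw [dotProduct_sum]
    refine Finset.sum_eq_zero fun i _ => ?_
    rw [dotProduct_smul, hgX, smul_zero]
  refine ⟨(g ⬝ᵥ f) / (f ⬝ᵥ f), ?_⟩
  set c := (g ⬝ᵥ f) / (f ⬝ᵥ f) with hc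
  have h1 : f ⬝ᵥ (g - c • f) = 0 := by
    rw [dotProduct_sub, dotProduct_smul, smul_eq_mul, hc, div_mul_cancel₀ _ hff,
      dotProduct_comm f g, sub_self]
  have h2 : g ⬝ᵥ (g - c • f) = 0 := hker _ h1
  have h3 : (g - c • f) ⬝ᵥ (g - c • f) = 0 := by
    rw [sub_dotProduct, smul_dotProduct, h1, h2, smul_zero, sub_zero]
  rw [dotProduct_self_eq_zero] at h3
  exact sub_eq_zero.1 h3

end Shr

end Pool.Agent.HT
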