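import Mathlib
import Pool.Agent.HT.Shrink1

/-!
# The shrinking argument: consistency in terms of points, and the shrunken sets
-/

namespace Pool.Agent.HT

open scoped Matrix

namespace Shr

variable {k m : ℕ} {ι : Type}

theorem Agree.mono {f : Fin (k + 2) → ℝ} {x : ι → Fin (k + 2) → ℝ} {p : ι → Fin (k + 1) → ℝ}
    {B B' : Set ι} (h : Agree f x p B) (hB : B' ⊆ B) : Agree f x p B' :=
  fun t ht => h t fun j => hB (ht j)

theorem Agree.rep {C : ι → Set (Fin (k + 2) → ℝ)} (hC : ∀ s, IsCone (C s)) (hsep : LSep C)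
    {f : Fin (k + 2) → ℝ} (hf : f ≠ 0) {x y : ι → Fin (k + 2) → ℝ} {p : ι → Fin (k + 1) → ℝ}
    {B : Set ι} (hx : ∀ s ∈ B, x s ∈ C s ∧ f ⬝ᵥ x s = 0)
    (hy : ∀ s ∈ B, y s ∈ C s ∧ f ⬝ᵥ y s = 0) (h : Agree f x p B) : Agree f y p B := by
  intro t ht
  rw [← orn_rep hC hsep hf hx hy t ht, h t ht]

theorem Agree.smul_pos {f : Fin (k + 2) → ℝ} {x : ι → Fin (k + 2) → ℝ}
    {p : ι → Fin (k + 1) → ℝ} {B : Set ι} {c : ℝ} (hc : 0 < c)
    (h : Agree (c • f) x p B) : Agree f x p B := by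
  intro t ht
  rw [← h t ht, orn_smul_left, sign_mul, sign_pos hc, one_mul]

/-- sign changes -/
theorem Agree.sgn {f : Fin (k + 2) → ℝ} {x : ι → Fin (k + 2) → ℝ}
    {p : ι → Fin (k + 1) → ℝ} {B : Set ι} (e : ι → ℝ)
    (h : Agree f x p B) : Agree f (fun s => e s • x s) (fun s => e s • p s) B := by
  intro t ht
  rw [orn_smul_right f (fun j => x (t j)) fun j => e (t j),
    dt_smul (fun j => p (t j)) fun j => e (t j), sign_mul, sign_mul, h t ht]

/-- agreement by weak inequalities -/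
theorem agree_of_nonneg {C : ι → Set (Fin (k + 2) → ℝ)} (hsep : LSep C)
    {f : Fin (k + 2) → ℝ} (hf : f ≠ 0) {x : ι → Fin (k + 2) → ℝ} {p : ι → Fin (k + 1) → ℝ}
    (hp : ∀ t : Fin (k + 1) → ι, Function.Injective t → dt (fun j => p (t j)) ≠ 0)
    {B : Set ι} (hx : ∀ s ∈ B, x s ∈ C s ∧ f ⬝ᵥ x s = 0)
    (h : ∀ t : Fin (k + 1) → ι, (∀ j, t j ∈ B) →
      0 ≤ orn f (fun j => x (t j)) * dt fun j => p (t j)) : Agree f x p B := by
  intro t ht
  by_cases hinj : Function.Injective t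
  · exact sign_eq_of_mul_nonneg (orn_ne hsep hf hx hinj ht) (hp t hinj) (h t ht)
  · rw [orn_eq_zero_of_not_inj f x hinj, dt_eq_zero_of_not_inj p hinj]

theorem nonneg_of_agree {f : Fin (k + 2) → ℝ} {x : ι → Fin (k + 2) → ℝ}
    {p : ι → Fin (k + 1) → ℝ} {B : Set ι} (h : Agree f x p B) (t : Fin (k + 1) → ι)
    (ht : ∀ j, t j ∈ B) : 0 ≤ orn f (fun j => x (t j)) * dt fun j => p (t j) :=
  mul_nonneg_of_sign_eq (h t ht)

/-- A consistent transversal may be given by points of the sets. -/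
theorem exists_points {a : ι → Set (Fin (k + 1) → ℝ)} (hne : ∀ s, (a s).Nonempty)
    {p : ι → Fin (k + 1) → ℝ} {B : Set ι} (h : LCons (fun s => cone (a s)) p B) :
    ∃ (f : Fin (k + 2) → ℝ) (y : ι → Fin (k + 1) → ℝ), f ≠ 0 ∧ (∀ s, y s ∈ a s) ∧
      (∀ s ∈ B, f ⬝ᵥ hat (y s) = 0) ∧ Agree f (fun s => hat (y s)) p B := by
  classical
  obtain ⟨f, x, hf, hx, hag⟩ := h
  have hx' : ∀ s ∈ B, ∃ c : ℝ, 0 < c ∧ ∃ z ∈ a s, x s = c • hat z := fun s hs =>
    mem_cone_iff.1 (hx s hs).1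
  choose! c hc z hz hxz using hx'
  refine ⟨f, fun s => if s ∈ B then z s else (hne s).some, hf, ?_, ?_, ?_⟩
  · intro s
    by_cases hs : s ∈ B
    · simp only [hs, if_true]; exact hz s hs
    · simp only [hs, if_false]; exact (hne s).some_mem
  · intro s hs
    simp only [hs, if_true]
    have h1 := (hx s hs).2
    rw [hxz s hs, dotProduct_smul, smul_eq_mul] at h1
    exact (mul_eq_zero.1 h1).resolve_left (hc s hs).ne'
  · intro t ht
    rw [← hag t ht]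
    have h2 : (fun j => x (t j)) = fun j => c (t j) • hat (z (t j)) := by
      funext j
      exact hxz _ (ht j)
    have h3 : (fun j => hat (if t j ∈ B then z (t j) else (hne (t j)).some)) =
        fun j => hat (z (t j)) := by
      funext j
      rw [if_pos (ht j)]
    rw [h2, h3, orn_smul_right, sign_mul, sign_pos (Finset.prod_pos fun j _ => hc _ (ht j)),
      one_mul]

theorem lcons_of_points {a : ι → Set (Fin (k + 1) → ℝ)} {p : ι → Fin (k + 1) → ℝ} {B : Set ι}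
    {f : Fin (k + 2) → ℝ} {y : ι → Fin (k + 1) → ℝ} (hf : f ≠ 0) (hy : ∀ s ∈ B, y s ∈ a s)
    (h0 : ∀ s ∈ B, f ⬝ᵥ hat (y s) = 0) (hag : Agree f (fun s => hat (y s)) p B) :
    LCons (fun s => cone (a s)) p B :=
  ⟨f, fun s => hat (y s), hf, fun s hs => ⟨hat_mem.2 (hy s hs), h0 s hs⟩, hag⟩

theorem LCons.mono' {C D : ι → Set (Fin (k + 2) → ℝ)} {p : ι → Fin (k + 1) → ℝ} {B : Set ι}
    (h : LCons C p B) (hCD : ∀ s, C s ⊆ D s) : LCons D p B := by
  obtain ⟨f, x, hf, hx, hag⟩ := h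
  exact ⟨f, x, hf, fun s hs => ⟨hCD s (hx s hs).1, (hx s hs).2⟩, hag⟩

/-! ### the shrunken sets -/

/-- the homothety with centre `o` and ratio `1 - τ` -/
def shr (o : Fin m → ℝ) (τ : ℝ) (y : Fin m → ℝ) : Fin m → ℝ := τ • o + (1 - τ) • y

/-- the shrunken sets -/
def sh (a : ι → Set (Fin m → ℝ)) (o : ι → Fin m → ℝ) (τ : ℝ) (s : ι) : Set (Fin m → ℝ) :=
  shr (o s) τ '' a s

variable {a : ι → Set (Fin m → ℝ)} {o : ι → Fin m → ℝ}

theorem o_mem_sh (ho : ∀ s, o s ∈ a s) (τ : ℝ) (s : ι) : o s ∈ sh a o τ s := by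
  refine ⟨o s, ho s, ?_⟩
  rw [shr, ← add_smul]
  simp

theorem sh_zero (s : ι) : sh a o 0 s = a s := by
  have h : shr (o s) 0 = id := by
    funext y
    simp [shr]
  rw [sh, h, Set.image_id]

theorem sh_one_subset (s : ι) : sh a o 1 s ⊆ {o s} := by
  rintro _ ⟨y, _, rfl⟩
  simp [shr]

theorem sh_convex (hconv : ∀ s, Convex ℝ (a s)) (τ : ℝ) (s : ι) : Convex ℝ (sh a o τ s) := by
  rintro _ ⟨x, hx, rfl⟩ _ ⟨y, hy, rfl⟩ b c hb hc hbc
  refine ⟨b • x + c • y, hconv s hx hy hb hc hbc, ?_⟩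
  funext i
  simp only [shr, Pi.add_apply, Pi.smul_apply, smul_eq_mul]
  linear_combination (-(τ * o s i)) * hbc

theorem sh_anti (hconv : ∀ s, Convex ℝ (a s)) (ho : ∀ s, o s ∈ a s) {τ τ' : ℝ}
    (h : τ ≤ τ') (h1 : τ' ≤ 1) (s : ι) : sh a o τ' s ⊆ sh a o τ s := by
  rintro _ ⟨y, hy, rfl⟩
  rcases eq_or_lt_of_le (h.trans h1) with h2 | h2
  · have h3 : τ' = τ := le_antisymm (by linarith) h
    rw [h3]
    exact ⟨y, hy, rfl⟩
  · have h3 : 0 < 1 - τ := by linarith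
    refine ⟨((τ' - τ) / (1 - τ)) • o s + ((1 - τ') / (1 - τ)) • y,
      hconv s (ho s) hy (div_nonneg (by linarith) h3.le) (div_nonneg (by linarith) h3.le)
        (by field_simp; ring), ?_⟩
    funext i
    simp only [shr, Pi.add_apply, Pi.smul_apply, smul_eq_mul]
    field_simp
    ring

theorem sh_subset (hconv : ∀ s, Convex ℝ (a s)) (ho : ∀ s, o s ∈ a s) {τ : ℝ} (h0 : 0 ≤ τ)
    (h1 : τ ≤ 1) (s : ι) : sh a o τ s ⊆ a s := by
  have := sh_anti hconv ho h0 h1 s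
  rwa [sh_zero] at this

end Shr

end Pool.Agent.HT
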