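import Mathlib
import Pool.Agent.HT.Shrink2

/-!
# The shrinking argument: closedness and the final case
-/

namespace Pool.Agent.HT

open scoped Matrix

namespace Shr

variable {k m : ℕ} {ι : Type}

theorem continuous_orn {α : Type*} [TopologicalSpace α] {F : α → Fin (k + 2) → ℝ}
    {X : α → Fin (k + 1) → Fin (k + 2) → ℝ} (hF : Continuous F)
    (hX : ∀ j, Continuous fun q => X q j) : Continuous fun q => orn (F q) (X q) := by
  unfold orn
  refine Continuous.matrix_det ?_
  refine continuous_pi fun i => ?_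
  refine Fin.cases ?_ (fun i => ?_) i
  · exact hF
  · exact hX i

theorem continuous_hat : Continuous (hat : (Fin m → ℝ) → Fin (m + 1) → ℝ) := by
  refine continuous_pi fun i => ?_
  refine Fin.cases ?_ (fun i => ?_) i
  · simp only [hat_zero]
    exact continuous_const
  · simp only [hat_succ]
    exact continuous_apply i

theorem continuous_shr {α : Type*} [TopologicalSpace α] (o : Fin m → ℝ) {τ : α → ℝ}
    {y : α → Fin m → ℝ} (hτ : Continuous τ) (hy : Continuous y) :
    Continuous fun q => shr o (τ q) (y q) := by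
  unfold shr
  fun_prop

theorem continuous_dot {α : Type*} [TopologicalSpace α] {F G : α → Fin m → ℝ}
    (hF : Continuous F) (hG : Continuous G) : Continuous fun q => F q ⬝ᵥ G q := by
  unfold dotProduct
  fun_prop

variable {a : ι → Set (Fin (k + 1) → ℝ)} {o : ι → Fin (k + 1) → ℝ} {p : ι → Fin (k + 1) → ℝ}

theorem isCompact_omega [Finite ι] (hconv : ∀ s, Convex ℝ (a s)) (hcomp : ∀ s, IsCompact (a s))
    (hsep : LSep fun s => cone (a s)) (ho : ∀ s, o s ∈ a s)
    (hp : ∀ t : Fin (k + 1) → ι, Function.Injective t → dt (fun j => p (t j)) ≠ 0) (B : Set ι) :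
    IsCompact {τ : ℝ | τ ∈ Set.Icc (0 : ℝ) 1 ∧ LCons (fun t => cone (sh a o τ t)) p B} := by
  let K : Set (ℝ × (Fin (k + 2) → ℝ) × (ι → Fin (k + 1) → ℝ)) :=
    (Set.Icc (0 : ℝ) 1 ×ˢ (Metric.sphere (0 : Fin (k + 2) → ℝ) 1 ×ˢ Set.pi Set.univ a)) ∩
      ({q | ∀ s ∈ B, q.2.1 ⬝ᵥ hat (shr (o s) q.1 (q.2.2 s)) = 0} ∩
        {q | ∀ t : Fin (k + 1) → ι, (∀ j, t j ∈ B) →
          0 ≤ orn q.2.1 (fun j => hat (shr (o (t j)) q.1 (q.2.2 (t j)))) *
            dt fun j => p (t j)})
  have hcont : ∀ s, Continuous fun q : ℝ × (Fin (k + 2) → ℝ) × (ι → Fin (k + 1) → ℝ) =>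
      hat (shr (o s) q.1 (q.2.2 s)) := fun s =>
    continuous_hat.comp (continuous_shr (o s) continuous_fst (by fun_prop))
  have hK : IsCompact K := by
    refine IsCompact.inter_right ?_ (IsClosed.inter ?_ ?_)
    · exact isCompact_Icc.prod ((isCompact_sphere _ _).prod
        (isCompact_univ_pi fun s => hcomp s))
    · simp only [Set.ofPred_forall]
      refine isClosed_biInter fun s _ => isClosed_eq ?_ continuous_const
      exact continuous_dot (by fun_prop) (hcont s)
    · simp only [Set.ofPred_forall]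
      refine isClosed_iInter fun t => isClosed_iInter fun _ => isClosed_le continuous_const ?_
      refine Continuous.mul ?_ continuous_const
      exact continuous_orn (by fun_prop) fun j => hcont (t j)
  have hEq : {τ : ℝ | τ ∈ Set.Icc (0 : ℝ) 1 ∧ LCons (fun t => cone (sh a o τ t)) p B} =
      Prod.fst '' K := by
    ext τ
    constructor
    · rintro ⟨hτ, h⟩
      obtain ⟨f, y, hf, hy, hfy, hag⟩ := exists_points (fun s => ⟨o s, o_mem_sh ho τ s⟩) h
      choose z hz hzy using hy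
      have hn : 0 < ‖f‖ := norm_pos_iff.2 hf
      refine ⟨(τ, ‖f‖⁻¹ • f, z), ⟨⟨hτ, ?_, fun s _ => hz s⟩, ?_, ?_⟩, rfl⟩
      · simp only [mem_sphere_iff_norm, sub_zero]
        rw [norm_smul, norm_inv, norm_norm]
        exact inv_mul_cancel₀ hn.ne'
      · intro s hs
        simp only
        rw [hzy, smul_dotProduct, hfy s hs, smul_zero]
      · intro t ht
        simp only [hzy]
        rw [orn_smul_left, mul_assoc]
        exact mul_nonneg (inv_nonneg.2 hn.le) (nonneg_of_agree hag t ht)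
    · rintro ⟨⟨τ', f, z⟩, ⟨⟨hτ, hf, hz⟩, h1, h2⟩, rfl⟩
      refine ⟨hτ, ?_⟩
      have hf0 : f ≠ 0 := by
        rintro rfl
        simp at hf
      have hmem : ∀ s, shr (o s) τ' (z s) ∈ sh a o τ' s := fun s =>
        ⟨z s, hz s (Set.mem_univ s), rfl⟩
      refine lcons_of_points hf0 (y := fun s => shr (o s) τ' (z s)) (fun s _ => hmem s) h1 ?_
      refine agree_of_nonneg (C := fun s => cone (a s)) hsep hf0 hp (fun s hs => ⟨?_, h1 s hs⟩) h2
      exact hat_mem.2 (sh_subset hconv ho hτ.1 hτ.2 s (hmem s))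
  rw [hEq]
  exact hK.image continuous_fst

theorem LCons.anti (hconv : ∀ s, Convex ℝ (a s)) (ho : ∀ s, o s ∈ a s) {B : Set ι} {τ τ' : ℝ}
    (h : τ ≤ τ') (h1 : τ' ≤ 1) (hL : LCons (fun t => cone (sh a o τ' t)) p B) :
    LCons (fun t => cone (sh a o τ t)) p B :=
  LCons.mono' hL fun s => cone_mono (sh_anti hconv ho h h1 s)

/-- The vectors `p` are in general position. -/
theorem dt_ne [Fintype ι] (hsep : LSep fun s => cone (a s)) (hcard : k + 2 ≤ Fintype.card ι)
    (hcons : ∀ s, LCons (fun s => cone (a s)) p {s}ᶜ)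
    (t : Fin (k + 1) → ι) (ht : Function.Injective t) : dt (fun j => p (t j)) ≠ 0 := by
  have h1 : ¬ Function.Surjective t := by
    intro h
    have := Fintype.card_le_of_surjective t h
    simp only [Fintype.card_fin] at this
    omega
  rw [Function.Surjective] at h1
  push Not at h1
  obtain ⟨s, hs⟩ := h1
  obtain ⟨f, x, hf, hx, hag⟩ := hcons s
  have htB : ∀ j, t j ∈ ({s}ᶜ : Set ι) := fun j h => hs j h
  have h2 := orn_ne hsep hf hx ht htB
  have h3 := hag t htB
  rw [← sign_ne_zero_iff] at h2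
  rw [← sign_ne_zero_iff, ← h3]
  exact h2

/-- tuples avoiding a small set -/
theorem exists_tuple [Fintype ι] [DecidableEq ι] (S : Finset ι) {N : ℕ}
    (h : S.card + N ≤ Fintype.card ι) : ∃ t : Fin N → ι, Function.Injective t ∧ ∀ j, t j ∉ S := by
  have h1 : N ≤ (Sᶜ).card := by
    rw [Finset.card_compl]
    omega
  obtain ⟨T, hT, hTN⟩ := Finset.exists_subset_card_eq h1
  let e := T.equivFinOfCardEq hTN
  refine ⟨fun j => (e.symm j : ι), Subtype.val_injective.comp e.symm.injective, fun j => ?_⟩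
  have := hT (e.symm j).2
  rwa [Finset.mem_compl] at this

/-- the case where all sets have shrunk to points -/
theorem lcons_one [Fintype ι] [DecidableEq ι]
    (hsep : LSep fun s => cone (a s)) (ho : ∀ s, o s ∈ a s) (hcard : k + 4 ≤ Fintype.card ι)
    (hcons : ∀ s, LCons (fun s => cone (sh a o 1 s)) p {s}ᶜ) :
    LCons (fun s => cone (a s)) p Set.univ := by
  have h1 : ∀ s, ∃ f : Fin (k + 2) → ℝ, f ≠ 0 ∧ (∀ r ≠ s, f ⬝ᵥ hat (o r) = 0) ∧
      Agree f (fun r => hat (o r)) p {s}ᶜ := by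
    intro s
    obtain ⟨f, y, hf, hy, h0, hag⟩ := exists_points (fun s => ⟨o s, o_mem_sh ho 1 s⟩) (hcons s)
    have hyo : y = o := by
      funext r
      exact sh_one_subset r (hy r)
    subst hyo
    exact ⟨f, hf, h0, hag⟩
  choose f hf h0 hag using h1
  have hprop : ∀ r s, r ≠ s → ∃ c : ℝ, 0 < c ∧ f s = c • f r := by
    intro r s hrs
    obtain ⟨t, ht, htS⟩ := exists_tuple ({r, s} : Finset ι) (N := k + 1)
      (by rw [Finset.card_pair hrs]; omega)
    have htr : ∀ j, t j ≠ r := fun j h => htS j (by simp [h])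
    have hts : ∀ j, t j ≠ s := fun j h => htS j (by simp [h])
    have hne : orn (f r) (fun j => hat (o (t j))) ≠ 0 :=
      orn_ne (C := fun s => cone (a s)) hsep (hf r) (B := {r}ᶜ) (x := fun s => hat (o s))
        (fun s hs => ⟨hat_mem.2 (ho s), h0 r s hs⟩) ht (fun j => htr j)
    obtain ⟨c, hc⟩ := exists_smul (hf r) hne (fun j => h0 r _ (htr j)) (fun j => h0 s _ (hts j))
    refine ⟨c, ?_, hc⟩
    have h2 := hag s t (fun j => hts j)
    have h3 := hag r t (fun j => htr j)
    rw [← h3, hc, orn_smul_left, sign_mul] at h2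
    have h4 : SignType.sign (orn (f r) fun j => hat (o (t j))) ≠ 0 := sign_ne_zero_iff.2 hne
    have h5 : SignType.sign c = 1 := by
      revert h2 h4
      generalize SignType.sign (orn (f r) fun j => hat (o (t j))) = A
      generalize SignType.sign c = B
      revert A B
      decide
    exact sign_eq_one_iff.1 h5
  have hnt : Nontrivial ι := Fintype.one_lt_card_iff_nontrivial.1 (by omega)
  obtain ⟨r, s, hrs⟩ := exists_pair_ne ι
  have hall : ∀ q, f r ⬝ᵥ hat (o q) = 0 := by
    intro q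
    by_cases hq : q = r
    · subst hq
      obtain ⟨c, hc, hcs⟩ := hprop _ _ hrs
      have h2 := h0 s q hrs
      rw [hcs, smul_dotProduct, smul_eq_mul] at h2
      exact (mul_eq_zero.1 h2).resolve_left hc.ne'
    · exact h0 r q hq
  refine lcons_of_points (hf r) (y := o) (fun s _ => ho s) (fun s _ => hall s) ?_
  intro t _
  by_cases hsurj : Function.Surjective t
  · exfalso
    have := Fintype.card_le_of_surjective t hsurj
    simp only [Fintype.card_fin] at this
    omega
  · rw [Function.Surjective] at hsurj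
    push Not at hsurj
    obtain ⟨q, hq⟩ := hsurj
    by_cases hqr : q = r
    · subst hqr
      exact hag q t (fun j => hq j)
    · obtain ⟨c, hc, hcs⟩ := hprop r q (Ne.symm hqr)
      have h2 := hag q
      rw [hcs] at h2
      exact Agree.smul_pos hc h2 t (fun j => hq j)

/-- the last parameter -/
theorem exists_last [Fintype ι] [DecidableEq ι] [Nonempty ι] (hconv : ∀ s, Convex ℝ (a s))
    (hcomp : ∀ s, IsCompact (a s))
    (hsep : LSep fun s => cone (a s)) (ho : ∀ s, o s ∈ a s)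
    (hp : ∀ t : Fin (k + 1) → ι, Function.Injective t → dt (fun j => p (t j)) ≠ 0)
    (hcons : ∀ s, LCons (fun s => cone (a s)) p {s}ᶜ) :
    ∃ τ : ℝ, 0 ≤ τ ∧ τ ≤ 1 ∧ (∀ s, LCons (fun t => cone (sh a o τ t)) p {s}ᶜ) ∧
      (τ < 1 → ∃ s, ∀ τ', τ < τ' → τ' ≤ 1 → ¬ LCons (fun t => cone (sh a o τ' t)) p {s}ᶜ) := by
  let Ω : Set ℝ := ⋂ s : ι, {τ : ℝ | τ ∈ Set.Icc (0 : ℝ) 1 ∧
    LCons (fun t => cone (sh a o τ t)) p {s}ᶜ}
  have hΩ : IsCompact Ω := by
    obtain ⟨r0⟩ := ‹Nonempty ι›
    refine IsCompact.of_isClosed_subset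
      (isCompact_omega hconv hcomp hsep ho hp {r0}ᶜ) ?_ (Set.iInter_subset _ r0)
    exact isClosed_iInter fun s => (isCompact_omega hconv hcomp hsep ho hp _).isClosed
  have hne : Ω.Nonempty := by
    refine ⟨0, Set.mem_iInter.2 fun s => ⟨⟨le_rfl, zero_le_one⟩, ?_⟩⟩
    simp only [sh_zero]
    exact hcons s
  obtain ⟨τ, hτ, hmax⟩ := hΩ.exists_isGreatest hne
  rw [Set.mem_iInter] at hτ
  obtain ⟨r0⟩ := ‹Nonempty ι›
  have hne' : Nonempty ι := ⟨r0⟩
  refine ⟨τ, (hτ r0).1.1, (hτ r0).1.2, fun s => (hτ s).2, fun hlt => ?_⟩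
  by_contra hcon
  push Not at hcon
  choose T hT1 hT2 hT3 using hcon
  obtain ⟨s, -, hs⟩ := Finset.exists_min_image Finset.univ T Finset.univ_nonempty
  have h1 : T s ∈ Ω := by
    refine Set.mem_iInter.2 fun r => ⟨⟨(hτ r0).1.1.trans (hT1 s).le, hT2 s⟩, ?_⟩
    exact LCons.anti hconv ho (hs r (Finset.mem_univ r)) (hT2 r) (hT3 r)
  exact absurd (hmax h1) (not_le.2 (hT1 s))

end Shr

end Pool.Agent.HT
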