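import Mathlib
import Pool.Agent.HT.Shrink3

/-!
# The shrinking argument: perturbation
-/

namespace Pool.Agent.HT

open scoped Matrix Topology

namespace Shr

variable {k m : ℕ} {ι : Type}

theorem comb_mem_cone {b : Set (Fin m → ℝ)} (hb : Convex ℝ b) {u v : Fin m → ℝ} (hu : u ∈ b)
    (hv : v ∈ b) {α β : ℝ} (hα : 0 ≤ α) (hβ : 0 ≤ β) (h : 0 < α + β) :
    α • hat u + β • hat v ∈ cone b := by
  rw [mem_cone_iff]
  refine ⟨α + β, h, (α / (α + β)) • u + (β / (α + β)) • v,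
    hb hu hv (by positivity) (by positivity) (by field_simp), ?_⟩
  funext i
  refine Fin.cases ?_ (fun i => ?_) i
  · simp [hat]
  · simp only [Pi.smul_apply, Pi.add_apply, hat_succ, smul_eq_mul]
    field_simp

theorem exists_zero {b : Set (Fin m → ℝ)} (hb : Convex ℝ b) {u v : Fin m → ℝ} (hu : u ∈ b)
    (hv : v ∈ b) {g : Fin (m + 1) → ℝ} (h1 : g ⬝ᵥ hat u < 0) (h2 : 0 < g ⬝ᵥ hat v) :
    ∃ z ∈ b, g ⬝ᵥ hat z = 0 := by
  have h3 : 0 < g ⬝ᵥ hat v - g ⬝ᵥ hat u := by linarith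
  have hsum : g ⬝ᵥ hat v / (g ⬝ᵥ hat v - g ⬝ᵥ hat u) +
      (-(g ⬝ᵥ hat u)) / (g ⬝ᵥ hat v - g ⬝ᵥ hat u) = 1 := by
    rw [← add_div, ← sub_eq_add_neg, div_self h3.ne']
  refine ⟨(g ⬝ᵥ hat v / (g ⬝ᵥ hat v - g ⬝ᵥ hat u)) • u +
    ((-(g ⬝ᵥ hat u)) / (g ⬝ᵥ hat v - g ⬝ᵥ hat u)) • v,
    hb hu hv (by positivity) (div_nonneg (by linarith) h3.le) hsum, ?_⟩
  rw [dot_hat_comb _ _ _ _ _ hsum]
  field_simp
  ring

theorem eventually_pos_of_continuous {G : ℝ → ℝ} (hG : Continuous G) {c : ℝ} (h : 0 < G c) :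
    ∀ᶠ δ in 𝓝[>] c, 0 < G δ :=
  (hG.continuousAt.eventually (lt_mem_nhds h)).filter_mono nhdsWithin_le_nhds

theorem eventually_neg_of_continuous {G : ℝ → ℝ} (hG : Continuous G) {c : ℝ} (h : G c < 0) :
    ∀ᶠ δ in 𝓝[>] c, G δ < 0 :=
  (hG.continuousAt.eventually (gt_mem_nhds h)).filter_mono nhdsWithin_le_nhds

variable {a : ι → Set (Fin (k + 1) → ℝ)} {o : ι → Fin (k + 1) → ℝ} {p : ι → Fin (k + 1) → ℝ}

theorem perturb [Finite ι] (hconv : ∀ s, Convex ℝ (a s)) (hsep : LSep fun s => cone (a s))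
    (ho : ∀ s, o s ∈ a s)
    (hp : ∀ t : Fin (k + 1) → ι, Function.Injective t → dt (fun j => p (t j)) ≠ 0)
    {τ : ℝ} (h0 : 0 ≤ τ) (h1 : τ < 1) {B : Set ι} {f : Fin (k + 2) → ℝ} (hf : f ≠ 0)
    {y : ι → Fin (k + 1) → ℝ} (hy : ∀ s, y s ∈ sh a o τ s) (hfy : ∀ s ∈ B, f ⬝ᵥ hat (y s) = 0)
    (hag : Agree f (fun s => hat (y s)) p B) (h : Fin (k + 2) → ℝ)
    (h3 : ∀ s ∈ B, (∀ z ∈ sh a o τ s, f ⬝ᵥ hat z = 0) → h ⬝ᵥ hat (o s) = 0)
    (h2p : ∀ s ∈ B, (∀ z ∈ sh a o τ s, 0 ≤ f ⬝ᵥ hat z) →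
      (∃ z ∈ sh a o τ s, 0 < f ⬝ᵥ hat z) → h ⬝ᵥ hat (y s) < 0)
    (h2n : ∀ s ∈ B, (∀ z ∈ sh a o τ s, f ⬝ᵥ hat z ≤ 0) →
      (∃ z ∈ sh a o τ s, f ⬝ᵥ hat z < 0) → 0 < h ⬝ᵥ hat (y s)) :
    ∃ τ', τ < τ' ∧ τ' ≤ 1 ∧ LCons (fun t => cone (sh a o τ' t)) p B := by
  classical
  -- the two points of the sets which are not contained in the hyperplane
  have key : ∀ s, ∃ u v, s ∈ B → ¬ (∀ z ∈ sh a o τ s, f ⬝ᵥ hat z = 0) →
      u ∈ sh a o τ s ∧ v ∈ sh a o τ s ∧ f ⬝ᵥ hat u ≤ 0 ∧ 0 ≤ f ⬝ᵥ hat v ∧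
      f ⬝ᵥ hat u < f ⬝ᵥ hat v ∧ (f ⬝ᵥ hat u < 0 ∨ h ⬝ᵥ hat u < 0) ∧
      (0 < f ⬝ᵥ hat v ∨ 0 < h ⬝ᵥ hat v) := by
    intro s
    by_cases hs : s ∈ B
    swap
    · exact ⟨0, 0, fun h => absurd h hs⟩
    by_cases hp1 : ∃ z ∈ sh a o τ s, 0 < f ⬝ᵥ hat z
    · obtain ⟨v, hv, hfv⟩ := hp1
      by_cases hn1 : ∃ z ∈ sh a o τ s, f ⬝ᵥ hat z < 0
      · obtain ⟨u, hu, hfu⟩ := hn1
        exact ⟨u, v, fun _ _ => ⟨hu, hv, hfu.le, hfv.le, hfu.trans hfv, Or.inl hfu, Or.inl hfv⟩⟩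
      · push Not at hn1
        refine ⟨y s, v, fun _ _ => ⟨hy s, hv, (hfy s hs).le, hfv.le, ?_,
          Or.inr (h2p s hs hn1 ⟨v, hv, hfv⟩), Or.inl hfv⟩⟩
        rw [hfy s hs]
        exact hfv
    · push Not at hp1
      by_cases hn1 : ∃ z ∈ sh a o τ s, f ⬝ᵥ hat z < 0
      · obtain ⟨u, hu, hfu⟩ := hn1
        refine ⟨u, y s, fun _ _ => ⟨hu, hy s, hfu.le, (hfy s hs).ge, ?_, Or.inl hfu,
          Or.inr (h2n s hs hp1 ⟨u, hu, hfu⟩)⟩⟩
        rw [hfy s hs]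
        exact hfu
      · push Not at hn1
        refine ⟨0, 0, fun _ hD => absurd (fun z hz => le_antisymm (hp1 z hz) (hn1 z hz)) hD⟩
  choose u v huv using key
  let D : ι → Prop := fun s => ∀ z ∈ sh a o τ s, f ⬝ᵥ hat z = 0
  let F : ℝ → Fin (k + 2) → ℝ := fun δ => f + δ • h
  let X : ℝ → ι → Fin (k + 2) → ℝ := fun δ s =>
    if D s then hat (o s) else
      (F δ ⬝ᵥ hat (v s)) • hat (u s) + (-(F δ ⬝ᵥ hat (u s))) • hat (v s)
  have hF0 : F 0 = f := by simp [F]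
  have hFc : Continuous F := by
    show Continuous fun δ : ℝ => f + δ • h
    fun_prop
  have hFd : ∀ w : Fin (k + 2) → ℝ, Continuous fun δ => F δ ⬝ᵥ w := fun w =>
    continuous_dot hFc continuous_const
  have hXc : ∀ s, Continuous fun δ => X δ s := by
    intro s
    by_cases hs : D s
    · simp only [X, hs, if_true]
      exact continuous_const
    · simp only [X, hs, if_false]
      exact ((hFd _).smul continuous_const).add ((hFd _).neg.smul continuous_const)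
  have hcone : ∀ s, sh a o τ s ⊆ a s := sh_subset hconv ho h0 h1.le
  -- the points lie in the cones
  have hXmem : ∀ δ s, s ∈ B → (D s → F δ ⬝ᵥ hat (o s) = 0) →
      (¬ D s → F δ ⬝ᵥ hat (u s) ≤ 0 ∧ 0 ≤ F δ ⬝ᵥ hat (v s) ∧
        F δ ⬝ᵥ hat (u s) < F δ ⬝ᵥ hat (v s)) →
      X δ s ∈ cone (a s) ∧ F δ ⬝ᵥ X δ s = 0 := by
    intro δ s hs hD hnD
    by_cases hDs : D s
    · simp only [X, hDs, if_true]
      exact ⟨hat_mem.2 (ho s), hD hDs⟩
    · simp only [X, hDs, if_false]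
      obtain ⟨hu, hv, -, -, -, -, -⟩ := huv s hs hDs
      obtain ⟨e1, e2, e3⟩ := hnD hDs
      refine ⟨comb_mem_cone (hconv s) (hcone s hu) (hcone s hv) e2 (by linarith) (by linarith), ?_⟩
      rw [dotProduct_add, dotProduct_smul, dotProduct_smul, smul_eq_mul, smul_eq_mul]
      ring
  have hX0 : ∀ s ∈ B, X 0 s ∈ cone (a s) ∧ f ⬝ᵥ X 0 s = 0 := by
    intro s hs
    have := hXmem 0 s hs (fun hD => by rw [hF0]; exact hD (o s) (o_mem_sh ho τ s)) (fun hD => by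
      rw [hF0]
      obtain ⟨-, -, e1, e2, e3, -, -⟩ := huv s hs hD
      exact ⟨e1, e2, e3⟩)
    rwa [hF0] at this
  have hag0 : Agree f (X 0) p B :=
    Agree.rep (C := fun s => cone (a s)) (fun s => isCone_cone (hconv s)) hsep hf
      (fun s hs => ⟨hat_mem.2 (hcone s (hy s)), hfy s hs⟩) hX0 hag
  have hevO : ∀ᶠ δ in 𝓝[>] (0 : ℝ), ∀ t : Fin (k + 1) → ι, Function.Injective t →
      (∀ j, t j ∈ B) → 0 < orn (F δ) (fun j => X δ (t j)) * dt fun j => p (t j) := by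
    rw [Filter.eventually_all]
    intro t
    by_cases ht : Function.Injective t
    swap
    · exact Filter.Eventually.of_forall fun δ h => absurd h ht
    by_cases htB : ∀ j, t j ∈ B
    swap
    · exact Filter.Eventually.of_forall fun δ _ h => absurd h htB
    have hc : Continuous fun δ => orn (F δ) (fun j => X δ (t j)) * dt fun j => p (t j) :=
      (continuous_orn hFc fun j => hXc (t j)).mul continuous_const
    have hpos : 0 < orn (F 0) (fun j => X 0 (t j)) * dt fun j => p (t j) := by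
      rw [hF0]
      refine lt_of_le_of_ne (nonneg_of_agree hag0 t htB) (Ne.symm (mul_ne_zero ?_ (hp t ht)))
      exact orn_ne (C := fun s => cone (a s)) hsep hf hX0 ht htB
    filter_upwards [eventually_pos_of_continuous hc hpos] with δ hδ _ _
    exact hδ
  have hevF : ∀ᶠ δ in 𝓝[>] (0 : ℝ), F δ ≠ 0 := by
    have : ∀ᶠ δ in 𝓝 (0 : ℝ), F δ ≠ 0 :=
      hFc.continuousAt.eventually_ne (by rw [hF0]; exact hf)
    exact this.filter_mono nhdsWithin_le_nhds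
  have hevS : ∀ᶠ δ in 𝓝[>] (0 : ℝ), ∀ s, s ∈ B → ¬ D s →
      F δ ⬝ᵥ hat (u s) < 0 ∧ 0 < F δ ⬝ᵥ hat (v s) := by
    rw [Filter.eventually_all]
    intro s
    by_cases hs : s ∈ B
    swap
    · exact Filter.Eventually.of_forall fun δ h => absurd h hs
    by_cases hD : D s
    · exact Filter.Eventually.of_forall fun δ _ h => absurd hD h
    obtain ⟨-, -, e1, e2, -, e3, e4⟩ := huv s hs hD
    have hA : ∀ᶠ δ in 𝓝[>] (0 : ℝ), F δ ⬝ᵥ hat (u s) < 0 := by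
      by_cases hlt : f ⬝ᵥ hat (u s) < 0
      · exact eventually_neg_of_continuous (hFd _) (by rw [hF0]; exact hlt)
      · have hh := e3.resolve_left hlt
        filter_upwards [self_mem_nhdsWithin] with δ hδ
        have hδ' : (0 : ℝ) < δ := hδ
        show (f + δ • h) ⬝ᵥ hat (u s) < 0
        rw [add_dotProduct, smul_dotProduct, smul_eq_mul]
        nlinarith [mul_neg_of_pos_of_neg hδ' hh]
    have hB : ∀ᶠ δ in 𝓝[>] (0 : ℝ), 0 < F δ ⬝ᵥ hat (v s) := by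
      by_cases hlt : 0 < f ⬝ᵥ hat (v s)
      · exact eventually_pos_of_continuous (hFd _) (by rw [hF0]; exact hlt)
      · have hh := e4.resolve_left hlt
        filter_upwards [self_mem_nhdsWithin] with δ hδ
        have hδ' : (0 : ℝ) < δ := hδ
        show 0 < (f + δ • h) ⬝ᵥ hat (v s)
        rw [add_dotProduct, smul_dotProduct, smul_eq_mul]
        nlinarith [mul_pos hδ' hh]
    filter_upwards [hA, hB] with δ h1 h2 _ _
    exact ⟨h1, h2⟩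
  obtain ⟨δ, hδO, hδF, hδS⟩ := (hevO.and (hevF.and hevS)).exists
  -- the new hyperplane
  have hδD : ∀ s ∈ B, D s → F δ ⬝ᵥ hat (o s) = 0 := by
    intro s hs hD
    show (f + δ • h) ⬝ᵥ hat (o s) = 0
    rw [add_dotProduct, smul_dotProduct, h3 s hs hD, smul_zero, add_zero]
    exact hD (o s) (o_mem_sh ho τ s)
  have hXδ : ∀ s ∈ B, X δ s ∈ cone (a s) ∧ F δ ⬝ᵥ X δ s = 0 := by
    intro s hs
    refine hXmem δ s hs (hδD s hs) fun hD => ?_
    obtain ⟨e1, e2⟩ := hδS s hs hD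
    exact ⟨e1.le, e2.le, e1.trans e2⟩
  have hagδ : Agree (F δ) (X δ) p B := by
    refine agree_of_nonneg (C := fun s => cone (a s)) hsep hδF hp hXδ fun t ht => ?_
    by_cases hinj : Function.Injective t
    · exact (hδO t hinj ht).le
    · rw [dt_eq_zero_of_not_inj p hinj, mul_zero]
  -- shrink a little bit more
  have hpre : ∀ s, ∃ u' v', s ∈ B → ¬ D s → (u' ∈ a s ∧ shr (o s) τ u' = u s) ∧
      (v' ∈ a s ∧ shr (o s) τ v' = v s) := by
    intro s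
    by_cases hs : s ∈ B ∧ ¬ D s
    · obtain ⟨⟨u', hu', hu''⟩, ⟨v', hv', hv''⟩, -⟩ := huv s hs.1 hs.2
      exact ⟨u', v', fun _ _ => ⟨⟨hu', hu''⟩, ⟨hv', hv''⟩⟩⟩
    · exact ⟨0, 0, fun h1 h2 => absurd ⟨h1, h2⟩ hs⟩
  choose u' v' huv' using hpre
  have hevT : ∀ᶠ τ' in 𝓝[>] τ, ∀ s, s ∈ B → ¬ D s →
      F δ ⬝ᵥ hat (shr (o s) τ' (u' s)) < 0 ∧ 0 < F δ ⬝ᵥ hat (shr (o s) τ' (v' s)) := by
    rw [Filter.eventually_all]
    intro s
    by_cases hs : s ∈ B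
    swap
    · exact Filter.Eventually.of_forall fun δ h => absurd h hs
    by_cases hD : D s
    · exact Filter.Eventually.of_forall fun δ _ h => absurd hD h
    obtain ⟨⟨-, e1⟩, -, e2⟩ := huv' s hs hD
    obtain ⟨e3, e4⟩ := hδS s hs hD
    have hc : ∀ w, Continuous fun τ' => F δ ⬝ᵥ hat (shr (o s) τ' w) := fun w =>
      continuous_dot continuous_const
        (continuous_hat.comp (continuous_shr (o s) continuous_id continuous_const))
    filter_upwards [eventually_neg_of_continuous (hc (u' s)) (c := τ) (by rw [e1]; exact e3),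
      eventually_pos_of_continuous (hc (v' s)) (c := τ) (by rw [e2]; exact e4)] with τ' h1 h2 _ _
    exact ⟨h1, h2⟩
  have hev1 : ∀ᶠ τ' in 𝓝[>] τ, τ' ∈ Set.Ioc τ 1 := Ioc_mem_nhdsGT h1
  obtain ⟨τ', hτ', hlt, hle⟩ := (hevT.and hev1).exists
  have hz : ∀ s, ∃ z, s ∈ B → z ∈ sh a o τ' s ∧ F δ ⬝ᵥ hat z = 0 := by
    intro s
    by_cases hs : s ∈ B
    swap
    · exact ⟨0, fun h => absurd h hs⟩
    by_cases hD : D s
    · exact ⟨o s, fun _ => ⟨o_mem_sh ho τ' s, hδD s hs hD⟩⟩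
    · obtain ⟨⟨e1, -⟩, e2, -⟩ := huv' s hs hD
      obtain ⟨e3, e4⟩ := hτ' s hs hD
      obtain ⟨z, hz, hz0⟩ := exists_zero (sh_convex (o := o) hconv τ' s) (Set.mem_image_of_mem _ e1)
        (Set.mem_image_of_mem _ e2) e3 e4
      exact ⟨z, fun _ => ⟨hz, hz0⟩⟩
  choose z hz using hz
  refine ⟨τ', hlt, hle, lcons_of_points hδF (y := z) (fun s hs => (hz s hs).1)
    (fun s hs => (hz s hs).2) ?_⟩
  exact Agree.rep (C := fun s => cone (a s)) (fun s => isCone_cone (hconv s)) hsep hδF hXδ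
    (fun s hs => ⟨hat_mem.2 (sh_subset hconv ho (h0.trans hlt.le) hle s (hz s hs).1),
      (hz s hs).2⟩) hagδ

end Shr

end Pool.Agent.HT
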