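import Mathlib
import Pool.Agent.HT.Shrink4

/-!
# The shrinking argument: linear algebra
-/

namespace Pool.Agent.HT

open scoped Matrix

namespace Shr

variable {k m : ℕ} {ι : Type}

/-- A theorem of the alternative. -/
theorem alternative [Fintype ι] (S T : Set ι) (hST : Disjoint S T) (v : ι → Fin m → ℝ)
    (hno : ∀ c : ι → ℝ, (∀ s, c s ≠ 0 → s ∈ S ∨ s ∈ T) → (∀ s ∈ S, 0 ≤ c s) →
      ∑ s, c s • v s = 0 → ∀ s ∈ S, c s = 0) :
    ∃ h : Fin m → ℝ, (∀ s ∈ S, h ⬝ᵥ v s < 0) ∧ ∀ s ∈ T, h ⬝ᵥ v s = 0 := by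
  classical
  let L : (ι → ℝ) →ₗ[ℝ] (Fin m → ℝ) := Fintype.linearCombination ℝ v
  have hL : ∀ c, L c = ∑ s, c s • v s := fun c => Fintype.linearCombination_apply ℝ v c
  have hLs : ∀ s, L (Pi.single s 1) = v s := by
    intro s
    rw [hL, Finset.sum_eq_single s]
    · simp
    · intro r _ hr
      simp [Pi.single_eq_of_ne hr]
    · intro h
      exact absurd (Finset.mem_univ s) h
  let P : Submodule ℝ (ι → ℝ) :=
    { carrier := {d | ∀ s ∉ T, d s = 0}
      add_mem' := by
        intro d e hd he s hs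
        simp [hd s hs, he s hs]
      zero_mem' := fun s _ => rfl
      smul_mem' := by
        intro c d hd s hs
        simp [hd s hs] }
  let Q : Set (ι → ℝ) := stdSimplex ℝ ι ∩ {c | ∀ s ∉ S, c s = 0}
  have hQc : IsCompact (L '' Q) := by
    refine IsCompact.image ?_ (LinearMap.continuous_of_finiteDimensional L)
    refine (isCompact_stdSimplex ℝ ι).inter_right ?_
    simp only [Set.ofPred_forall]
    exact isClosed_biInter fun s _ => isClosed_eq (continuous_apply s) continuous_const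
  have hQv : Convex ℝ (L '' Q) := by
    refine Convex.linear_image ?_ L
    refine (convex_stdSimplex ℝ ι).inter ?_
    intro c hc d hd α β _ _ _ s hs
    have h1 := hc s hs
    have h2 := hd s hs
    simp [h1, h2]
  have hdisj : Disjoint (L '' Q) (P.map L : Set (Fin m → ℝ)) := by
    rw [Set.disjoint_left]
    rintro _ ⟨c, ⟨hc1, hc2⟩, rfl⟩ hz
    obtain ⟨d, hd, hdc⟩ := hz
    have h1 : ∑ s, (c - d) s • v s = 0 := by
      rw [← hL, map_sub, hdc, sub_self]
    have h2 := hno (c - d) (fun s hs => by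
      by_contra hcon
      push Not at hcon
      apply hs
      rw [Pi.sub_apply, hc2 s hcon.1, hd s hcon.2, sub_zero]) (fun s hs => by
        rw [Pi.sub_apply, hd s (fun h => Set.disjoint_left.1 hST hs h), sub_zero]
        exact hc1.1 s) h1
    have h3 : ∀ s, c s = 0 := by
      intro s
      by_cases hs : s ∈ S
      · have := h2 s hs
        rwa [Pi.sub_apply, hd s (fun h => Set.disjoint_left.1 hST hs h), sub_zero] at this
      · exact hc2 s hs
    have h4 := hc1.2
    rw [Finset.sum_eq_zero fun s _ => h3 s] at h4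
    exact zero_ne_one h4
  obtain ⟨g, u, w, hgu, huw, hgw⟩ := geometric_hahn_banach_compact_closed hQv hQc
    (P.map L).convex (Submodule.closed_of_finiteDimensional (P.map L)) hdisj
  have hg0 : ∀ z ∈ P.map L, g z = 0 := by
    intro z hz
    by_contra hne
    have h1 := hgw ((w / g z) • z) ((P.map L).smul_mem _ hz)
    rw [map_smul, smul_eq_mul, div_mul_cancel₀ _ hne] at h1
    exact lt_irrefl _ h1
  have hw0 : w < 0 := by
    have h1 := hgw 0 (P.map L).zero_mem
    rwa [map_zero] at h1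
  have hgd : ∀ z : Fin m → ℝ, (fun i => g (Pi.single i 1)) ⬝ᵥ z = g z := by
    intro z
    have h1 : z = ∑ i, z i • (Pi.single i (1 : ℝ) : Fin m → ℝ) := by
      funext j
      simp [Finset.sum_apply, Pi.single_apply]
    conv_rhs => rw [h1, map_sum]
    rw [dotProduct]
    refine Finset.sum_congr rfl fun i _ => ?_
    rw [map_smul, smul_eq_mul, mul_comm]
  refine ⟨fun i => g (Pi.single i 1), fun s hs => ?_, fun s hs => ?_⟩
  · rw [hgd]
    refine (hgu _ ⟨Pi.single s 1, ⟨single_mem_stdSimplex ℝ s, fun r hr => ?_⟩, hLs s⟩).trans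
      (huw.trans hw0)
    have hrs : r ≠ s := fun h => hr (h ▸ hs)
    simp [Pi.single_eq_of_ne hrs]
  · rw [hgd]
    refine hg0 _ ⟨Pi.single s 1, fun r hr => ?_, hLs s⟩
    have hrs : r ≠ s := fun h => hr (h ▸ hs)
    simp [Pi.single_eq_of_ne hrs]

/-- conformal reduction of a relation -/
theorem reduce_rel [Fintype ι] {E : Type*} [AddCommGroup E] [Module ℝ E] (x : ι → E)
    {γ d : ι → ℝ} (hγ : ∑ s, γ s • x s = 0) (hd : ∑ s, d s • x s = 0) (hd0 : d ≠ 0)
    (hsupp : ∀ s, d s ≠ 0 → γ s ≠ 0) {s1 : ι} (hs1 : d s1 = 0) (hs1' : γ s1 ≠ 0) :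
    ∃ γ' : ι → ℝ, γ' ≠ 0 ∧ ∑ s, γ' s • x s = 0 ∧ (∀ s, ∃ θ : ℝ, 0 ≤ θ ∧ γ' s = θ * γ s) ∧
      ∃ s2, γ s2 ≠ 0 ∧ γ' s2 = 0 := by
  classical
  have hne : (Finset.univ.filter fun s => d s ≠ 0).Nonempty := by
    obtain ⟨s, hs⟩ := Function.ne_iff.1 hd0
    exact ⟨s, by simpa using hs⟩
  obtain ⟨r, hr, hmin⟩ := Finset.exists_min_image _ (fun s => |γ s / d s|) hne
  have hr' : d r ≠ 0 := (Finset.mem_filter.1 hr).2
  have hγr := hsupp r hr'
  set l := γ r / d r with hl
  refine ⟨fun s => γ s - l * d s, ?_, ?_, ?_, ⟨r, hγr, ?_⟩⟩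
  · intro h
    have := congrFun h s1
    simp only [hs1, mul_zero, sub_zero, Pi.zero_apply] at this
    exact hs1' this
  · have h1 : ∀ s, (γ s - l * d s) • x s = γ s • x s - l • (d s • x s) := by
      intro s
      rw [sub_smul, mul_smul]
    simp only [h1]
    rw [Finset.sum_sub_distrib, hγ, ← Finset.smul_sum, hd, smul_zero, sub_zero]
  · intro s
    by_cases hs : γ s = 0
    · have hds : d s = 0 := by
        by_contra h
        exact hsupp s h hs
      exact ⟨0, le_rfl, by simp [hs, hds]⟩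
    · refine ⟨1 - l * (d s / γ s), ?_, by field_simp⟩
      by_cases hds : d s = 0
      · simp [hds]
      · have h1 := hmin s (by simp [hds])
        have h2 : |l * (d s / γ s)| ≤ 1 := by
          rw [abs_mul]
          have h3 : |d s / γ s| = |γ s / d s|⁻¹ := by
            rw [← abs_inv, inv_div]
          rw [h3, ← div_eq_mul_inv]
          exact div_le_one_of_le₀ h1 (abs_nonneg _)
        have := (abs_le.1 h2).2
        linarith
  · show γ r - l * d r = 0
    rw [hl, div_mul_cancel₀ _ hr', sub_self]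

/-- `k + 2` vectors of a hyperplane are dependent -/
theorem exists_dep [Fintype ι] [DecidableEq ι] {f : Fin (k + 2) → ℝ} (hf : f ≠ 0)
    (x : ι → Fin (k + 2) → ℝ) (A : Finset ι) (hA : A.card = k + 2)
    (hx : ∀ s ∈ A, f ⬝ᵥ x s = 0) :
    ∃ d : ι → ℝ, d ≠ 0 ∧ (∀ s ∉ A, d s = 0) ∧ ∑ s, d s • x s = 0 := by
  have hnl : ¬ LinearIndependent ℝ (fun i : A => x i) := by
    intro hli
    have hne : Nonempty A := by
      rw [← Fintype.card_pos_iff, Fintype.card_coe, hA]
      omega
    have htop := hli.span_eq_top_of_card_eq_finrank (by simp [hA])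
    have hzero : ∀ z ∈ Submodule.span ℝ (Set.range fun i : A => x i), f ⬝ᵥ z = 0 := by
      intro z hz
      induction hz using Submodule.span_induction with
      | mem z hz =>
        obtain ⟨i, rfl⟩ := hz
        exact hx _ i.2
      | zero => simp
      | add y z _ _ hy hz => rw [dotProduct_add, hy, hz, add_zero]
      | smul c z _ hz => rw [dotProduct_smul, hz, smul_zero]
    have h1 := hzero f (by rw [htop]; trivial)
    rw [dotProduct_self_eq_zero] at h1
    exact hf h1
  rw [Fintype.not_linearIndependent_iff] at hnl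
  obtain ⟨g, hg, i, hi⟩ := hnl
  refine ⟨fun s => if h : s ∈ A then g ⟨s, h⟩ else 0, ?_, ?_, ?_⟩
  · intro h
    have := congrFun h i
    simp only [i.2, dif_pos, Pi.zero_apply] at this
    exact hi this
  · intro s hs
    simp [hs]
  · rw [← hg]
    rw [← Finset.sum_subset (Finset.subset_univ A) (fun s _ hs => by simp [hs]),
      ← Finset.sum_coe_sort A]
    refine Finset.sum_congr rfl fun s _ => ?_
    simp

/-- relations among at most `k + 1` vectors of the cones are trivial -/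
theorem card_of_rel [Fintype ι] [DecidableEq ι] {C : ι → Set (Fin (k + 2) → ℝ)} (hsep : LSep C)
    {x : ι → Fin (k + 2) → ℝ} (hx : ∀ s, x s ∈ C s) (hcard : k + 1 ≤ Fintype.card ι)
    {γ : ι → ℝ} (hγ : ∑ s, γ s • x s = 0) (hγ0 : γ ≠ 0) :
    k + 2 ≤ (Finset.univ.filter fun s => γ s ≠ 0).card := by
  by_contra hcon
  push Not at hcon
  obtain ⟨A, hA1, hA2, hA3⟩ := Finset.exists_subsuperset_card_eq (n := k + 1)
    (Finset.subset_univ (Finset.univ.filter fun s => γ s ≠ 0)) (by omega)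
    (by rw [Finset.card_univ]; exact hcard)
  let e := A.equivFinOfCardEq hA3
  have hli := hsep (fun j => (e.symm j : ι)) (Subtype.val_injective.comp e.symm.injective)
    (fun j => x (e.symm j)) (fun j => hx _)
  rw [Fintype.linearIndependent_iff] at hli
  have h1 : ∑ j, γ (e.symm j) • x (e.symm j) = 0 := by
    rw [← hγ, ← Finset.sum_subset (Finset.subset_univ A) (fun s _ hs => ?_),
      ← Finset.sum_coe_sort A]
    · exact e.symm.sum_comp fun s : A => γ s • x s
    · have : γ s = 0 := by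
        by_contra h
        exact hs (hA1 (by simp [h]))
      simp [this]
  have h2 := hli (fun j => γ (e.symm j)) h1
  apply hγ0
  funext s
  by_contra h
  have hsA : s ∈ A := hA1 (by simpa using h)
  have h3 := h2 (e ⟨s, hsA⟩)
  simp only [Equiv.symm_apply_apply] at h3
  exact h h3

/-- the relation of `k + 2` vectors in general position in `ℝ^(k+1)` -/
theorem exists_mu {p : ι → Fin (k + 1) → ℝ}
    (hp : ∀ t : Fin (k + 1) → ι, Function.Injective t → dt (fun j => p (t j)) ≠ 0)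
    (b : Fin (k + 2) → ι) (hb : Function.Injective b) :
    ∃ μ : Fin (k + 2) → ℝ, (∀ i, μ i ≠ 0) ∧ ∑ i, μ i • p (b i) = 0 := by
  have hnl : ¬ LinearIndependent ℝ (fun i => p (b i)) := by
    intro h
    have := h.fintype_card_le_finrank
    simp at this
  rw [Fintype.not_linearIndependent_iff] at hnl
  obtain ⟨g, hg, i, hi⟩ := hnl
  refine ⟨g, fun j hj => ?_, hg⟩
  rw [Fin.sum_univ_succAbove _ j, hj, zero_smul, zero_add] at hg
  have h1 := hp (fun r => b (j.succAbove r)) (hb.comp (Fin.succAbove_right_injective))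
  have h2 : LinearIndependent ℝ fun r => p (b (j.succAbove r)) :=
    Matrix.linearIndependent_rows_of_det_ne_zero h1
  rw [Fintype.linearIndependent_iff] at h2
  have h3 := h2 (fun r => g (j.succAbove r)) hg
  by_cases hij : i = j
  · rw [hij] at hi
    exact hi hj
  · obtain ⟨r, rfl⟩ := Fin.exists_succAbove_eq hij
    exact hi (h3 r)

theorem same_hyperplane {C : ι → Set (Fin (k + 2) → ℝ)} (hC : ∀ s, IsCone (C s)) (hsep : LSep C)
    {p : ι → Fin (k + 1) → ℝ}
    (hp : ∀ t : Fin (k + 1) → ι, Function.Injective t → dt (fun j => p (t j)) ≠ 0)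
    {f : Fin (k + 2) → ℝ} (hf : f ≠ 0) {x : ι → Fin (k + 2) → ℝ} {B : Set ι}
    (hx : ∀ s ∈ B, x s ∈ C s ∧ f ⬝ᵥ x s = 0) (hag : Agree f x p B)
    {g : Fin (k + 2) → ℝ} (hg : g ≠ 0) {y : ι → Fin (k + 2) → ℝ} {B' : Set ι}
    (hy : ∀ s ∈ B', y s ∈ C s ∧ g ⬝ᵥ y s = 0) (hag' : Agree g y p B')
    (b : Fin (k + 2) → ι) (hb : Function.Injective b) (hbB : ∀ i, b i ∈ B)
    (hbB' : ∀ i, b i ∈ B') (γ : Fin (k + 2) → ℝ) (hγ : ∀ i, γ i ≠ 0)
    (hrel : ∑ i, γ i • x (b i) = 0) (hpin : ∀ i, ∀ v ∈ C (b i), 0 ≤ γ i * (f ⬝ᵥ v)) :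
    ∃ c : ℝ, 0 < c ∧ g = c • f := by
  obtain ⟨μ, hμ, hμrel⟩ := exists_mu hp b hb
  obtain ⟨ν, hν, hνrel⟩ := exists_rel hsep hf hx hag b hb hbB μ hμ hμrel
  obtain ⟨ν', hν', hνrel'⟩ := exists_rel hsep hg hy hag' b hb hbB' μ hμ hμrel
  have hcs : Function.Injective (fun j : Fin (k + 1) => b j.castSucc) :=
    hb.comp (Fin.castSucc_injective _)
  -- the two relations are proportional
  have hprop : ∃ c : ℝ, ∀ i, γ i = c * (μ i * ν i) := by
    refine ⟨γ (Fin.last _) / (μ (Fin.last _) * ν (Fin.last _)), ?_⟩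
    set c := γ (Fin.last _) / (μ (Fin.last _) * ν (Fin.last _)) with hc
    have hlast : γ (Fin.last (k + 1)) - c * (μ (Fin.last _) * ν (Fin.last _)) = 0 := by
      rw [hc, div_mul_cancel₀ _ (mul_ne_zero (hμ _) (hν _).ne'), sub_self]
    have h1 : ∑ i, (γ i - c * (μ i * ν i)) • x (b i) = 0 := by
      have : ∀ i, (γ i - c * (μ i * ν i)) • x (b i) =
          γ i • x (b i) - c • ((μ i * ν i) • x (b i)) := by
        intro i
        rw [sub_smul, mul_smul]
      simp only [this]
      rw [Finset.sum_sub_distrib, hrel, ← Finset.smul_sum, hνrel, smul_zero, sub_zero]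
    rw [Fin.sum_univ_castSucc, hlast, zero_smul, add_zero] at h1
    have hli := hsep _ hcs (fun j => x (b j.castSucc)) (fun j => (hx _ (hbB _)).1)
    rw [Fintype.linearIndependent_iff] at hli
    have h2 := hli _ h1
    intro i
    refine Fin.lastCases ?_ (fun j => ?_) i
    · linarith [hlast]
    · linarith [h2 j]
  obtain ⟨c, hc⟩ := hprop
  -- f vanishes on the y's
  have hfy : ∀ i, f ⬝ᵥ y (b i) = 0 := by
    have h1 : ∑ i, ν' i / ν i * (γ i * (f ⬝ᵥ y (b i))) = 0 := by
      have h2 : f ⬝ᵥ (∑ i, (μ i * ν' i) • y (b i)) = 0 := by rw [hνrel', dotProduct_zero]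
      rw [dotProduct_sum] at h2
      have h3 : ∀ i, ν' i / ν i * (γ i * (f ⬝ᵥ y (b i))) =
          c * (f ⬝ᵥ ((μ i * ν' i) • y (b i))) := by
        intro i
        have := (hν i).ne'
        rw [dotProduct_smul, smul_eq_mul, hc i]
        field_simp
      simp only [h3]
      rw [← Finset.mul_sum, h2, mul_zero]
    have h2 : ∀ i ∈ (Finset.univ : Finset (Fin (k + 2))),
        0 ≤ ν' i / ν i * (γ i * (f ⬝ᵥ y (b i))) := fun i _ =>
      mul_nonneg (div_nonneg (hν' i).le (hν i).le) (hpin i _ (hy _ (hbB' i)).1)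
    rw [Finset.sum_eq_zero_iff_of_nonneg h2] at h1
    intro i
    have h3 := h1 i (Finset.mem_univ i)
    have h4 : ν' i / ν i ≠ 0 := (div_pos (hν' i) (hν i)).ne'
    exact (mul_eq_zero.1 ((mul_eq_zero.1 h3).resolve_left h4)).resolve_left (hγ i)
  have hyr : ∀ s ∈ Set.range b, y s ∈ C s ∧ f ⬝ᵥ y s = 0 := by
    rintro _ ⟨i, rfl⟩
    exact ⟨(hy _ (hbB' i)).1, hfy i⟩
  have hxr : ∀ s ∈ Set.range b, x s ∈ C s ∧ f ⬝ᵥ x s = 0 := by
    rintro _ ⟨i, rfl⟩
    exact hx _ (hbB i)
  have hne : orn f (fun j : Fin (k + 1) => y (b j.castSucc)) ≠ 0 :=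
    orn_ne hsep hf hyr hcs fun j => ⟨_, rfl⟩
  obtain ⟨c', hc'⟩ := exists_smul (g := g) hf hne (fun j => hfy _)
    (fun j => (hy _ (hbB' j.castSucc)).2)
  refine ⟨c', ?_, hc'⟩
  have h1 := hag' (fun j => b j.castSucc) (fun j => hbB' _)
  have h2 := hag (fun j => b j.castSucc) (fun j => hbB _)
  have h3 := orn_rep hC hsep hf hxr hyr (fun j => b j.castSucc) (fun j => ⟨_, rfl⟩)
  rw [← h2, h3, hc', orn_smul_left, sign_mul] at h1
  have h4 : SignType.sign (orn f fun j : Fin (k + 1) => y (b j.castSucc)) ≠ 0 :=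
    sign_ne_zero_iff.2 hne
  have h5 : SignType.sign c' = 1 := by
    revert h1 h4
    generalize SignType.sign (orn f fun j : Fin (k + 1) => y (b j.castSucc)) = A
    generalize SignType.sign c' = B
    revert A B
    decide
  exact sign_eq_one_iff.1 h5

end Shr

end Pool.Agent.HT
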