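import Mathlib
import Pool.Agent.HT.Shrink5

/-!
# The shrinking argument: the pinned hyperplane and the Helly step
-/

namespace Pool.Agent.HT

open scoped Matrix

namespace Shr

variable {k m : ℕ} {ι : Type}
variable {a : ι → Set (Fin (k + 1) → ℝ)} {o : ι → Fin (k + 1) → ℝ} {p : ι → Fin (k + 1) → ℝ}

/-- At the last parameter there is a nonnegative relation. -/
theorem exists_pinned [Fintype ι] (hconv : ∀ s, Convex ℝ (a s))
    (hsep : LSep fun s => cone (a s)) (ho : ∀ s, o s ∈ a s)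
    (hp : ∀ t : Fin (k + 1) → ι, Function.Injective t → dt (fun j => p (t j)) ≠ 0)
    {τ : ℝ} (h0 : 0 ≤ τ) (h1 : τ < 1) {s0 : ι}
    (hL : LCons (fun t => cone (sh a o τ t)) p {s0}ᶜ)
    (hmax : ∀ τ', τ < τ' → τ' ≤ 1 → ¬ LCons (fun t => cone (sh a o τ' t)) p {s0}ᶜ) :
    ∃ (f : Fin (k + 2) → ℝ) (x : ι → Fin (k + 2) → ℝ) (γ : ι → ℝ), f ≠ 0 ∧
      (∀ s, x s ∈ cone (sh a o τ s)) ∧ (∀ s, s ≠ s0 → f ⬝ᵥ x s = 0) ∧ Agree f x p {s0}ᶜ ∧
      γ ≠ 0 ∧ γ s0 = 0 ∧ (∀ s, ∀ v ∈ cone (sh a o τ s), 0 ≤ γ s * (f ⬝ᵥ v)) ∧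
      ∑ s, γ s • x s = 0 := by
  classical
  obtain ⟨f, z, hf, hz, hfz, hagz⟩ := exists_points (fun s => ⟨o s, o_mem_sh ho τ s⟩) hL
  let D : ι → Prop := fun s => ∀ w ∈ sh a o τ s, f ⬝ᵥ hat w = 0
  let y : ι → Fin (k + 1) → ℝ := fun s => if D s then o s else z s
  have hyD : ∀ s, D s → y s = o s := fun s hs => by simp only [y, hs, if_true]
  have hy : ∀ s, y s ∈ sh a o τ s := by
    intro s
    by_cases hs : D s
    · rw [hyD s hs]
      exact o_mem_sh ho τ s
    · simp only [y, hs, if_false]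
      exact hz s
  have hfy : ∀ s, s ≠ s0 → f ⬝ᵥ hat (y s) = 0 := by
    intro s hs
    by_cases hD : D s
    · exact hD _ (hy s)
    · simp only [y, hD, if_false]
      exact hfz s hs
  have hmemc : ∀ s, sh a o τ s ⊆ a s := sh_subset hconv ho h0 h1.le
  have hag : Agree f (fun s => hat (y s)) p {s0}ᶜ :=
    Agree.rep (C := fun s => cone (a s)) (fun s => isCone_cone (hconv s)) hsep hf
      (fun s hs => ⟨hat_mem.2 (hmemc s (hz s)), hfz s hs⟩)
      (fun s hs => ⟨hat_mem.2 (hmemc s (hy s)), hfy s hs⟩) hagz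
  -- the signs
  let e : ι → ℝ := fun s =>
    if D s then 1 else if ∀ w ∈ sh a o τ s, 0 ≤ f ⬝ᵥ hat w then 1 else -1
  have heD : ∀ s, D s → e s = 1 := fun s hs => by simp only [e, hs, if_true]
  have he : ∀ s, e s ≠ 0 := by
    intro s
    simp only [e]
    split_ifs <;> norm_num
  let S : Set ι := {s | s ≠ s0 ∧ ¬ D s ∧ ∀ w ∈ sh a o τ s, 0 ≤ e s * (f ⬝ᵥ hat w)}
  let T : Set ι := {s | s ≠ s0 ∧ D s}
  have hST : Disjoint S T := by
    rw [Set.disjoint_left]
    intro s hs ht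
    exact hs.2.1 ht.2
  by_cases hno : ∀ c : ι → ℝ, (∀ s, c s ≠ 0 → s ∈ S ∨ s ∈ T) → (∀ s ∈ S, 0 ≤ c s) →
      ∑ s, c s • (e s • hat (y s)) = 0 → ∀ s ∈ S, c s = 0
  · exfalso
    obtain ⟨h, hhS, hhT⟩ := alternative S T hST (fun s => e s • hat (y s)) hno
    have hex : ∃ τ', τ < τ' ∧ τ' ≤ 1 ∧ LCons (fun t => cone (sh a o τ' t)) p {s0}ᶜ := by
      refine perturb hconv hsep ho hp h0 h1 hf hy (fun s hs => hfy s hs) hag h ?_ ?_ ?_
      · intro s hs hD
        have := hhT s ⟨hs, hD⟩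
        rw [heD s hD, one_smul, hyD s hD] at this
        exact this
      · rintro s hs hge ⟨w, hw, hfw⟩
        have hD : ¬ D s := fun hD => hfw.ne' (hD w hw)
        have hes : e s = 1 := by
          simp only [e, hD, if_false]
          rw [if_pos hge]
        have := hhS s ⟨hs, hD, fun w hw => by rw [hes, one_mul]; exact hge w hw⟩
        rwa [hes, one_smul] at this
      · rintro s hs hle' ⟨w, hw, hfw⟩
        have hD : ¬ D s := fun hD => hfw.ne (hD w hw)
        have hes : e s = -1 := by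
          simp only [e, hD, if_false]
          rw [if_neg]
          intro hcon
          exact absurd (hcon w hw) (not_le.2 hfw)
        have := hhS s ⟨hs, hD, fun w hw => by rw [hes]; linarith [hle' w hw]⟩
        rw [hes, dotProduct_smul, smul_eq_mul] at this
        linarith
    obtain ⟨τ', hlt, hle, hL'⟩ := hex
    exact hmax τ' hlt hle hL'
  · push Not at hno
    obtain ⟨c, hc1, hc2, hc3, s1, hs1, hcs1⟩ := hno
    refine ⟨f, fun s => hat (y s), fun s => c s * e s, hf, fun s => hat_mem.2 (hy s), hfy, hag,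
      ?_, ?_, ?_, ?_⟩
    · intro h
      have := congrFun h s1
      simp only [Pi.zero_apply, mul_eq_zero] at this
      exact this.elim hcs1 (he s1)
    · have : c s0 = 0 := by
        by_contra h
        rcases hc1 s0 h with h' | h'
        · exact h'.1 rfl
        · exact h'.1 rfl
      simp [this]
    · intro s v hv
      obtain ⟨d, hd, w, hw, rfl⟩ := mem_cone_iff.1 hv
      rw [dotProduct_smul, smul_eq_mul]
      by_cases hcs : c s = 0
      · simp [hcs]
      rcases hc1 s hcs with hs | hs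
      · have h2 := hs.2.2 w hw
        have h3 := hc2 s hs
        have : c s * e s * (d * (f ⬝ᵥ hat w)) = c s * d * (e s * (f ⬝ᵥ hat w)) := by ring
        rw [this]
        positivity
      · rw [hs.2 w hw]
        simp
    · rw [← hc3]
      refine Finset.sum_congr rfl fun s _ => ?_
      rw [mul_smul]

/-- Minimal nonnegative relations have exactly `k + 2` terms. -/
theorem exists_circuit [Fintype ι] [DecidableEq ι] {C : ι → Set (Fin (k + 2) → ℝ)}
    (hsep : LSep C) (hcard : k + 1 ≤ Fintype.card ι) {s0 : ι} {f : Fin (k + 2) → ℝ} (hf : f ≠ 0)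
    {x : ι → Fin (k + 2) → ℝ} (hx : ∀ s, x s ∈ C s) (hfx : ∀ s, s ≠ s0 → f ⬝ᵥ x s = 0)
    {γ : ι → ℝ} (hγ0 : γ ≠ 0) (hγs : γ s0 = 0) (hγ : ∀ s, ∀ v ∈ C s, 0 ≤ γ s * (f ⬝ᵥ v))
    (hrel : ∑ s, γ s • x s = 0) :
    ∃ γ : ι → ℝ, γ s0 = 0 ∧ (∀ s, ∀ v ∈ C s, 0 ≤ γ s * (f ⬝ᵥ v)) ∧ ∑ s, γ s • x s = 0 ∧
      (Finset.univ.filter fun s => γ s ≠ 0).card = k + 2 := by
  suffices H : ∀ N : ℕ, ∀ γ : ι → ℝ, (Finset.univ.filter fun s => γ s ≠ 0).card = N → γ ≠ 0 →
      γ s0 = 0 → (∀ s, ∀ v ∈ C s, 0 ≤ γ s * (f ⬝ᵥ v)) → ∑ s, γ s • x s = 0 →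
      ∃ γ : ι → ℝ, γ s0 = 0 ∧ (∀ s, ∀ v ∈ C s, 0 ≤ γ s * (f ⬝ᵥ v)) ∧ ∑ s, γ s • x s = 0 ∧
      (Finset.univ.filter fun s => γ s ≠ 0).card = k + 2 from
    H _ γ rfl hγ0 hγs hγ hrel
  intro N
  induction N using Nat.strong_induction_on with
  | _ N ih =>
    intro γ hN hγ0 hγs hγ hrel
    have hge := card_of_rel hsep hx hcard hrel hγ0
    by_cases hle : (Finset.univ.filter fun s => γ s ≠ 0).card = k + 2
    · exact ⟨γ, hγs, hγ, hrel, hle⟩
    obtain ⟨A, hA, hAc⟩ := Finset.exists_subset_card_eq hge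
    have hAγ : ∀ s ∈ A, γ s ≠ 0 := fun s hs => (Finset.mem_filter.1 (hA hs)).2
    obtain ⟨d, hd0, hdA, hdrel⟩ := exists_dep hf x A hAc fun s hs =>
      hfx s fun h => hAγ s hs (h ▸ hγs)
    obtain ⟨s1, hs1, hs1A⟩ : ∃ s1, s1 ∈ (Finset.univ.filter fun s => γ s ≠ 0) ∧ s1 ∉ A := by
      by_contra hcon
      push Not at hcon
      have := Finset.card_le_card hcon
      omega
    obtain ⟨γ', h1, h2, h3, s2, h4, h5⟩ := reduce_rel x hrel hdrel hd0
      (fun s hs => hAγ s (by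
        by_contra h
        exact hs (hdA s h))) (hdA s1 hs1A) (Finset.mem_filter.1 hs1).2
    have hsub : (Finset.univ.filter fun s => γ' s ≠ 0) ⊂ Finset.univ.filter fun s => γ s ≠ 0 := by
      rw [Finset.ssubset_iff_of_subset]
      · exact ⟨s2, by simpa using h4, by simpa using h5⟩
      · intro s hs
        rw [Finset.mem_filter] at hs ⊢
        refine ⟨hs.1, fun h => hs.2 ?_⟩
        obtain ⟨θ, -, hθ⟩ := h3 s
        rw [hθ, h, mul_zero]
    refine ih _ (hN ▸ Finset.card_lt_card hsub) γ' rfl h1 ?_ ?_ h2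
    · obtain ⟨θ, -, hθ⟩ := h3 s0
      rw [hθ, hγs, mul_zero]
    · intro s v hv
      obtain ⟨θ, hθ0, hθ⟩ := h3 s
      rw [hθ, mul_assoc]
      exact mul_nonneg hθ0 (hγ s v hv)

end Shr

/-- The statement of Theorem A (module HT/Pinned, `pinned_step`) for `k` and `ι`. -/
def PinnedStep (k : ℕ) (ι : Type) [Fintype ι] [DecidableEq ι] : Prop :=
  ∀ (C : ι → Set (Fin (k + 2) → ℝ)) (p : ι → Fin (k + 1) → ℝ)
    (_ : ∀ s, IsCone (C s)) (_ : LSep C)
    (A : Finset ι) (_ : A.card = k + 2) (_ : 2 ≤ Aᶜ.card)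
    (f : Fin (k + 2) → ℝ) (_ : f ≠ 0) (w : ι → Fin (k + 2) → ℝ)
    (_ : ∀ s, w s ∈ C s ∧ f ⬝ᵥ w s = 0)
    (_ : ∀ s ∈ A, ∀ v ∈ C s, 0 ≤ f ⬝ᵥ v)
    (α : ι → ℝ) (_ : ∀ s ∈ A, 0 < α s) (_ : ∑ s ∈ A, α s • w s = 0)
    (_ : ∀ j ∉ A, Agree f w p {j}ᶜ)
    (_ : ∀ c ∈ A, LCons C p {c}ᶜ), Agree f w p Set.univ

open Shr in
/-- module HT/Shrink (Theorem B), from Theorem A: if `pinned_step` holds, then so does the Helly
step. -/
theorem helly_step_of {k : ℕ} {ι : Type} [Fintype ι] [DecidableEq ι]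
    (pinned_step : PinnedStep k ι)
    (a : ι → Set (Fin (k + 1) → ℝ)) (p : ι → Fin (k + 1) → ℝ)
    (hconv : ∀ s, Convex ℝ (a s)) (hcomp : ∀ s, IsCompact (a s))
    (hsep : LSep fun s => cone (a s)) (hcard : k + 4 ≤ Fintype.card ι)
    (hcons : ∀ s, LCons (fun s => cone (a s)) p {s}ᶜ) :
    LCons (fun s => cone (a s)) p Set.univ := by
  have hnt : Nontrivial ι := Fintype.one_lt_card_iff_nontrivial.1 (by omega)
  -- the sets are nonempty
  have hne : ∀ s, (a s).Nonempty := by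
    intro s
    obtain ⟨r, hr⟩ := exists_ne s
    obtain ⟨f, x, -, hx, -⟩ := hcons r
    obtain ⟨c, -, z, hz, -⟩ := mem_cone_iff.1 (hx s (fun h => hr h.symm)).1
    exact ⟨z, hz⟩
  choose o ho using hne
  have hp : ∀ t : Fin (k + 1) → ι, Function.Injective t → dt (fun j => p (t j)) ≠ 0 :=
    fun t ht => dt_ne hsep (by omega) hcons t ht
  obtain ⟨τ, hτ0, hτ1, hτ, hlast⟩ := exists_last hconv hcomp hsep ho hp hcons
  rcases eq_or_lt_of_le hτ1 with rfl | hlt
  · exact lcons_one hsep ho hcard hτ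
  obtain ⟨s0, hs0⟩ := hlast hlt
  obtain ⟨f, x, γ', hf, hx, hfx, hag, hγ0', hγs', hγ', hrel'⟩ :=
    exists_pinned hconv hsep ho hp hτ0 hlt (hτ s0) hs0
  set C : ι → Set (Fin (k + 2) → ℝ) := fun s => cone (sh a o τ s) with hCdef
  have hCsub : ∀ s, C s ⊆ cone (a s) := fun s => cone_mono (sh_subset hconv ho hτ0 hτ1 s)
  have hC : ∀ s, IsCone (C s) := fun s => isCone_cone (sh_convex hconv τ s)
  have hsepC : LSep C := LSep.mono' hsep hCsub
  obtain ⟨γ, hγs, hγ, hrel, hγc⟩ := exists_circuit (C := C) hsepC (by omega) hf hx hfx hγ0' hγs'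
    hγ' hrel'
  set A : Finset ι := Finset.univ.filter fun s => γ s ≠ 0 with hA
  have hmemA : ∀ s, s ∈ A ↔ γ s ≠ 0 := fun s => by simp [hA]
  have hs0A : s0 ∉ A := by
    rw [hmemA]
    exact fun h => h hγs
  have hneA : ∀ s ∈ A, s ≠ s0 := fun s hs h => hs0A (h ▸ hs)
  have hJ : 2 ≤ Aᶜ.card := by
    rw [Finset.card_compl, hγc]
    omega
  -- the enumeration of A
  let e := A.equivFinOfCardEq hγc
  let b : Fin (k + 2) → ι := fun i => (e.symm i : ι)
  have hb : Function.Injective b := Subtype.val_injective.comp e.symm.injective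
  have hbA : ∀ i, b i ∈ A := fun i => (e.symm i).2
  have hrelb : ∑ i, γ (b i) • x (b i) = 0 := by
    rw [← hrel, ← Finset.sum_subset (Finset.subset_univ A) (fun s _ hs => ?_),
      ← Finset.sum_coe_sort A]
    · exact e.symm.sum_comp fun s : A => γ s • x s
    · have : γ s = 0 := by
        by_contra h
        exact hs ((hmemA s).2 h)
      simp [this]
  -- all the other hyperplanes coincide with f
  have hsame : ∀ j, j ∉ A → ∃ y : ι → Fin (k + 2) → ℝ,
      (∀ s ∈ ({j}ᶜ : Set ι), y s ∈ C s ∧ f ⬝ᵥ y s = 0) ∧ Agree f y p {j}ᶜ := by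
    intro j hj
    obtain ⟨g, y, hg, hy, hagy⟩ := hτ j
    obtain ⟨c, hc, hcg⟩ := same_hyperplane hC hsepC hp hf (x := x) (B := {s0}ᶜ)
      (fun s hs => ⟨hx s, hfx s hs⟩) hag hg hy hagy b hb (fun i => hneA _ (hbA i))
      (fun i h => hj (h ▸ hbA i)) (fun i => γ (b i)) (fun i => (hmemA _).1 (hbA i)) hrelb
      (fun i v hv => hγ _ v hv)
    refine ⟨y, fun s hs => ⟨(hy s hs).1, ?_⟩, ?_⟩
    · have h2 := (hy s hs).2
      rw [hcg, smul_dotProduct, smul_eq_mul] at h2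
      exact (mul_eq_zero.1 h2).resolve_left hc.ne'
    · rw [hcg] at hagy
      exact Agree.smul_pos hc hagy
  -- the hyperplane meets all the sets
  obtain ⟨j1, hj1A, hj1⟩ : ∃ j, j ∈ Aᶜ ∧ j ≠ s0 :=
    Finset.exists_mem_ne (by omega) s0
  rw [Finset.mem_compl] at hj1A
  obtain ⟨y1, hy1, -⟩ := hsame j1 hj1A
  let w : ι → Fin (k + 2) → ℝ := Function.update x s0 (y1 s0)
  have hwne : ∀ s, s ≠ s0 → w s = x s := fun s hs => Function.update_of_ne hs _ _
  have hw : ∀ s, w s ∈ C s ∧ f ⬝ᵥ w s = 0 := by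
    intro s
    by_cases hs : s = s0
    · rw [hs]
      simp only [w, Function.update_self]
      exact hy1 s0 fun h => hj1 h.symm
    · rw [hwne s hs]
      exact ⟨hx s, hfx s hs⟩
  have hright : ∀ j, j ∉ A → Agree f w p {j}ᶜ := by
    intro j hj
    obtain ⟨y, hy, hagy⟩ := hsame j hj
    exact Agree.rep hC hsepC hf hy (fun s _ => hw s) hagy
  -- the signs
  let ε : ι → ℝ := fun s => if γ s < 0 then -1 else 1
  have hεε : ∀ s, ε s * ε s = 1 := by
    intro s
    simp only [ε]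
    split_ifs <;> norm_num
  have hγε : ∀ s, |γ s| * ε s = γ s := by
    intro s
    by_cases h : γ s < 0
    · simp only [ε, h, if_true]
      rw [abs_of_neg h]
      ring
    · simp only [ε, h, if_false]
      rw [abs_of_nonneg (not_lt.1 h), mul_one]
  have hε0 : ∀ s, ε s ≠ 0 := fun s h => by
    have := hεε s
    rw [h, mul_zero] at this
    exact zero_ne_one this
  let C' : ι → Set (Fin (k + 2) → ℝ) := fun s => {v | ε s • v ∈ C s}
  have hC' : ∀ s, IsCone (C' s) := by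
    intro s
    refine ⟨fun v hv c hc => ?_, fun v hv u hu => ?_⟩
    · show ε s • (c • v) ∈ C s
      rw [smul_comm]
      exact (hC s).smul _ hv c hc
    · show ε s • (v + u) ∈ C s
      rw [smul_add]
      exact (hC s).add _ hv _ hu
  have hsepC' : LSep C' := by
    intro t ht v hv
    have h1 := hsepC t ht (fun j => ε (t j) • v j) hv
    have h2 := h1.units_smul fun j => Units.mk0 (ε (t j)) (hε0 _)
    have h3 : ((fun j => Units.mk0 (ε (t j)) (hε0 _)) • fun j => ε (t j) • v j) = v := by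
      funext j
      simp only [Pi.smul_apply', Units.smul_mk0, smul_smul, hεε, one_smul]
    rwa [h3] at h2
  have hback : ∀ s (v : Fin (k + 2) → ℝ), v ∈ C s → ε s • v ∈ C' s := by
    intro s v hv
    show ε s • (ε s • v) ∈ C s
    rw [smul_smul, hεε, one_smul]
    exact hv
  have hres : Agree f (fun s => ε s • w s) (fun s => ε s • p s) Set.univ := by
    refine pinned_step C' (fun s => ε s • p s) hC' hsepC' A hγc hJ f hf (fun s => ε s • w s)
      (fun s => ⟨hback s _ (hw s).1, ?_⟩) ?_ (fun s => |γ s|)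
      (fun s hs => abs_pos.2 ((hmemA s).1 hs)) ?_ (fun j hj => Agree.sgn ε (hright j hj)) ?_
    · rw [dotProduct_smul, (hw s).2, smul_zero]
    · intro s hs v hv
      have h1 := hγ s _ hv
      rw [dotProduct_smul, smul_eq_mul] at h1
      have h2 : γ s * (ε s * (f ⬝ᵥ v)) = |γ s| * (f ⬝ᵥ v) := by
        rw [← hγε s, abs_mul, abs_abs]
        have h3 : |ε s| = 1 := by
          simp only [ε]
          split_ifs <;> simp
        rw [h3]
        linear_combination (|γ s| * (f ⬝ᵥ v)) * hεε s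
      rw [h2] at h1
      exact nonneg_of_mul_nonneg_right h1 (abs_pos.2 ((hmemA s).1 hs))
    · rw [← hrel, ← Finset.sum_subset (Finset.subset_univ A) (fun s _ hs => ?_)]
      · refine Finset.sum_congr rfl fun s hs => ?_
        rw [smul_smul, hγε, hwne s (hneA s hs)]
      · have : γ s = 0 := by
          by_contra h
          exact hs ((hmemA s).2 h)
        simp [this]
    · intro c _
      obtain ⟨g, y, hg, hy, hagy⟩ := hτ c
      refine ⟨g, fun s => ε s • y s, hg, fun s hs => ⟨hback s _ (hy s hs).1, ?_⟩,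
        Agree.sgn ε hagy⟩
      rw [dotProduct_smul, (hy s hs).2, smul_zero]
  have hfin : Agree f w p Set.univ := by
    have h1 := Agree.sgn ε hres
    simp only [smul_smul, hεε, one_smul] at h1
    exact h1
  exact ⟨f, w, hf, fun s _ => ⟨hCsub s (hw s).1, (hw s).2⟩, hfin⟩

end Pool.Agent.HT
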