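import Mathlib
import Pool.Agent.HT.Shrink
import Pool.Agent.HT.Pinned


namespace Pool.Agent.HT

open scoped Matrix

theorem helly_step {k : ℕ} {ι : Type} [Fintype ι] [DecidableEq ι]
    (a : ι → Set (Fin (k + 1) → ℝ)) (p : ι → Fin (k + 1) → ℝ)
    (hconv : ∀ s, Convex ℝ (a s)) (hcomp : ∀ s, IsCompact (a s))
    (hsep : LSep fun s => cone (a s)) (hcard : k + 4 ≤ Fintype.card ι)
    (hcons : ∀ s, LCons (fun s => cone (a s)) p {s}ᶜ) :
    LCons (fun s => cone (a s)) p Set.univ :=
  helly_step_of (fun C p => pinned_step C p) a p hconv hcomp hsep hcard hcons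

end Pool.Agent.HT
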