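import Mathlib
import Pool.Agent.HT.Defs

/-!
# MP_b157f3_co: module HT/Literal

No Helly number for families in `ℝ^d`, `d ≥ 3`, that are merely pairwise disjoint.
-/

namespace Pool.Agent.HT

open scoped Matrix

namespace Literal

variable {n N : ℕ}

/-- The points `e_j` in `z`-space and the points `(m, y m)` of the plane. -/
noncomputable def P (y : Fin N → ℝ) : Fin n ⊕ Fin N → Fin (n + 2) → ℝ
  | Sum.inl j => Fin.cons 0 (Fin.cons 0 (Pi.single j 1))
  | Sum.inr m => Fin.cons (m : ℝ) (Fin.cons (y m) 0)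

/-- Homogeneous coordinates. -/
noncomputable def PH (y : Fin N → ℝ) (s : Fin n ⊕ Fin N) : Fin (n + 3) → ℝ := Fin.cons 1 (P y s)

/-- The planar determinant. -/
def D (y : Fin N → ℝ) (a b c : Fin N) : ℝ :=
  ((b : ℝ) - a) * (y c - y a) - ((c : ℝ) - a) * (y b - y a)

/-- Splitting the first three coordinates off. -/
def eqv (n : ℕ) : Fin 3 ⊕ Fin n ≃ Fin (n + 3) where
  toFun := Sum.elim ![0, Fin.succ 0, Fin.succ (Fin.succ 0)] (fun j => j.succ.succ.succ)
  invFun := Fin.cons (Sum.inl 0) (Fin.cons (Sum.inl 1) (Fin.cons (Sum.inl 2) Sum.inr))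
  left_inv := by
    intro s
    rcases s with i | j
    · fin_cases i <;> rfl
    · rfl
  right_inv := by
    intro i
    refine Fin.cases ?_ (fun i => Fin.cases ?_ (fun i => Fin.cases ?_ (fun i => ?_) i) i) i <;>
      rfl

theorem det_block (y : Fin N → ℝ) (t : Fin (n + 3) → Fin n ⊕ Fin N)
    (g : Fin 3 ⊕ Fin n ≃ Fin (n + 3)) (abc : Fin 3 → Fin N)
    (h1 : ∀ i, t (g (Sum.inl i)) = Sum.inr (abc i)) (h2 : ∀ j, t (g (Sum.inr j)) = Sum.inl j) :
    ((Matrix.of fun i => PH y (t i)).submatrix g (eqv n)).det = D y (abc 0) (abc 1) (abc 2) := by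
  have hM : (Matrix.of fun i => PH y (t i)).submatrix g (eqv n)
      = Matrix.fromBlocks (Matrix.of fun i j => PH (n := n) y (Sum.inr (abc i)) (eqv n (Sum.inl j))) 0
        (Matrix.of fun i j => PH (n := n) y (Sum.inl i) (eqv n (Sum.inl j))) 1 := by
    ext s s'
    rcases s with i | j <;> rcases s' with i' | j'
    · simp [h1]
    · simp [h1, PH, P, eqv]
    · simp [h2]
    · simp [h2, PH, P, eqv, Matrix.one_apply, Pi.single_apply, eq_comm]
  have hP : ∀ i : Fin 3, PH (n := n) y (Sum.inr (abc i)) (eqv n (Sum.inl 0)) = 1 ∧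
      PH (n := n) y (Sum.inr (abc i)) (eqv n (Sum.inl 1)) = (abc i : ℝ) ∧
      PH (n := n) y (Sum.inr (abc i)) (eqv n (Sum.inl 2)) = y (abc i) := fun i => ⟨rfl, rfl, rfl⟩
  rw [hM, Matrix.det_fromBlocks_zero₁₂, Matrix.det_one, mul_one, Matrix.det_fin_three]
  simp only [Matrix.of_apply, hP, D]
  ring

theorem dt_eq (y : Fin N → ℝ) (t : Fin (n + 3) → Fin n ⊕ Fin N)
    (g : Fin 3 ⊕ Fin n ≃ Fin (n + 3)) (abc : Fin 3 → Fin N)
    (h1 : ∀ i, t (g (Sum.inl i)) = Sum.inr (abc i)) (h2 : ∀ j, t (g (Sum.inr j)) = Sum.inl j) :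
    dt (fun i => PH y (t i))
      = ((Equiv.Perm.sign (g.symm.trans (eqv n)) : ℤ) : ℝ) * D y (abc 0) (abc 1) (abc 2) := by
  have h := det_block y t g abc h1 h2
  have e1 : (Matrix.of fun i => PH y (t i)).submatrix g (eqv n)
      = ((Matrix.of fun i => PH y (t i)).submatrix id (g.symm.trans (eqv n))).submatrix g g := by
    ext i j
    simp
  rw [e1, Matrix.det_submatrix_equiv_self, Matrix.det_permute'] at h
  rw [← h, ← mul_assoc]
  have hs : ((Equiv.Perm.sign (g.symm.trans (eqv n)) : ℤ) : ℝ)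
      * ((Equiv.Perm.sign (g.symm.trans (eqv n)) : ℤ) : ℝ) = 1 := by
    rcases Int.units_eq_one_or (Equiv.Perm.sign (g.symm.trans (eqv n))) with h | h <;>
      rw [h] <;> simp
  rw [hs, one_mul]
  rfl

/-- Every determinant is `0` or, up to a sign not depending on `y`, a planar one. -/
theorem key (t : Fin (n + 3) → Fin n ⊕ Fin N) :
    (∀ y : Fin N → ℝ, dt (fun i => PH y (t i)) = 0) ∨
    ∃ a b c : Fin N, a < b ∧ b < c ∧ (∃ i, t i = Sum.inr a) ∧ (∃ i, t i = Sum.inr b) ∧
      (∃ i, t i = Sum.inr c) ∧ ∃ ε : ℝ, (ε = 1 ∨ ε = -1) ∧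
        ∀ y : Fin N → ℝ, dt (fun i => PH y (t i)) = ε * D y a b c := by
  classical
  by_cases hinj : Function.Injective t
  swap
  · left
    intro y
    obtain ⟨i, j, hij, hne⟩ : ∃ i j, t i = t j ∧ i ≠ j := by
      simpa [Function.Injective] using hinj
    exact Matrix.det_zero_of_row_eq hne (by ext l; simp [hij])
  by_cases hall : ∀ j : Fin n, ∃ i, t i = Sum.inl j
  swap
  · left
    intro y
    push Not at hall
    obtain ⟨j, hj⟩ := hall
    refine Matrix.det_eq_zero_of_column_eq_zero (j.succ.succ.succ) fun i => ?_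
    rcases hti : t i with j' | m
    · have : j' ≠ j := fun h => hj i (by rw [hti, h])
      simp [hti, PH, P, this.symm]
    · simp [hti, PH, P]
  right
  set S : Finset (Fin N) := Finset.univ.filter fun m => ∃ i, t i = Sum.inr m with hS
  have hcard : S.card = 3 := by
    have h1 : (Finset.univ.image t).card = n + 3 := by
      rw [Finset.card_image_of_injective _ hinj]; simp
    have h2 : Finset.univ.image t
        = (Finset.univ : Finset (Fin n)).disjSum S := by
      ext s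
      simp only [Finset.mem_image, Finset.mem_univ, true_and, Finset.mem_disjSum]
      constructor
      · rintro ⟨i, rfl⟩
        rcases hti : t i with j | m
        · left; exact ⟨j, rfl⟩
        · right; exact ⟨m, by simp [hS]; exact ⟨i, hti⟩, rfl⟩
      · rintro (⟨j, rfl⟩ | ⟨m, hm, rfl⟩)
        · exact hall j
        · simpa [hS] using hm
    rw [h2, Finset.card_disjSum] at h1
    simp at h1
    omega
  let abc : Fin 3 ↪o Fin N := S.orderEmbOfFin hcard
  have habc : ∀ i, ∃ l, t l = Sum.inr (abc i) := by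
    intro i
    have := Finset.orderEmbOfFin_mem S hcard i
    exact (Finset.mem_filter.mp this).2
  let φ : Fin 3 ⊕ Fin n → Fin n ⊕ Fin N := Sum.elim (fun i => Sum.inr (abc i)) Sum.inl
  have hφ : ∀ s, ∃ l, t l = φ s := by
    intro s
    rcases s with i | j
    · exact habc i
    · exact hall j
  choose g0 hg0 using hφ
  have hg0inj : Function.Injective g0 := by
    intro s s' h
    have h' : φ s = φ s' := by rw [← hg0, ← hg0, h]
    rcases s with i | j <;> rcases s' with i' | j'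
    · simp only [φ, Sum.elim_inl, Sum.inr.injEq] at h'
      rw [abc.injective h']
    · simp [φ] at h'
    · simp [φ] at h'
    · simp only [φ, Sum.elim_inr, Sum.inl.injEq] at h'
      rw [h']
  have hg0bij : Function.Bijective g0 := by
    rw [Fintype.bijective_iff_injective_and_card]
    refine ⟨hg0inj, ?_⟩
    simp [add_comm]
  let g : Fin 3 ⊕ Fin n ≃ Fin (n + 3) := Equiv.ofBijective g0 hg0bij
  have hmain := fun y => dt_eq (n := n) (N := N) y t g abc
    (fun i => by simpa [g, φ] using hg0 (Sum.inl i)) (fun j => by simpa [g, φ] using hg0 (Sum.inr j))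
  refine ⟨abc 0, abc 1, abc 2, abc.strictMono (by decide), abc.strictMono (by decide), habc 0,
    habc 1, habc 2, _, ?_, hmain⟩
  rcases Int.units_eq_one_or (Equiv.Perm.sign (g.symm.trans (eqv n))) with h | h
  · left; rw [h]; simp
  · right; rw [h]; simp

/-- The determinant of the standard tuples. -/
theorem dt_std (y : Fin N → ℝ) (a b c : Fin N) :
    dt (fun i => PH y ((Fin.cons (Sum.inr a) (Fin.cons (Sum.inr b) (Fin.cons (Sum.inr c) Sum.inl)) :
      Fin (n + 3) → Fin n ⊕ Fin N) i)) = D y a b c := by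
  rw [dt_eq y _ (eqv n) ![a, b, c]]
  · simp
  · intro i
    fin_cases i <;> rfl
  · intro j
    rfl

theorem orn_eq (f : Fin (n + 4) → ℝ) (X : Fin (n + 3) → Fin (n + 4) → ℝ) (lam : Fin (n + 3) → ℝ)
    (q : Fin (n + 3) → Fin (n + 2) → ℝ)
    (hX : ∀ i, X i = lam i • (Fin.cons 1 (Fin.cons 0 (q i)) : Fin (n + 4) → ℝ)) :
    orn (k := n + 2) f X = - f 1 * (∏ i, lam i) * dt (fun i => (Fin.cons 1 (q i) : Fin (n + 3) → ℝ)) := by
  unfold orn
  rw [Matrix.det_succ_column _ 1, Fin.sum_univ_succ, Finset.sum_eq_zero, add_zero]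
  · have e1 : (Matrix.of (Fin.cons f X : Fin (n + 4) → Fin (n + 4) → ℝ)).submatrix
        (Fin.succAbove 0) (Fin.succAbove 1)
        = Matrix.of fun i j => lam i * (Matrix.of fun i => (Fin.cons 1 (q i) : Fin (n + 3) → ℝ)) i j := by
      ext i j
      simp only [Matrix.submatrix_apply, Matrix.of_apply, Fin.zero_succAbove, Fin.cons_succ, hX,
        Pi.smul_apply, smul_eq_mul]
      congr 1
      refine Fin.cases ?_ (fun j => ?_) j
      · simp
      · have : (Fin.succAbove (1 : Fin (n + 4)) (Fin.succ j)) = Fin.succ (Fin.succ j) := by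
          rw [Fin.succAbove_of_le_castSucc]
          rw [Fin.le_def]
          simp
        rw [this]
        simp
    have e2 := Matrix.det_mul_column lam (Matrix.of fun i => (Fin.cons 1 (q i) : Fin (n + 3) → ℝ))
    rw [e1, e2]
    simp [dt]
    ring
  · intro i _
    have : X i 1 = 0 := by
      rw [hX]
      simp
    simp [this]

/-! ### The example -/

/-- `m² + (m mod 2)` -/
def base (m : Fin N) : ℝ := (((m : ℕ) : ℝ)) ^ 2 + (((m : ℕ) % 2 : ℕ) : ℝ)

/-- Almost all triples of base points are positively oriented by at least `1`. -/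
theorem D_base (a b c : Fin N) (hab : a < b) (hbc : b < c)
    (h : ¬ ((b : ℕ) = a + 1 ∧ (c : ℕ) = b + 1 ∧ (b : ℕ) % 2 = 1)) : 1 ≤ D base a b c := by
  obtain ⟨a, ha⟩ := a
  obtain ⟨b, hb⟩ := b
  obtain ⟨c, hc⟩ := c
  simp only [Fin.mk_lt_mk] at hab hbc
  simp only [] at h
  obtain ⟨p, rfl⟩ := Nat.exists_eq_add_of_lt hab
  obtain ⟨q, rfl⟩ := Nat.exists_eq_add_of_lt hbc
  unfold D base
  simp only []
  have e1 : ((a + p + 1) : ℕ) % 2 = 0 ∨ ((a + p + 1) : ℕ) % 2 = 1 := by omega
  have hA : (0:ℝ) ≤ ((a % 2 : ℕ) : ℝ) := by positivity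
  have hC : (0:ℝ) ≤ (((a + p + 1 + q + 1) % 2 : ℕ) : ℝ) := by positivity
  have hp : (0:ℝ) ≤ (p:ℝ) := by positivity
  have hq : (0:ℝ) ≤ (q:ℝ) := by positivity
  have hpq : (0:ℝ) ≤ (p:ℝ) * q := by positivity
  rcases e1 with e1 | e1
  · rw [e1]
    push_cast
    nlinarith [mul_nonneg hA hq, mul_nonneg hC hp, mul_nonneg hpq hp, mul_nonneg hpq hq,
      mul_nonneg hp hp, mul_nonneg hq hq]
  · rw [e1]
    have hpq1 : p ≠ 0 ∨ q ≠ 0 := by
      by_contra hcon
      push Not at hcon
      obtain ⟨rfl, rfl⟩ := hcon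
      exact h ⟨by omega, by omega, e1⟩
    have hpq2 : (1:ℝ) ≤ (p:ℝ) + q := by
      have : 1 ≤ p + q := by omega
      exact_mod_cast this
    push_cast
    nlinarith [mul_nonneg hA hq, mul_nonneg hC hp, mul_nonneg hpq hp, mul_nonneg hpq hq,
      mul_nonneg hp hp, mul_nonneg hq hq]

theorem D_special (y : Fin N → ℝ) (a b c : Fin N) (hb : (b : ℕ) = a + 1) (hc : (c : ℕ) = b + 1)
    (hb1 : (b : ℕ) % 2 = 1) (hy : y b = base b) :
    D y a b c = (y a - base a) + (y c - base c) := by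
  obtain ⟨a, ha'⟩ := a
  obtain ⟨b, hb'⟩ := b
  obtain ⟨c, hc'⟩ := c
  simp only [] at hb hc hb1
  subst hb
  subst hc
  unfold D
  rw [hy]
  unfold base
  have e1 : a % 2 = 0 := by omega
  have e2 : (a + 1 + 1) % 2 = 0 := by omega
  simp only [e1, e2, hb1]
  push_cast
  ring

theorem D_pos {L : ℕ} (y : Fin (2 * L + 3) → ℝ)
    (hy : ∀ m, |y m - base m| ≤ 1 / (8 * L + 16)) (a b c : Fin (2 * L + 3)) (hab : a < b)
    (hbc : b < c)
    (h : ¬ ((b : ℕ) = a + 1 ∧ (c : ℕ) = b + 1 ∧ (b : ℕ) % 2 = 1)) : 0 < D y a b c := by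
  have h1 := D_base a b c hab hbc h
  have h2 : D y a b c = D base a b c + (((b:ℝ) - a) * ((y c - base c) - (y a - base a))
      - ((c : ℝ) - a) * ((y b - base b) - (y a - base a))) := by
    unfold D
    ring
  have hL : (0:ℝ) < 8 * L + 16 := by positivity
  set η : ℝ := 1 / (8 * L + 16) with hη
  have hη0 : 0 < η := by positivity
  have hηL : (8 * L + 16) * η = 1 := by rw [hη]; field_simp
  have hab' : ((a:ℕ):ℝ) < b := by exact_mod_cast hab
  have hbc' : ((b:ℕ):ℝ) < c := by exact_mod_cast hbc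
  have hc' : ((c:ℕ):ℝ) ≤ 2 * L + 2 := by
    have : (c:ℕ) ≤ 2 * L + 2 := by have := c.2; omega
    exact_mod_cast this
  have ha0 : (0:ℝ) ≤ ((a:ℕ):ℝ) := by positivity
  have ya := abs_le.mp (hy a)
  have yb := abs_le.mp (hy b)
  have yc := abs_le.mp (hy c)
  have k1 : -((2 * L + 2) * (2 * η)) ≤ ((b:ℝ) - a) * ((y c - base c) - (y a - base a)) := by
    have : |((b:ℝ) - a) * ((y c - base c) - (y a - base a))| ≤ (2 * L + 2) * (2 * η) := by
      rw [abs_mul]
      apply mul_le_mul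
      · rw [abs_le]; constructor <;> linarith
      · rw [abs_le]; constructor <;> linarith
      · positivity
      · positivity
    exact (abs_le.mp this).1
  have k2 : ((c:ℝ) - a) * ((y b - base b) - (y a - base a)) ≤ (2 * L + 2) * (2 * η) := by
    have : |((c:ℝ) - a) * ((y b - base b) - (y a - base a))| ≤ (2 * L + 2) * (2 * η) := by
      rw [abs_mul]
      apply mul_le_mul
      · rw [abs_le]; constructor <;> linarith
      · rw [abs_le]; constructor <;> linarith
      · positivity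
      · positivity
    exact (abs_le.mp this).2
  rw [h2]
  nlinarith

/-- The freedom of the `m`-th set. -/
noncomputable def fr {L : ℕ} (m : Fin (2 * L + 3)) : ℝ :=
  if (m : ℕ) % 2 = 0 ∧ 0 < (m : ℕ) ∧ (m : ℕ) < 2 * L + 2 then 1 / (8 * L + 16) else 0

theorem fr_nonneg {L : ℕ} (m : Fin (2 * L + 3)) : 0 ≤ fr m := by
  unfold fr
  split_ifs <;> positivity

theorem fr_le {L : ℕ} (m : Fin (2 * L + 3)) : fr m ≤ 1 / (8 * L + 16) := by
  unfold fr
  split_ifs
  · exact le_rfl
  · positivity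

/-- The point of `ℝ^(n+3)` with planar coordinates `(m, s)`. -/
noncomputable def pt {L : ℕ} (n : ℕ) (m : Fin (2 * L + 3)) (s : ℝ) : Fin (n + 3) → ℝ :=
  Fin.cons 0 (Fin.cons ((m : ℕ) : ℝ) (Fin.cons s 0))

/-- The sets. -/
noncomputable def A (n L : ℕ) : Fin n ⊕ Fin (2 * L + 3) → Set (Fin (n + 3) → ℝ)
  | Sum.inl j => {Fin.cons 0 (Fin.cons 0 (Fin.cons 0 (Pi.single j 1)))}
  | Sum.inr m => pt n m '' Set.Icc (base m - fr m) (base m + fr m)

theorem A_convex (n L : ℕ) (s : Fin n ⊕ Fin (2 * L + 3)) : Convex ℝ (A n L s) := by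
  rcases s with j | m
  · exact convex_singleton _
  · rintro _ ⟨u, hu, rfl⟩ _ ⟨v, hv, rfl⟩ α β hα hβ hαβ
    refine ⟨α • u + β • v, convex_Icc _ _ hu hv hα hβ hαβ, ?_⟩
    have hm : ((m : ℕ) : ℝ) = α * ((m : ℕ) : ℝ) + β * ((m : ℕ) : ℝ) := by
      rw [← add_mul, hαβ, one_mul]
    ext i
    refine Fin.cases ?_ (fun i => Fin.cases ?_ (fun i => Fin.cases ?_ (fun i => ?_) i) i) i
    · simp [pt]
    · simpa [pt] using hm
    · rfl
    · simp [pt]

theorem A_compact (n L : ℕ) (s : Fin n ⊕ Fin (2 * L + 3)) : IsCompact (A n L s) := by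
  rcases s with j | m
  · exact isCompact_singleton
  · apply isCompact_Icc.image
    apply continuous_pi
    intro i
    refine Fin.cases ?_ (fun i => Fin.cases ?_ (fun i => Fin.cases ?_ (fun i => ?_) i) i) i
    · simp only [pt, Fin.cons_zero]; exact continuous_const
    · simp only [pt, Fin.cons_zero, Fin.cons_succ]; exact continuous_const
    · simp only [pt, Fin.cons_zero, Fin.cons_succ]; exact continuous_id
    · simp only [pt, Fin.cons_succ]; exact continuous_const

theorem A_disjoint (n L : ℕ) (s t : Fin n ⊕ Fin (2 * L + 3)) (hst : s ≠ t) :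
    Disjoint (A n L s) (A n L t) := by
  rw [Set.disjoint_left]
  rcases s with j | m <;> rcases t with j' | m'
  · rintro x hx hx'
    rw [A, Set.mem_singleton_iff] at hx hx'
    rw [hx] at hx'
    apply hst
    have := congrFun hx' (j.succ.succ.succ)
    simp only [Fin.cons_succ, Pi.single_apply] at this
    by_cases h : j = j'
    · rw [h]
    · simp [h] at this
  · rintro x hx ⟨u, _, rfl⟩
    rw [A, Set.mem_singleton_iff] at hx
    have := congrFun hx (j.succ.succ.succ)
    simp [pt] at this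
  · rintro x ⟨u, _, rfl⟩ hx
    rw [A, Set.mem_singleton_iff] at hx
    have := congrFun hx (j'.succ.succ.succ)
    simp [pt] at this
  · rintro x ⟨u, _, rfl⟩ ⟨v, _, h⟩
    have := congrFun h (Fin.succ 0)
    simp only [pt, Fin.cons_succ, Fin.cons_zero, Nat.cast_inj] at this
    apply hst
    rw [Fin.ext this.symm]

/-- Points of the cones over the sets. -/
theorem mem_cone {n L : ℕ} {s : Fin n ⊕ Fin (2 * L + 3)} {v : Fin (n + 4) → ℝ}
    (hv : v ∈ cone (A n L s)) : 0 < v 0 ∧ ∃ u : ℝ,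
      (∀ m, s = Sum.inr m → |u - base m| ≤ fr m) ∧
      v = v 0 • (Fin.cons 1 (Fin.cons 0 (P (fun _ => u) s)) : Fin (n + 4) → ℝ) := by
  obtain ⟨h0, h1⟩ := hv
  refine ⟨h0, ?_⟩
  rcases s with j | m
  · rw [A, Set.mem_singleton_iff] at h1
    refine ⟨0, fun m hm => by simp at hm, ?_⟩
    ext i
    refine Fin.cases (by simp) (fun i => ?_) i
    have := congrFun h1 i
    simp only [Pi.smul_apply, Fin.cons_succ, smul_eq_mul]
    rw [div_eq_iff h0.ne'] at this
    rw [this, mul_comm]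
    rfl
  · obtain ⟨u, hu, h1⟩ := h1
    refine ⟨u, ?_, ?_⟩
    · intro m' hm'
      rw [Sum.inr.injEq] at hm'
      subst hm'
      rw [abs_le]
      constructor <;> linarith [hu.1, hu.2]
    · ext i
      refine Fin.cases (by simp) (fun i => ?_) i
      have := congrFun h1 i
      simp only [Pi.smul_apply, Fin.cons_succ, smul_eq_mul]
      rw [eq_div_iff h0.ne'] at this
      rw [← this, mul_comm]
      rfl

theorem mem_cone_of {n L : ℕ} (s : Fin n ⊕ Fin (2 * L + 3)) (y : Fin (2 * L + 3) → ℝ)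
    (hy : ∀ m, s = Sum.inr m → |y m - base m| ≤ fr m) :
    (Fin.cons 1 (Fin.cons 0 (P y s)) : Fin (n + 4) → ℝ) ∈ cone (A n L s) := by
  refine ⟨by simp, ?_⟩
  rcases s with j | m
  · rw [A, Set.mem_singleton_iff]
    ext i
    simp [P]
  · refine ⟨y m, ?_, ?_⟩
    · have := abs_le.mp (hy m rfl)
      constructor <;> linarith [this.1, this.2]
    · ext i
      simp [P, pt]

/-- The heights of the points of the ordering. -/
noncomputable def yP {L : ℕ} (m : Fin (2 * L + 3)) : ℝ :=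
  base m + if (m : ℕ) % 2 = 0 then
    (-1) ^ ((m : ℕ) / 2) * ((((m : ℕ) / 2 : ℕ) : ℝ) * (1 / ((L + 1) * (8 * L + 16)))) else 0

/-- The heights for a transversal of all sets except the `r`-th. -/
noncomputable def yX {L : ℕ} (r m : Fin (2 * L + 3)) : ℝ :=
  if m < r then yP m else base m + if (m : ℕ) % 2 = 0 then
    (-1) ^ ((m : ℕ) / 2) *
      (((((m : ℕ) / 2 : ℕ) : ℝ) - (L + 1)) * (1 / ((L + 1) * (8 * L + 16)))) else 0

theorem yP_odd {L : ℕ} (m : Fin (2 * L + 3)) (hm : (m : ℕ) % 2 = 1) : yP m = base m := by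
  simp [yP, hm]

theorem yX_odd {L : ℕ} (r m : Fin (2 * L + 3)) (hm : (m : ℕ) % 2 = 1) : yX r m = base m := by
  simp [yX, yP, hm]

theorem aux_bound {L : ℕ} (k : ℕ) (z : ℝ) (hz : |z| ≤ L + 1) :
    |(-1 : ℝ) ^ k * (z * (1 / ((L + 1) * (8 * L + 16))))| ≤ 1 / (8 * L + 16) := by
  rw [abs_mul, abs_pow, abs_neg, abs_one, one_pow, one_mul, abs_mul]
  have h1 : (0:ℝ) < (L:ℝ) + 1 := by positivity
  have h2 : (0:ℝ) < 8 * (L:ℝ) + 16 := by positivity
  rw [abs_of_pos (show (0:ℝ) < 1 / ((L + 1) * (8 * L + 16)) by positivity)]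
  calc |z| * (1 / (((L:ℝ) + 1) * (8 * L + 16)))
      ≤ (L + 1) * (1 / (((L:ℝ) + 1) * (8 * L + 16))) := by
        apply mul_le_mul_of_nonneg_right hz (by positivity)
    _ = 1 / (8 * L + 16) := by field_simp

theorem yP_bound {L : ℕ} (m : Fin (2 * L + 3)) : |yP m - base m| ≤ 1 / (8 * L + 16) := by
  unfold yP
  rw [add_sub_cancel_left]
  split_ifs with h
  · apply aux_bound
    rw [Nat.abs_cast]
    have : (m : ℕ) / 2 ≤ L + 1 := by have := m.2; omega
    exact_mod_cast this
  · rw [abs_zero]; positivity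

theorem yX_bound {L : ℕ} (r m : Fin (2 * L + 3)) : |yX r m - base m| ≤ 1 / (8 * L + 16) := by
  unfold yX
  by_cases hmr : m < r
  · rw [if_pos hmr]; exact yP_bound m
  rw [if_neg hmr, add_sub_cancel_left]
  split_ifs with h
  · apply aux_bound
    have h1 : (((m : ℕ) / 2 : ℕ) : ℝ) ≤ L + 1 := by
      have : (m : ℕ) / 2 ≤ L + 1 := by have := m.2; omega
      exact_mod_cast this
    have h2 : (0:ℝ) ≤ (((m : ℕ) / 2 : ℕ) : ℝ) := by positivity
    rw [abs_le]
    constructor <;> linarith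
  · rw [abs_zero]; positivity

theorem yX_fr {L : ℕ} (r m : Fin (2 * L + 3)) (hrm : m ≠ r) : |yX r m - base m| ≤ fr m := by
  by_cases h : (m : ℕ) % 2 = 0 ∧ 0 < (m : ℕ) ∧ (m : ℕ) < 2 * L + 2
  · have := yX_bound r m
    rwa [fr, if_pos h]
  rw [fr, if_neg h, abs_nonpos_iff, sub_eq_zero]
  by_cases hm : (m : ℕ) % 2 = 1
  · exact yX_odd r m hm
  by_cases hm0 : (m : ℕ) = 0
  · have hlt : m < r := by
      rw [Fin.lt_def]
      have : (m : ℕ) ≠ r := fun h => hrm (Fin.ext h)
      omega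
    simp [yX, hlt, yP, hm0]
  · have hml : (m : ℕ) = 2 * L + 2 := by
      have := m.2
      omega
    have hlt : ¬ m < r := by
      rw [Fin.lt_def]
      have := r.2
      omega
    have h2 : (m : ℕ) / 2 = L + 1 := by omega
    rw [yX, if_neg hlt, h2]
    simp

theorem yP_special {L : ℕ} (a c : Fin (2 * L + 3)) (ha : (a : ℕ) % 2 = 0)
    (hc : (c : ℕ) = a + 2) : (yP a - base a) + (yP c - base c)
      = - ((-1) ^ ((a : ℕ) / 2) * (1 / ((L + 1) * (8 * L + 16)))) := by
  have e1 : (c : ℕ) % 2 = 0 := by omega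
  have e2 : (c : ℕ) / 2 = (a : ℕ) / 2 + 1 := by omega
  unfold yP
  rw [if_pos ha, if_pos e1, e2, pow_succ]
  push_cast
  ring

theorem yX_special {L : ℕ} (r a c : Fin (2 * L + 3)) (ha : (a : ℕ) % 2 = 0)
    (hc : (c : ℕ) = a + 2) (har : a ≠ r) (hcr : c ≠ r) (hbr : (r : ℕ) ≠ a + 1) :
    (yX r a - base a) + (yX r c - base c)
      = - ((-1) ^ ((a : ℕ) / 2) * (1 / ((L + 1) * (8 * L + 16)))) := by
  have har' : (a : ℕ) ≠ r := fun h => har (Fin.ext h)
  have hcr' : (c : ℕ) ≠ r := fun h => hcr (Fin.ext h)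
  rcases lt_or_ge (a : ℕ) (r : ℕ) with h | h
  · have h1 : a < r := h
    have h2 : c < r := by rw [Fin.lt_def]; omega
    rw [yX, if_pos h1, yX, if_pos h2]
    exact yP_special a c ha hc
  · have h1 : ¬ a < r := by rw [Fin.lt_def]; omega
    have h2 : ¬ c < r := by rw [Fin.lt_def]; omega
    have e1 : (c : ℕ) % 2 = 0 := by omega
    have e2 : (c : ℕ) / 2 = (a : ℕ) / 2 + 1 := by omega
    rw [yX, if_neg h1, yX, if_neg h2, if_pos ha, if_pos e1, e2, pow_succ]
    push_cast
    ring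

theorem lcons_compl (n L : ℕ) (r : Fin (2 * L + 3)) :
    LCons (k := n + 2) (fun s => cone (A n L s)) (fun s => (Fin.cons 1 (P yP s) : Fin (n + 3) → ℝ))
      {Sum.inr r}ᶜ := by
  refine ⟨Pi.single 1 (-1), fun s => Fin.cons 1 (Fin.cons 0 (P (yX r) s)), ?_, ?_, ?_⟩
  · intro h
    have := congrFun h 1
    simp at this
  · intro s hs
    refine ⟨mem_cone_of s _ ?_, ?_⟩
    · intro m hm
      apply yX_fr
      rintro rfl
      exact hs hm
    · rw [single_dotProduct]
      have : (Fin.cons 1 (Fin.cons 0 (P (yX r) s)) : Fin (n + 4) → ℝ) 1 = 0 := rfl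
      show -1 * (Fin.cons 1 (Fin.cons 0 (P (yX r) s)) : Fin (n + 4) → ℝ) 1 = 0
      rw [this, mul_zero]
  · intro t ht
    rw [orn_eq _ _ (fun _ => 1) (fun i => P (yX r) (t i)) (fun i => by rw [one_smul])]
    simp only [Pi.single_eq_same, neg_neg, Finset.prod_const_one, mul_one, one_mul]
    change SignType.sign (dt fun i => PH (yX r) (t i)) = SignType.sign (dt fun i => PH yP (t i))
    rcases key (N := 2 * L + 3) t with h | ⟨a, b, c, hab, hbc, ⟨ia, hia⟩, ⟨ib, hib⟩, ⟨ic, hic⟩, ε, hε, h⟩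
    · rw [h, h]
    · rw [h, h, sign_mul, sign_mul]
      congr 1
      by_cases hsp : (b : ℕ) = a + 1 ∧ (c : ℕ) = b + 1 ∧ (b : ℕ) % 2 = 1
      · obtain ⟨hb, hc, hb1⟩ := hsp
        rw [D_special _ a b c hb hc hb1 (yX_odd r b hb1),
          D_special _ a b c hb hc hb1 (yP_odd b hb1)]
        rw [yX_special r a c (by omega) (by omega), yP_special a c (by omega) (by omega)]
        · rintro rfl
          exact ht ia hia
        · rintro rfl
          exact ht ic hic
        · intro hr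
          apply ht ib
          rw [hib]
          rw [show b = r from Fin.ext (by omega)]
          rfl
      · rw [sign_pos (D_pos _ (yX_bound r) a b c hab hbc hsp),
          sign_pos (D_pos _ yP_bound a b c hab hbc hsp)]

theorem not_lcons (n L : ℕ) :
    ¬ LCons (k := n + 2) (fun s => cone (A n L s))
      (fun s => (Fin.cons 1 (P yP s) : Fin (n + 3) → ℝ)) Set.univ := by
  rintro ⟨f, x, hf, hx, hag⟩
  have hx' := fun s => mem_cone (hx s (Set.mem_univ s)).1
  choose hx0 u hu hxu using hx'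
  set y : Fin (2 * L + 3) → ℝ := fun m => u (Sum.inr m) with hy
  have hxy : ∀ s, x s = x s 0 • (Fin.cons 1 (Fin.cons 0 (P y s)) : Fin (n + 4) → ℝ) := by
    intro s
    conv_lhs => rw [hxu s]
    rcases s with j | m
    · rfl
    · rfl
  have hyb : ∀ m, |y m - base m| ≤ fr m := fun m => hu (Sum.inr m) m rfl
  have hfr0 : ∀ m : Fin (2 * L + 3),
      ¬ ((m : ℕ) % 2 = 0 ∧ 0 < (m : ℕ) ∧ (m : ℕ) < 2 * L + 2) → y m = base m := by
    intro m hm
    have := hyb m
    rwa [fr, if_neg hm, abs_nonpos_iff, sub_eq_zero] at this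
  set ζ : ℕ → ℝ := fun i => if h : 2 * i < 2 * L + 3 then
    (-1) ^ i * (y ⟨2 * i, h⟩ - base ⟨2 * i, h⟩) else 0 with hζ
  have hstep : ∀ i, i < L + 1 → 0 < (- f 1) * (ζ (i + 1) - ζ i) := by
    intro i hi
    have hi0 : 2 * i < 2 * L + 3 := by omega
    have hi1 : 2 * i + 1 < 2 * L + 3 := by omega
    have hi2 : 2 * (i + 1) < 2 * L + 3 := by omega
    set a : Fin (2 * L + 3) := ⟨2 * i, hi0⟩ with ha
    set b : Fin (2 * L + 3) := ⟨2 * i + 1, hi1⟩ with hb
    set c : Fin (2 * L + 3) := ⟨2 * (i + 1), hi2⟩ with hc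
    have h1 := hag (Fin.cons (Sum.inr a) (Fin.cons (Sum.inr b) (Fin.cons (Sum.inr c) Sum.inl)))
      (fun _ => Set.mem_univ _)
    rw [orn_eq _ _ _ _ (fun i => hxy _)] at h1
    have e1 := dt_std (n := n) y a b c
    have e2 := dt_std (n := n) yP a b c
    unfold PH at e1 e2
    rw [e1, e2] at h1
    have hb1 : (b : ℕ) % 2 = 1 := by simp only [hb]; omega
    have ha0 : (a : ℕ) % 2 = 0 := by simp only [ha]; omega
    have hai : (a : ℕ) / 2 = i := by simp only [ha]; omega
    have hca : (c : ℕ) = a + 2 := by simp only [ha, hc]; ring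
    rw [D_special _ a b c rfl rfl hb1 (hfr0 b (by omega)),
      D_special _ a b c rfl rfl hb1 (yP_odd b hb1), yP_special a c ha0 hca, hai] at h1
    have hprod : 0 < ∏ i, x ((Fin.cons (Sum.inr a) (Fin.cons (Sum.inr b)
        (Fin.cons (Sum.inr c) Sum.inl)) : Fin (n + 3) → Fin n ⊕ Fin (2 * L + 3)) i) 0 :=
      Finset.prod_pos fun i _ => hx0 _
    have hζa : ζ i = (-1) ^ i * (y a - base a) := by
      simp only [hζ]
      rw [dif_pos hi0]
    have hζc : ζ (i + 1) = (-1) ^ (i + 1) * (y c - base c) := by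
      simp only [hζ]
      rw [dif_pos hi2]
    have hδ : (0:ℝ) < 1 / ((L + 1) * (8 * L + 16)) := by positivity
    rw [hζa, hζc, pow_succ]
    rw [mul_right_comm, sign_mul, sign_pos hprod, mul_one] at h1
    rcases neg_one_pow_eq_or ℝ i with hs | hs
    · rw [hs] at h1 ⊢
      rw [one_mul, sign_neg (neg_neg_of_pos hδ), sign_eq_neg_one_iff] at h1
      linarith
    · rw [hs] at h1 ⊢
      rw [show -((-1:ℝ) * (1 / ((L + 1) * (8 * L + 16)))) = 1 / ((L + 1) * (8 * L + 16)) by ring,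
        sign_pos hδ, sign_eq_one_iff] at h1
      linarith
  have hmono : ∀ i, i < L + 1 → 0 < (- f 1) * (ζ (i + 1) - ζ 0) := by
    intro i
    induction i with
    | zero => exact fun h => hstep 0 h
    | succ i ih =>
      intro h
      have h1 := ih (by omega)
      have h2 := hstep (i + 1) h
      have : (- f 1) * (ζ (i + 1 + 1) - ζ 0)
        = (- f 1) * (ζ (i + 1 + 1) - ζ (i + 1)) + (- f 1) * (ζ (i + 1) - ζ 0) := by ring
      rw [this]
      exact add_pos h2 h1
  have h0 : ζ 0 = 0 := by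
    simp only [hζ]
    rw [dif_pos (by omega), hfr0 _ (by simp), sub_self, mul_zero]
  have hL : ζ (L + 1) = 0 := by
    simp only [hζ]
    rw [dif_pos (by omega), hfr0 _ (by simp only []; omega), sub_self, mul_zero]
  have := hmono L (by omega)
  rw [h0, hL] at this
  simp at this

end Literal

/-- module HT/Literal -/
theorem literal_example (n L : ℕ) :
    ∃ (a : Fin n ⊕ Fin (2 * L + 3) → Set (Fin (n + 3) → ℝ))
      (p : Fin n ⊕ Fin (2 * L + 3) → Fin (n + 2) → ℝ),
      (∀ s, Convex ℝ (a s)) ∧ (∀ s, IsCompact (a s)) ∧ (∀ s t, s ≠ t → Disjoint (a s) (a t)) ∧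
      (∀ m, LCons (fun s => cone (a s)) (fun s => (Fin.cons 1 (p s) : Fin (n + 3) → ℝ))
        {Sum.inr m}ᶜ) ∧
      ¬ LCons (fun s => cone (a s)) (fun s => (Fin.cons 1 (p s) : Fin (n + 3) → ℝ)) Set.univ :=
  ⟨Literal.A n L, Literal.P Literal.yP, Literal.A_convex n L, Literal.A_compact n L,
    Literal.A_disjoint n L, Literal.lcons_compl n L, Literal.not_lcons n L⟩

end Pool.Agent.HT
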