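import Pool.Agent.HT.Basic

/-!
# A family of `d + 2` sets in `ℝ^d` (module HT/Lower for MP_b157f3_co)

Every `d + 1` of the sets are met by a hyperplane consistently with the ordering, but not all
`d + 2`.
-/

namespace Pool.Agent.HT
namespace Low

open scoped Matrix

/-! ### Cones over segments -/

/-- the point of `ℝ^m` with homogeneous coordinates `U` -/
noncomputable def aff {m : ℕ} (U : Fin (m + 1) → ℝ) : Fin m → ℝ := fun i => U i.succ / U 0

theorem cone_seg {m : ℕ} (U W : Fin (m + 1) → ℝ) (hU : 0 < U 0) (hW : 0 < W 0)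
    (v : Fin (m + 1) → ℝ) :
    v ∈ cone (segment ℝ (aff U) (aff W)) ↔
      ∃ l r : ℝ, 0 ≤ l ∧ 0 ≤ r ∧ 0 < l + r ∧ v = l • U + r • W := by
  constructor
  · rintro ⟨hv, α, β, hα, hβ, hαβ, h⟩
    refine ⟨α * v 0 / U 0, β * v 0 / W 0, by positivity, by positivity, ?_, ?_⟩
    · rcases hα.lt_or_eq with h1 | h1
      · have : 0 < α * v 0 / U 0 := by positivity
        have : 0 ≤ β * v 0 / W 0 := by positivity
        linarith
      · have h2 : β = 1 := by linarith
        have : 0 < β * v 0 / W 0 := by rw [h2]; positivity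
        have : 0 ≤ α * v 0 / U 0 := by positivity
        linarith
    · funext i
      refine Fin.cases ?_ (fun i => ?_) i
      · simp only [Pi.add_apply, Pi.smul_apply, smul_eq_mul]
        field_simp
        exact hαβ.symm
      · have := congrFun h i
        simp only [Pi.add_apply, Pi.smul_apply, smul_eq_mul, aff] at this ⊢
        field_simp at this ⊢
        linarith
  · rintro ⟨l, r, hl, hr, hlr, rfl⟩
    have h0 : 0 < l * U 0 + r * W 0 := by
      rcases hl.lt_or_eq with h1 | h1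
      · have : 0 < l * U 0 := by positivity
        have : 0 ≤ r * W 0 := by positivity
        linarith
      · have h2 : 0 < r := by linarith
        have : 0 < r * W 0 := by positivity
        have : 0 ≤ l * U 0 := by positivity
        linarith
    refine ⟨by simpa using h0, l * U 0 / (l * U 0 + r * W 0), r * W 0 / (l * U 0 + r * W 0),
      by positivity, by positivity, by field_simp, ?_⟩
    funext i
    simp only [Pi.add_apply, Pi.smul_apply, smul_eq_mul, aff]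
    field_simp

theorem isCompact_seg {m : ℕ} (A B : Fin m → ℝ) : IsCompact (segment ℝ A B) := by
  rw [segment_eq_image]
  apply isCompact_Icc.image
  fun_prop

/-! ### Generic reformulations -/

section generic

variable {ι : Type} [Fintype ι] [DecidableEq ι]

theorem sum_ext_zero {k : ℕ} {V : Type*} [AddCommGroup V] [Module ℝ V] (t : Fin k → ι)
    (g : Fin k → ℝ) (y : ι → V) :
    ∑ s, (∑ j, if t j = s then g j else 0) • y s = ∑ j, g j • y (t j) := by
  simp_rw [Finset.sum_smul]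
  rw [Finset.sum_comm]
  refine Finset.sum_congr rfl fun j _ => ?_
  rw [Finset.sum_eq_single (t j)]
  · simp
  · intro b _ hb
    simp [Ne.symm hb]
  · simp

omit [Fintype ι] in
theorem coef_ne {k : ℕ} (t : Fin k → ι) (g : Fin k → ℝ) {s : ι} (hs : ∀ j, t j ≠ s) :
    (∑ j, if t j = s then g j else 0) = 0 :=
  Finset.sum_eq_zero fun j _ => if_neg (hs j)

omit [Fintype ι] in
theorem coef_eq {k : ℕ} (t : Fin k → ι) (ht : Function.Injective t) (g : Fin k → ℝ) (i : Fin k) :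
    (∑ j, if t j = t i then g j else 0) = g i := by
  rw [Finset.sum_eq_single i]
  · simp
  · intro b _ hb
    exact if_neg fun h => hb (ht h)
  · simp

/-- an enumeration of the complement of `r` -/
theorem exists_enum {k : ℕ} (hcard : Fintype.card ι = k + 3) (r : ι) :
    ∃ a : Fin (k + 2) → ι, Function.Injective a ∧ Set.range a = {r}ᶜ := by
  have h1 : Fintype.card {s : ι // s ≠ r} = Fintype.card (Fin (k + 2)) := by
    rw [Fintype.card_subtype_compl, hcard]
    simp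
  obtain e := (Fintype.equivOfCardEq h1).symm
  refine ⟨fun i => (e i : ι), fun i j h => e.injective (Subtype.ext h), ?_⟩
  ext s
  constructor
  · rintro ⟨i, rfl⟩
    exact (e i).2
  · intro h
    exact ⟨e.symm ⟨s, h⟩, by simp⟩

theorem sum_enum {k : ℕ} {V : Type*} [AddCommGroup V] [Module ℝ V] {a : Fin k → ι} {r : ι}
    (ha : Function.Injective a) (har : Set.range a = {r}ᶜ) (y : ι → V) (hr : y r = 0) :
    ∑ i, y (a i) = ∑ s, y s := by
  have h1 : ∑ i, y (a i) = ∑ s ∈ Finset.univ.image a, y s :=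
    (Finset.sum_image (fun i _ j _ h => ha h)).symm
  rw [h1]
  apply Finset.sum_subset (Finset.subset_univ _)
  intro s _ hs
  have : s = r := by
    by_contra h
    have h2 : s ∈ Set.range a := by
      rw [har]
      exact h
    obtain ⟨i, rfl⟩ := h2
    exact hs (Finset.mem_image_of_mem _ (Finset.mem_univ _))
  rw [this, hr]

theorem lcons_compl {k : ℕ} {C : ι → Set (Fin (k + 2) → ℝ)} (hsep : LSep C)
    {p : ι → Fin (k + 1) → ℝ} (hcard : Fintype.card ι = k + 3) (r : ι)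
    (μ : ι → ℝ) (hμr : μ r = 0) (hμ : ∀ s, s ≠ r → μ s ≠ 0) (hrel : ∑ s, μ s • p s = 0)
    (hind : ∀ c : ι → ℝ, ∑ s, c s • p s = 0 → ∀ b, b ≠ r → c r = 0 → c b = 0 → c = 0)
    (x : ι → Fin (k + 2) → ℝ) (hx : ∀ s, s ≠ r → x s ∈ C s) (hrelx : ∑ s, μ s • x s = 0) :
    LCons C p {r}ᶜ := by
  obtain ⟨a, ha, har⟩ := exists_enum hcard r
  have har' : ∀ i, a i ≠ r := by
    intro i h
    have : a i ∈ ({r}ᶜ : Set ι) := har ▸ Set.mem_range_self i
    exact this h
  rw [← har]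
  refine lcons_of_rel hsep a ha (fun i => μ (a i)) (fun i => hμ _ (har' i)) ?_ ?_
    (fun i => x (a i)) (fun i => hx _ (har' i)) ?_
  · rw [← hrel]
    exact sum_enum ha har (fun s => μ s • p s) (by simp [hμr])
  · intro h0
    rw [dt, ← Matrix.exists_vecMul_eq_zero_iff] at h0
    obtain ⟨g, hg, h0⟩ := h0
    apply hg
    set t : Fin (k + 1) → ι := fun j => a j.castSucc with ht
    have htinj : Function.Injective t := fun i j h => Fin.castSucc_injective _ (ha h)
    have h1 : ∑ s, (∑ j, if t j = s then g j else 0) • p s = 0 := by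
      rw [sum_ext_zero]
      rw [Matrix.vecMul_eq_sum] at h0
      exact h0
    have h2 := hind _ h1 (a (Fin.last _)) (har' _) (coef_ne t g fun j => har' _)
      (coef_ne t g fun j h => (Fin.castSucc_lt_last j).ne (ha h))
    funext i
    have h3 := congrFun h2 (t i)
    simp only [Pi.zero_apply] at h3 ⊢
    rw [← h3]
    exact (coef_eq t htinj g i).symm
  · rw [← hrelx]
    exact sum_enum ha har (fun s => μ s • x s) (by simp [hμr])

theorem exists_rel_compl {k : ℕ} {C : ι → Set (Fin (k + 2) → ℝ)} (hsep : LSep C)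
    {p : ι → Fin (k + 1) → ℝ} {f : Fin (k + 2) → ℝ} (hf : f ≠ 0) {x : ι → Fin (k + 2) → ℝ}
    (hx : ∀ s ∈ (Set.univ : Set ι), x s ∈ C s ∧ f ⬝ᵥ x s = 0) (hag : Agree f x p Set.univ)
    (hcard : Fintype.card ι = k + 3) (r : ι)
    (μ : ι → ℝ) (hμr : μ r = 0) (hμ : ∀ s, s ≠ r → μ s ≠ 0) (hrel : ∑ s, μ s • p s = 0) :
    ∃ ν : ι → ℝ, (∀ s, 0 < ν s) ∧ ∑ s, (μ s * ν s) • x s = 0 := by
  obtain ⟨a, ha, har⟩ := exists_enum hcard r
  have har' : ∀ i, a i ≠ r := by
    intro i h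
    have : a i ∈ ({r}ᶜ : Set ι) := har ▸ Set.mem_range_self i
    exact this h
  obtain ⟨ν, hν, h⟩ := exists_rel hsep hf hx hag a ha (fun i => Set.mem_univ _)
    (fun i => μ (a i)) (fun i => hμ _ (har' i))
    (by
      rw [← hrel]
      exact sum_enum ha har (fun s => μ s • p s) (by simp [hμr]))
  have hex : ∃ ν' : ι → ℝ, (∀ s, 0 < ν' s) ∧ ∀ i, ν' (a i) = ν i := by
    classical
    refine ⟨fun s => if h : ∃ i, a i = s then ν h.choose else 1, fun s => ?_, fun i => ?_⟩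
    · dsimp only
      split_ifs
      · exact hν _
      · exact one_pos
    · have h1 : ∃ j, a j = a i := ⟨i, rfl⟩
      dsimp only
      rw [dif_pos h1, ha h1.choose_spec]
  obtain ⟨ν', hν', hνa⟩ := hex
  refine ⟨ν', hν', ?_⟩
  rw [← h]
  rw [← sum_enum ha har (fun s => (μ s * ν' s) • x s) (by simp [hμr])]
  simp only [hνa]

theorem lsep_of_indep {k : ℕ} {C : ι → Set (Fin (k + 2) → ℝ)}
    (hcard : Fintype.card ι = k + 3) (hne : ∀ s, (C s).Nonempty)
    (hind : ∀ x : ι → Fin (k + 2) → ℝ, (∀ s, x s ∈ C s) → ∀ c : ι → ℝ, ∑ s, c s • x s = 0 →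
      ∀ a b, a ≠ b → c a = 0 → c b = 0 → c = 0) : LSep C := by
  classical
  intro t ht x hx
  rw [Fintype.linearIndependent_iff]
  intro g hg i
  obtain ⟨x', hx', hxt⟩ : ∃ x' : ι → Fin (k + 2) → ℝ, (∀ s, x' s ∈ C s) ∧ ∀ j, x' (t j) = x j := by
    refine ⟨fun s => if h : ∃ j, t j = s then x h.choose else (hne s).some, fun s => ?_,
      fun j => ?_⟩
    · dsimp only
      split_ifs with h
      · have := hx h.choose
        rwa [h.choose_spec] at this
      · exact (hne s).some_mem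
    · have h1 : ∃ j', t j' = t j := ⟨j, rfl⟩
      dsimp only
      rw [dif_pos h1, ht h1.choose_spec]
  have h1 : ∑ s, (∑ j, if t j = s then g j else 0) • x' s = 0 := by
    rw [sum_ext_zero]
    simp only [hxt]
    exact hg
  have h2 : 1 < ((Finset.univ.image t)ᶜ : Finset ι).card := by
    rw [Finset.card_compl, Finset.card_image_of_injective _ ht, hcard]
    simp
  obtain ⟨a, ha, b, hb, hab⟩ := Finset.one_lt_card.1 h2
  simp only [Finset.mem_compl, Finset.mem_image, Finset.mem_univ, true_and, not_exists] at ha hb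
  have h3 := hind x' hx' _ h1 a b hab (coef_ne t g ha) (coef_ne t g hb)
  have h4 := congrFun h3 (t i)
  simp only [Pi.zero_apply] at h4
  rw [← h4]
  exact (coef_eq t ht g i).symm

theorem disjoint_of_indep {m : ℕ} {a : ι → Set (Fin m → ℝ)}
    (hcard : 4 ≤ Fintype.card ι) (hne : ∀ s, (cone (a s)).Nonempty)
    (hind : ∀ x : ι → Fin (m + 1) → ℝ, (∀ s, x s ∈ cone (a s)) → ∀ c : ι → ℝ,
      ∑ s, c s • x s = 0 → ∀ a b, a ≠ b → c a = 0 → c b = 0 → c = 0) (s t : ι) (hst : s ≠ t) :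
    Disjoint (a s) (a t) := by
  classical
  rw [Set.disjoint_left]
  intro v hs ht
  have hmem : ∀ u, v ∈ a u → (Fin.cons 1 v : Fin (m + 1) → ℝ) ∈ cone (a u) := by
    intro u hu
    refine ⟨by simp, ?_⟩
    simpa using hu
  have h2 : 1 < (({s, t} : Finset ι)ᶜ).card := by
    rw [Finset.card_compl, Finset.card_pair hst]
    omega
  obtain ⟨b, hb, b', hb', hbb⟩ := Finset.one_lt_card.1 h2
  simp only [Finset.mem_compl, Finset.mem_insert, Finset.mem_singleton, not_or] at hb hb'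
  have h3 := hind (fun u => if u = s ∨ u = t then Fin.cons 1 v else (hne u).some) (by
      intro u
      split_ifs with h
      · rcases h with h | h
        · rw [h]; exact hmem s hs
        · rw [h]; exact hmem t ht
      · exact (hne u).some_mem)
    (fun u => (if u = s then 1 else 0) - (if u = t then 1 else 0)) (by
      have : ∀ u, ((if u = s then (1 : ℝ) else 0) - (if u = t then 1 else 0)) •
          (if u = s ∨ u = t then (Fin.cons 1 v : Fin (m + 1) → ℝ) else (hne u).some) =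
          (if u = s then (Fin.cons 1 v : Fin (m + 1) → ℝ) else 0) -
            (if u = t then (Fin.cons 1 v : Fin (m + 1) → ℝ) else 0) := by
        intro u
        by_cases h1 : u = s
        · subst h1
          simp [hst]
        · by_cases h2 : u = t
          · subst h2
            simp [h1]
          · simp [h1, h2]
      simp only [this]
      rw [Finset.sum_sub_distrib]
      simp) b b' hbb (by simp [hb.1, hb.2]) (by simp [hb'.1, hb'.2])
  have h4 := congrFun h3 s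
  simp [hst] at h4

end generic

/-! ### The data -/

section data

variable {n : ℕ}

/-- the vector with planar part `(h, x, y)` and last coordinates `z` -/
noncomputable def mk (h x y : ℝ) (z : Fin n → ℝ) : Fin (n + 3) → ℝ :=
  Fin.cons (h + ∑ j, z j) (Fin.cons x (Fin.cons y z))

/-- the same in dimension one less -/
noncomputable def mkP (h y : ℝ) (z : Fin n → ℝ) : Fin (n + 2) → ℝ :=
  Fin.cons (h + ∑ j, z j) (Fin.cons y z)

theorem mk_eq_iff {h x y h' x' y' : ℝ} {z z' : Fin n → ℝ} :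
    mk h x y z = mk h' x' y' z' ↔ h = h' ∧ x = x' ∧ y = y' ∧ z = z' := by
  simp only [mk, Fin.cons_inj]
  constructor
  · rintro ⟨h1, h2, h3, rfl⟩
    exact ⟨by linarith, h2, h3, rfl⟩
  · rintro ⟨rfl, rfl, rfl, rfl⟩
    exact ⟨rfl, rfl, rfl, rfl⟩

theorem mkP_eq_iff {h y h' y' : ℝ} {z z' : Fin n → ℝ} :
    mkP h y z = mkP h' y' z' ↔ h = h' ∧ y = y' ∧ z = z' := by
  simp only [mkP, Fin.cons_inj]
  constructor
  · rintro ⟨h1, h2, rfl⟩
    exact ⟨by linarith, h2, rfl⟩
  · rintro ⟨rfl, rfl, rfl⟩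
    exact ⟨rfl, rfl, rfl⟩

theorem mk_zero : mk 0 0 0 (0 : Fin n → ℝ) = 0 := by
  funext i
  refine Fin.cases ?_ (fun i => Fin.cases ?_ (fun i => Fin.cases ?_ (fun i => ?_) i) i) i <;>
    simp only [mk, Fin.cons_succ, Fin.cons_zero, Pi.zero_apply, Finset.sum_const_zero, add_zero]

theorem mkP_zero : mkP 0 0 (0 : Fin n → ℝ) = 0 := by
  funext i
  refine Fin.cases ?_ (fun i => Fin.cases ?_ (fun i => ?_) i) i <;>
    simp only [mkP, Fin.cons_succ, Fin.cons_zero, Pi.zero_apply, Finset.sum_const_zero, add_zero]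

theorem mk_smul (c h x y : ℝ) (z : Fin n → ℝ) : c • mk h x y z = mk (c * h) (c * x) (c * y) (c • z) := by
  funext i
  refine Fin.cases ?_ (fun i => Fin.cases ?_ (fun i => Fin.cases ?_ (fun i => ?_) i) i) i <;>
    simp only [mk, Fin.cons_succ, Fin.cons_zero, Pi.smul_apply, smul_eq_mul, mul_add,
      Finset.mul_sum]

theorem mkP_smul (c h y : ℝ) (z : Fin n → ℝ) : c • mkP h y z = mkP (c * h) (c * y) (c • z) := by
  funext i
  refine Fin.cases ?_ (fun i => Fin.cases ?_ (fun i => ?_) i) i <;>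
    simp only [mkP, Fin.cons_succ, Fin.cons_zero, Pi.smul_apply, smul_eq_mul, mul_add,
      Finset.mul_sum]

theorem mk_add (h x y h' x' y' : ℝ) (z z' : Fin n → ℝ) :
    mk h x y z + mk h' x' y' z' = mk (h + h') (x + x') (y + y') (z + z') := by
  funext i
  refine Fin.cases ?_ (fun i => Fin.cases ?_ (fun i => Fin.cases ?_ (fun i => ?_) i) i) i <;>
    simp only [mk, Fin.cons_succ, Fin.cons_zero, Pi.add_apply, Finset.sum_add_distrib]
  ring

theorem mkP_add (h y h' y' : ℝ) (z z' : Fin n → ℝ) :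
    mkP h y z + mkP h' y' z' = mkP (h + h') (y + y') (z + z') := by
  funext i
  refine Fin.cases ?_ (fun i => Fin.cases ?_ (fun i => ?_) i) i <;>
    simp only [mkP, Fin.cons_succ, Fin.cons_zero, Pi.add_apply, Finset.sum_add_distrib]
  ring

theorem mk_sum {κ : Type*} (S : Finset κ) (h x y : κ → ℝ) (z : κ → Fin n → ℝ) :
    ∑ i ∈ S, mk (h i) (x i) (y i) (z i) =
      mk (∑ i ∈ S, h i) (∑ i ∈ S, x i) (∑ i ∈ S, y i) (∑ i ∈ S, z i) := by
  classical
  induction S using Finset.induction_on with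
  | empty => simp [mk_zero]
  | insert a S ha ih =>
    rw [Finset.sum_insert ha, ih, mk_add]
    simp only [Finset.sum_insert ha]

theorem mkP_sum {κ : Type*} (S : Finset κ) (h y : κ → ℝ) (z : κ → Fin n → ℝ) :
    ∑ i ∈ S, mkP (h i) (y i) (z i) =
      mkP (∑ i ∈ S, h i) (∑ i ∈ S, y i) (∑ i ∈ S, z i) := by
  classical
  induction S using Finset.induction_on with
  | empty => simp [mkP_zero]
  | insert a S ha ih =>
    rw [Finset.sum_insert ha, ih, mkP_add]
    simp only [Finset.sum_insert ha]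

/-- the parameters `ε_j` -/
noncomputable def eps (j : Fin n) : ℝ := 1 / (20 * ((j : ℕ) + 1))

theorem eps_pos (j : Fin n) : 0 < eps j := by
  unfold eps
  positivity

theorem eps_lt (j : Fin n) : eps j < 1 / 10 := by
  unfold eps
  apply one_div_lt_one_div_of_lt (by norm_num)
  have : (0 : ℝ) ≤ (j : ℕ) := by positivity
  linarith

theorem eps_inj {j k : Fin n} (h : eps j = eps k) : j = k := by
  unfold eps at h
  have h1 : (0 : ℝ) < (j : ℕ) + 1 := by positivity
  have h2 : (0 : ℝ) < (k : ℕ) + 1 := by positivity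
  field_simp at h
  apply Fin.ext
  have : ((j : ℕ) : ℝ) = (k : ℕ) := by linarith
  exact_mod_cast this

/-- the `z` parts of the four big sets -/
noncomputable def zc : Fin 4 → Fin n → ℝ := ![fun _ => 1, eps, 0, 0]

/-- homogeneous coordinates of the left end points -/
noncomputable def U : Fin n ⊕ Fin 4 → Fin (n + 3) → ℝ
  | Sum.inl j => mk 0 0 0 (Pi.single j 1)
  | Sum.inr i => mk 1 ((![0, 1, 2, 5 / 4] : Fin 4 → ℝ) i) ((![0, -1, 0, -1 / 4] : Fin 4 → ℝ) i) (zc i)

/-- homogeneous coordinates of the right end points -/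
noncomputable def W : Fin n ⊕ Fin 4 → Fin (n + 3) → ℝ
  | Sum.inl j => mk 0 0 0 (Pi.single j 1)
  | Sum.inr i => mk 1 ((![6, 1, 2, 5 / 2] : Fin 4 → ℝ) i) ((![3, 0, 1 / 3, 1] : Fin 4 → ℝ) i) (zc i)

/-- homogeneous coordinates of the points of the ordering -/
noncomputable def Q : Fin n ⊕ Fin 4 → Fin (n + 2) → ℝ
  | Sum.inl j => mkP 0 0 (Pi.single j 1)
  | Sum.inr i => mkP 1 ((![1, 2, 3, 4] : Fin 4 → ℝ) i) (zc i)

theorem zc_nonneg (i : Fin 4) (j : Fin n) : 0 ≤ zc i j := by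
  fin_cases i
  · simp [zc]
  · simpa [zc] using (eps_pos j).le
  · simp [zc]
  · simp [zc]

theorem mk_pos {h x y : ℝ} {z : Fin n → ℝ} (h0 : 0 < h) (hz : ∀ j, 0 ≤ z j) : 0 < mk h x y z 0 := by
  have : 0 ≤ ∑ j, z j := Finset.sum_nonneg fun j _ => hz j
  simp only [mk, Fin.cons_zero]
  linarith

theorem U_pos (s : Fin n ⊕ Fin 4) : 0 < U s 0 := by
  rcases s with j | i
  · simp [U, mk]
  · exact mk_pos one_pos (zc_nonneg i)

theorem W_pos (s : Fin n ⊕ Fin 4) : 0 < W s 0 := by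
  rcases s with j | i
  · simp [W, mk]
  · exact mk_pos one_pos (zc_nonneg i)

theorem Q_pos (s : Fin n ⊕ Fin 4) : 0 < Q s 0 := by
  rcases s with j | i
  · simp [Q, mkP]
  · have : 0 ≤ ∑ j : Fin n, zc i j := Finset.sum_nonneg fun j _ => zc_nonneg i j
    simp only [Q, mkP, Fin.cons_zero]
    linarith

/-- the sets -/
noncomputable def A (s : Fin n ⊕ Fin 4) : Set (Fin (n + 2) → ℝ) := segment ℝ (aff (U s)) (aff (W s))

/-- the points of the ordering -/
noncomputable def P (s : Fin n ⊕ Fin 4) : Fin (n + 1) → ℝ := aff (Q s)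

theorem cons_P (s : Fin n ⊕ Fin 4) : (Fin.cons 1 (P s) : Fin (n + 2) → ℝ) = (Q s 0)⁻¹ • Q s := by
  funext i
  refine Fin.cases ?_ (fun i => ?_) i
  · simp [(Q_pos s).ne']
  · simp [P, aff, div_eq_inv_mul]

theorem mem_inl {j : Fin n} {v : Fin (n + 3) → ℝ} :
    v ∈ cone (A (Sum.inl j)) ↔ ∃ m : ℝ, 0 < m ∧ v = mk 0 0 0 (m • Pi.single j 1) := by
  rw [A, cone_seg _ _ (U_pos _) (W_pos _)]
  constructor
  · rintro ⟨l, r, -, -, h, rfl⟩
    refine ⟨l + r, h, ?_⟩
    simp only [U, W, mk_smul, mk_add, mk_eq_iff, add_smul]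
    simp
  · rintro ⟨m, h, rfl⟩
    refine ⟨m, 0, h.le, le_rfl, by linarith, ?_⟩
    simp only [U, W, mk_smul, mk_add, mk_eq_iff]
    simp

theorem mem_inr {i : Fin 4} {v : Fin (n + 3) → ℝ} :
    v ∈ cone (A (n := n) (Sum.inr i)) ↔ ∃ l r : ℝ, 0 ≤ l ∧ 0 ≤ r ∧ 0 < l + r ∧
      v = mk (l + r) (l * (![0, 1, 2, 5 / 4] : Fin 4 → ℝ) i + r * (![6, 1, 2, 5 / 2] : Fin 4 → ℝ) i)
        (l * (![0, -1, 0, -1 / 4] : Fin 4 → ℝ) i + r * (![3, 0, 1 / 3, 1] : Fin 4 → ℝ) i)
        ((l + r) • zc i) := by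
  rw [A, cone_seg _ _ (U_pos _) (W_pos _)]
  simp only [U, W, mk_smul, mk_add, mul_one, add_smul]

/-! ### Relations -/

/-- planar coordinates of the points of the segments -/
noncomputable def px : Fin 4 → ℝ → ℝ := ![fun t => 6 * t, fun _ => 1, fun _ => 2, fun t => 5 / 4 + 5 / 4 * t]

/-- planar coordinates of the points of the segments -/
noncomputable def py : Fin 4 → ℝ → ℝ := ![fun t => 3 * t, fun t => t - 1, fun t => t / 3, fun t => -1 / 4 + 5 / 4 * t]

/-- points of the cones -/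
noncomputable def pt (h t : Fin 4 → ℝ) (m : Fin n → ℝ) : Fin n ⊕ Fin 4 → Fin (n + 3) → ℝ
  | Sum.inl j => mk 0 0 0 (m j • Pi.single j 1)
  | Sum.inr i => mk (h i) (h i * px i (t i)) (h i * py i (t i)) (h i • zc i)

theorem exists_pt {x : Fin n ⊕ Fin 4 → Fin (n + 3) → ℝ} (hx : ∀ s, x s ∈ cone (A s)) :
    ∃ (h t : Fin 4 → ℝ) (m : Fin n → ℝ), (∀ i, 0 < h i) ∧ (∀ i, 0 ≤ t i) ∧ (∀ i, t i ≤ 1) ∧
      (∀ j, 0 < m j) ∧ x = pt h t m := by
  have h1 : ∀ j : Fin n, ∃ m : ℝ, 0 < m ∧ x (Sum.inl j) = mk 0 0 0 (m • Pi.single j 1) :=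
    fun j => mem_inl.1 (hx (Sum.inl j))
  have h2 : ∀ i : Fin 4, ∃ h t : ℝ, 0 < h ∧ 0 ≤ t ∧ t ≤ 1 ∧
      x (Sum.inr i) = mk h (h * px i t) (h * py i t) (h • zc i) := by
    intro i
    obtain ⟨l, r, hl, hr, h, hv⟩ := mem_inr.1 (hx (Sum.inr i))
    refine ⟨l + r, r / (l + r), h, by positivity, ?_, ?_⟩
    · rw [div_le_one h]
      linarith
    · rw [hv, mk_eq_iff]
      refine ⟨rfl, ?_, ?_, rfl⟩
      · fin_cases i <;> simp [px] <;> field_simp <;> ring
      · fin_cases i <;> simp [py] <;> field_simp <;> ring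
  choose m hm hm' using h1
  choose h t hh ht0 ht1 hxt using h2
  refine ⟨h, t, m, hh, ht0, ht1, hm, ?_⟩
  funext s
  rcases s with j | i
  · rw [hm', pt]
  · rw [hxt, pt]

theorem pt_mem {h t : Fin 4 → ℝ} {m : Fin n → ℝ} (hh : ∀ i, 0 < h i) (ht0 : ∀ i, 0 ≤ t i)
    (ht1 : ∀ i, t i ≤ 1) (hm : ∀ j, 0 < m j) (s : Fin n ⊕ Fin 4) : pt h t m s ∈ cone (A s) := by
  rcases s with j | i
  · exact mem_inl.2 ⟨m j, hm j, rfl⟩
  · refine mem_inr.2 ⟨h i * (1 - t i), h i * t i, ?_, ?_, ?_, ?_⟩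
    · exact mul_nonneg (hh i).le (by linarith [ht1 i])
    · exact mul_nonneg (hh i).le (ht0 i)
    · have : h i * (1 - t i) + h i * t i = h i := by ring
      rw [this]
      exact hh i
    · have e : h i * (1 - t i) + h i * t i = h i := by ring
      rw [e, pt, mk_eq_iff]
      refine ⟨rfl, ?_, ?_, rfl⟩
      · fin_cases i <;> simp [px] <;> ring
      · fin_cases i <;> simp [py] <;> ring

theorem rel_iff (c : Fin n ⊕ Fin 4 → ℝ) (h t : Fin 4 → ℝ) (m : Fin n → ℝ) :
    ∑ s, c s • pt h t m s = 0 ↔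
      c (Sum.inr 0) * h 0 + c (Sum.inr 1) * h 1 + c (Sum.inr 2) * h 2 + c (Sum.inr 3) * h 3 = 0 ∧
      c (Sum.inr 0) * h 0 * (6 * t 0) + c (Sum.inr 1) * h 1 * 1 + c (Sum.inr 2) * h 2 * 2 +
        c (Sum.inr 3) * h 3 * (5 / 4 + 5 / 4 * t 3) = 0 ∧
      c (Sum.inr 0) * h 0 * (3 * t 0) + c (Sum.inr 1) * h 1 * (t 1 - 1) +
        c (Sum.inr 2) * h 2 * (t 2 / 3) + c (Sum.inr 3) * h 3 * (-1 / 4 + 5 / 4 * t 3) = 0 ∧
      ∀ j : Fin n, c (Sum.inl j) * m j + c (Sum.inr 0) * h 0 + c (Sum.inr 1) * h 1 * eps j = 0 := by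
  rw [Fintype.sum_sum_type]
  simp only [pt, mk_smul, mk_sum, mk_add]
  rw [← mk_zero, mk_eq_iff]
  simp only [Fin.sum_univ_four, mul_zero, Finset.sum_const_zero, zero_add]
  refine and_congr Iff.rfl (and_congr ?_ (and_congr ?_ ?_))
  · simp [px, mul_assoc]
  · simp [py, mul_assoc]
  · rw [funext_iff]
    refine forall_congr' fun j => ?_
    simp [zc, Finset.sum_apply, Pi.single_apply, mul_assoc, add_assoc]

theorem relQ_iff (c : Fin n ⊕ Fin 4 → ℝ) :
    ∑ s, c s • Q s = 0 ↔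
      c (Sum.inr 0) + c (Sum.inr 1) + c (Sum.inr 2) + c (Sum.inr 3) = 0 ∧
      c (Sum.inr 0) + c (Sum.inr 1) * 2 + c (Sum.inr 2) * 3 + c (Sum.inr 3) * 4 = 0 ∧
      ∀ j : Fin n, c (Sum.inl j) + c (Sum.inr 0) + c (Sum.inr 1) * eps j = 0 := by
  rw [Fintype.sum_sum_type]
  simp only [Q, mkP_smul, mkP_sum, mkP_add]
  rw [← mkP_zero, mkP_eq_iff]
  simp only [Fin.sum_univ_four, mul_zero, Finset.sum_const_zero, zero_add]
  refine and_congr ?_ (and_congr ?_ ?_)
  · simp
  · simp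
  · rw [funext_iff]
    refine forall_congr' fun j => ?_
    simp [zc, Finset.sum_apply, Pi.single_apply, add_assoc]

/-! ### Independence -/

theorem two {a b X X' Y Y' : ℝ} (h1 : a + b = 0) (h2 : a * X + b * X' = 0)
    (h3 : a * Y + b * Y' = 0) (hne : X = X' → Y = Y' → False) : a = 0 ∧ b = 0 := by
  have hb : b = -a := by linarith
  subst hb
  by_cases ha : a = 0
  · simp [ha]
  · exfalso
    apply hne
    · apply mul_left_cancel₀ ha
      linarith
    · apply mul_left_cancel₀ ha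
      linarith

set_option linter.unusedSectionVars false
section plane

variable {a b c d t0 t1 t2 t3 : ℝ} (h0 : 0 ≤ t0) (h0' : t0 ≤ 1) (h1 : 0 ≤ t1) (h1' : t1 ≤ 1)
  (h2 : 0 ≤ t2) (h2' : t2 ≤ 1) (h3 : 0 ≤ t3) (h3' : t3 ≤ 1)
  (e1 : a + b + c + d = 0) (e2 : a * (6 * t0) + b * 1 + c * 2 + d * (5 / 4 + 5 / 4 * t3) = 0)
  (e3 : a * (3 * t0) + b * (t1 - 1) + c * (t2 / 3) + d * (-1 / 4 + 5 / 4 * t3) = 0)

include h0 h0' h1 h1' h2 h2' h3 h3' e1 e2 e3

theorem p01 (hc : c = 0) (hd : d = 0) : a = 0 ∧ b = 0 ∧ c = 0 ∧ d = 0 := by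
  subst hc hd
  obtain ⟨r1, r2⟩ := two (a := a) (b := b) (X := 6 * t0) (X' := 1) (Y := 3 * t0) (Y' := t1 - 1)
    (by linarith) (by linarith) (by linarith) (by intro h h'; linarith)
  exact ⟨r1, r2, rfl, rfl⟩

theorem p02 (hb : b = 0) (hd : d = 0) : a = 0 ∧ b = 0 ∧ c = 0 ∧ d = 0 := by
  subst hb hd
  obtain ⟨r1, r2⟩ := two (a := a) (b := c) (X := 6 * t0) (X' := 2) (Y := 3 * t0) (Y' := t2 / 3)
    (by linarith) (by linarith) (by linarith) (by intro h h'; linarith)
  exact ⟨r1, rfl, r2, rfl⟩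

theorem p03 (hb : b = 0) (hc : c = 0) : a = 0 ∧ b = 0 ∧ c = 0 ∧ d = 0 := by
  subst hb hc
  obtain ⟨r1, r2⟩ := two (a := a) (b := d) (X := 6 * t0) (X' := 5 / 4 + 5 / 4 * t3) (Y := 3 * t0)
    (Y' := -1 / 4 + 5 / 4 * t3)
    (by linarith) (by linarith) (by linarith) (by intro h h'; linarith)
  exact ⟨r1, rfl, rfl, r2⟩

theorem p12 (ha : a = 0) (hd : d = 0) : a = 0 ∧ b = 0 ∧ c = 0 ∧ d = 0 := by
  subst ha hd
  obtain ⟨r1, r2⟩ := two (a := b) (b := c) (X := 1) (X' := 2) (Y := t1 - 1) (Y' := t2 / 3)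
    (by linarith) (by linarith) (by linarith) (by intro h h'; linarith)
  exact ⟨rfl, r1, r2, rfl⟩

theorem p13 (ha : a = 0) (hc : c = 0) : a = 0 ∧ b = 0 ∧ c = 0 ∧ d = 0 := by
  subst ha hc
  obtain ⟨r1, r2⟩ := two (a := b) (b := d) (X := 1) (X' := 5 / 4 + 5 / 4 * t3) (Y := t1 - 1)
    (Y' := -1 / 4 + 5 / 4 * t3)
    (by linarith) (by linarith) (by linarith) (by intro h h'; linarith)
  exact ⟨rfl, r1, rfl, r2⟩

theorem p23 (ha : a = 0) (hb : b = 0) : a = 0 ∧ b = 0 ∧ c = 0 ∧ d = 0 := by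
  subst ha hb
  obtain ⟨r1, r2⟩ := two (a := c) (b := d) (X := 2) (X' := 5 / 4 + 5 / 4 * t3) (Y := t2 / 3)
    (Y' := -1 / 4 + 5 / 4 * t3)
    (by linarith) (by linarith) (by linarith) (by intro h h'; linarith)
  exact ⟨rfl, rfl, r1, r2⟩

theorem q0 {e : ℝ} (he : 0 < e) (hz : a + b * e = 0) (ha : a = 0) :
    a = 0 ∧ b = 0 ∧ c = 0 ∧ d = 0 := by
  refine p23 h0 h0' h1 h1' h2 h2' h3 h3' e1 e2 e3 ha ?_
  have : b * e = 0 := by linarith
  exact (mul_eq_zero.1 this).resolve_right he.ne'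

theorem q1 {e : ℝ} (hz : a + b * e = 0) (hb : b = 0) :
    a = 0 ∧ b = 0 ∧ c = 0 ∧ d = 0 := by
  refine p23 h0 h0' h1 h1' h2 h2' h3 h3' e1 e2 e3 ?_ hb
  rw [hb] at hz
  linarith

theorem q2 {e : ℝ} (he : 0 < e) (he' : e < 1 / 10) (hz : a + b * e = 0) (hc : c = 0) :
    a = 0 ∧ b = 0 ∧ c = 0 ∧ d = 0 := by
  by_cases hb : b = 0
  · exact q1 h0 h0' h1 h1' h2 h2' h3 h3' e1 e2 e3 hz hb
  · exfalso
    have ha : a = -(b * e) := by linarith
    have hd : d = -(b * (1 - e)) := by linarith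
    subst ha hd hc
    have h : b * (-(e * (6 * t0)) + 1 - (1 - e) * (5 / 4 + 5 / 4 * t3)) = 0 := by linarith
    have h' := (mul_eq_zero.1 h).resolve_left hb
    nlinarith [mul_nonneg he.le h0, mul_nonneg (by linarith : 0 ≤ 1 - e) h3]

theorem q3 {e : ℝ} (he : 0 < e) (he' : e < 1 / 10) (hz : a + b * e = 0) (hd : d = 0) :
    a = 0 ∧ b = 0 ∧ c = 0 ∧ d = 0 := by
  by_cases hb : b = 0
  · exact q1 h0 h0' h1 h1' h2 h2' h3 h3' e1 e2 e3 hz hb
  · exfalso
    have ha : a = -(b * e) := by linarith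
    have hc : c = -(b * (1 - e)) := by linarith
    subst ha hd hc
    have h : b * (-(e * (6 * t0)) + 1 - (1 - e) * 2) = 0 := by linarith
    have h' := (mul_eq_zero.1 h).resolve_left hb
    nlinarith [mul_nonneg he.le h0]

theorem qq {e e' : ℝ} (hee : e ≠ e') (hz : a + b * e = 0) (hz' : a + b * e' = 0) :
    a = 0 ∧ b = 0 ∧ c = 0 ∧ d = 0 := by
  have h : b * (e - e') = 0 := by linarith
  have hb := (mul_eq_zero.1 h).resolve_right (sub_ne_zero.2 hee)
  exact q1 h0 h0' h1 h1' h2 h2' h3 h3' e1 e2 e3 hz hb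

end plane

theorem indep (x : Fin n ⊕ Fin 4 → Fin (n + 3) → ℝ) (hx : ∀ s, x s ∈ cone (A s))
    (c : Fin n ⊕ Fin 4 → ℝ) (hc : ∑ s, c s • x s = 0) (u v : Fin n ⊕ Fin 4) (huv : u ≠ v)
    (hu : c u = 0) (hv : c v = 0) : c = 0 := by
  obtain ⟨h, t, m, hh, ht0, ht1, hm, rfl⟩ := exists_pt hx
  obtain ⟨e1, e2, e3, e4⟩ := (rel_iff c h t m).1 hc
  suffices H : c (Sum.inr 0) * h 0 = 0 ∧ c (Sum.inr 1) * h 1 = 0 ∧ c (Sum.inr 2) * h 2 = 0 ∧
      c (Sum.inr 3) * h 3 = 0 by
    obtain ⟨r0, r1, r2, r3⟩ := H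
    funext s
    rcases s with j | i
    · have := e4 j
      rw [r0, r1] at this
      simp only [add_zero, zero_mul] at this
      exact (mul_eq_zero.1 this).resolve_right (hm j).ne'
    · fin_cases i
      · exact (mul_eq_zero.1 r0).resolve_right (hh 0).ne'
      · exact (mul_eq_zero.1 r1).resolve_right (hh 1).ne'
      · exact (mul_eq_zero.1 r2).resolve_right (hh 2).ne'
      · exact (mul_eq_zero.1 r3).resolve_right (hh 3).ne'
  have key : ∀ (j : Fin n) (i : Fin 4), c (Sum.inl j) = 0 → c (Sum.inr i) = 0 →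
      c (Sum.inr 0) * h 0 = 0 ∧ c (Sum.inr 1) * h 1 = 0 ∧ c (Sum.inr 2) * h 2 = 0 ∧
      c (Sum.inr 3) * h 3 = 0 := by
    intro j i hj hi
    have hz := e4 j
    rw [hj, zero_mul, zero_add] at hz
    have hz' : c (Sum.inr i) * h i = 0 := by rw [hi, zero_mul]
    fin_cases i
    · exact q0 (ht0 0) (ht1 0) (ht0 1) (ht1 1) (ht0 2) (ht1 2) (ht0 3) (ht1 3) e1 e2 e3
        (eps_pos j) hz hz'
    · exact q1 (ht0 0) (ht1 0) (ht0 1) (ht1 1) (ht0 2) (ht1 2) (ht0 3) (ht1 3) e1 e2 e3 hz hz'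
    · exact q2 (ht0 0) (ht1 0) (ht0 1) (ht1 1) (ht0 2) (ht1 2) (ht0 3) (ht1 3) e1 e2 e3
        (eps_pos j) (eps_lt j) hz hz'
    · exact q3 (ht0 0) (ht1 0) (ht0 1) (ht1 1) (ht0 2) (ht1 2) (ht0 3) (ht1 3) e1 e2 e3
        (eps_pos j) (eps_lt j) hz hz'
  have key2 : ∀ (i i' : Fin 4), i < i' → c (Sum.inr i) = 0 → c (Sum.inr i') = 0 →
      c (Sum.inr 0) * h 0 = 0 ∧ c (Sum.inr 1) * h 1 = 0 ∧ c (Sum.inr 2) * h 2 = 0 ∧
      c (Sum.inr 3) * h 3 = 0 := by
    intro i i' hii hi hi'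
    have hz : c (Sum.inr i) * h i = 0 := by rw [hi, zero_mul]
    have hz' : c (Sum.inr i') * h i' = 0 := by rw [hi', zero_mul]
    fin_cases i <;> fin_cases i' <;>
      first
        | exact absurd hii (by decide)
        | exact p01 (ht0 0) (ht1 0) (ht0 1) (ht1 1) (ht0 2) (ht1 2) (ht0 3) (ht1 3) e1 e2 e3 hz hz'
        | exact p02 (ht0 0) (ht1 0) (ht0 1) (ht1 1) (ht0 2) (ht1 2) (ht0 3) (ht1 3) e1 e2 e3 hz hz'
        | exact p03 (ht0 0) (ht1 0) (ht0 1) (ht1 1) (ht0 2) (ht1 2) (ht0 3) (ht1 3) e1 e2 e3 hz hz'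
        | exact p12 (ht0 0) (ht1 0) (ht0 1) (ht1 1) (ht0 2) (ht1 2) (ht0 3) (ht1 3) e1 e2 e3 hz hz'
        | exact p13 (ht0 0) (ht1 0) (ht0 1) (ht1 1) (ht0 2) (ht1 2) (ht0 3) (ht1 3) e1 e2 e3 hz hz'
        | exact p23 (ht0 0) (ht1 0) (ht0 1) (ht1 1) (ht0 2) (ht1 2) (ht0 3) (ht1 3) e1 e2 e3 hz hz'
  rcases u with j | i <;> rcases v with j' | i'
  · have hz := e4 j
    rw [hu, zero_mul, zero_add] at hz
    have hz' := e4 j'
    rw [hv, zero_mul, zero_add] at hz'
    refine qq (ht0 0) (ht1 0) (ht0 1) (ht1 1) (ht0 2) (ht1 2) (ht0 3) (ht1 3) e1 e2 e3 ?_ hz hz'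
    intro h
    exact huv (by rw [eps_inj h])
  · exact key j i' hu hv
  · exact key j' i hv hu
  · rcases lt_trichotomy i i' with h | h | h
    · exact key2 i i' h hu hv
    · exact absurd (by rw [h]) huv
    · exact key2 i' i h hv hu

theorem indepQ (c : Fin n ⊕ Fin 4 → ℝ) (hc : ∑ s, c s • Q s = 0) (u v : Fin n ⊕ Fin 4)
    (huv : u ≠ v) (hu : c u = 0) (hv : c v = 0) : c = 0 := by
  obtain ⟨e1, e2, e4⟩ := (relQ_iff c).1 hc
  suffices H : c (Sum.inr 0) = 0 ∧ c (Sum.inr 1) = 0 ∧ c (Sum.inr 2) = 0 ∧ c (Sum.inr 3) = 0 by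
    obtain ⟨r0, r1, r2, r3⟩ := H
    funext s
    rcases s with j | i
    · have := e4 j
      rw [r0, r1] at this
      simpa using this
    · fin_cases i
      · exact r0
      · exact r1
      · exact r2
      · exact r3
  have key : ∀ (j : Fin n) (i : Fin 4), c (Sum.inl j) = 0 → c (Sum.inr i) = 0 →
      c (Sum.inr 0) = 0 ∧ c (Sum.inr 1) = 0 ∧ c (Sum.inr 2) = 0 ∧ c (Sum.inr 3) = 0 := by
    intro j i hj hi
    have hz := e4 j
    rw [hj, zero_add] at hz
    have he := eps_pos j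
    have he' := eps_lt j
    have h1 : c (Sum.inr 1) = 0 := by
      fin_cases i
      · have hi' : c (Sum.inr 0) = 0 := hi
        rw [hi', zero_add] at hz
        exact (mul_eq_zero.1 hz).resolve_right he.ne'
      · exact hi
      · have hi' : c (Sum.inr 2) = 0 := hi
        have : c (Sum.inr 1) * (2 - 3 * eps j) = 0 := by
          rw [hi'] at e1 e2
          linarith
        exact (mul_eq_zero.1 this).resolve_right (by linarith)
      · have hi' : c (Sum.inr 3) = 0 := hi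
        have : c (Sum.inr 1) * (1 - 2 * eps j) = 0 := by
          rw [hi'] at e1 e2
          linarith
        exact (mul_eq_zero.1 this).resolve_right (by linarith)
    have h0 : c (Sum.inr 0) = 0 := by
      rw [h1] at hz
      linarith
    rw [h1, h0] at e1 e2
    exact ⟨h0, h1, by linarith, by linarith⟩
  have key2 : ∀ (i i' : Fin 4), i < i' → c (Sum.inr i) = 0 → c (Sum.inr i') = 0 →
      c (Sum.inr 0) = 0 ∧ c (Sum.inr 1) = 0 ∧ c (Sum.inr 2) = 0 ∧ c (Sum.inr 3) = 0 := by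
    intro i i' hii hi hi'
    fin_cases i <;> fin_cases i' <;>
      first
        | exact absurd hii (by decide)
        | (simp only [Fin.zero_eta, Fin.mk_one, Fin.reduceFinMk] at hi hi'
           refine ⟨?_, ?_, ?_, ?_⟩ <;> linarith)
  rcases u with j | i <;> rcases v with j' | i'
  · have hz := e4 j
    rw [hu, zero_add] at hz
    have hz' := e4 j'
    rw [hv, zero_add] at hz'
    have hne : eps j - eps j' ≠ 0 := by
      rw [sub_ne_zero]
      intro h
      exact huv (by rw [eps_inj h])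
    have h : c (Sum.inr 1) * (eps j - eps j') = 0 := by linarith
    have h1 := (mul_eq_zero.1 h).resolve_right hne
    have h0 : c (Sum.inr 0) = 0 := by
      rw [h1] at hz
      linarith
    rw [h1, h0] at e1 e2
    exact ⟨h0, h1, by linarith, by linarith⟩
  · exact key j i' hu hv
  · exact key j' i hv hu
  · rcases lt_trichotomy i i' with h | h | h
    · exact key2 i i' h hu hv
    · exact absurd (by rw [h]) huv
    · exact key2 i' i h hv hu

/-! ### The theorem -/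

theorem card_idx : Fintype.card (Fin n ⊕ Fin 4) = (n + 1) + 3 := by
  simp

theorem cone_nonempty (s : Fin n ⊕ Fin 4) : (cone (A s)).Nonempty :=
  ⟨_, pt_mem (h := fun _ => 1) (t := fun _ => 0) (m := fun _ => 1) (fun _ => one_pos)
    (fun _ => le_rfl) (fun _ => zero_le_one) (fun _ => one_pos) s⟩

theorem lsep : LSep (k := n + 1) (fun s : Fin n ⊕ Fin 4 => cone (A s)) :=
  lsep_of_indep card_idx cone_nonempty indep

theorem lcons_of_data (r : Fin n ⊕ Fin 4) (c : Fin n ⊕ Fin 4 → ℝ) (hr : c r = 0)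
    (hc : ∀ s, s ≠ r → c s ≠ 0) (hQ : ∑ s, c s • Q s = 0) {h t : Fin 4 → ℝ} {m : Fin n → ℝ}
    (hh : ∀ i, 0 < h i) (ht0 : ∀ i, 0 ≤ t i) (ht1 : ∀ i, t i ≤ 1) (hm : ∀ j, 0 < m j)
    (hpt : ∑ s, c s • pt h t m s = 0) :
    LCons (k := n + 1) (fun s : Fin n ⊕ Fin 4 => cone (A s))
      (fun s => (Fin.cons 1 (P s) : Fin (n + 2) → ℝ)) {r}ᶜ := by
  refine lcons_compl lsep card_idx r (fun s => c s * Q s 0) (by simp [hr])
    (fun s hs => mul_ne_zero (hc s hs) (Q_pos s).ne') ?_ ?_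
    (fun s => (Q s 0)⁻¹ • pt h t m s) ?_ ?_
  · rw [← hQ]
    refine Finset.sum_congr rfl fun s _ => ?_
    rw [cons_P, smul_smul, mul_assoc, mul_inv_cancel₀ (Q_pos s).ne', mul_one]
  · intro c' h1 b hb hr' hb'
    have h2 : ∑ s, (c' s * (Q s 0)⁻¹) • Q s = 0 := by
      rw [← h1]
      refine Finset.sum_congr rfl fun s _ => ?_
      rw [cons_P, smul_smul]
    have h3 := indepQ _ h2 r b (Ne.symm hb) (by simp [hr']) (by simp [hb'])
    funext s
    have h4 := congrFun h3 s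
    simp only [Pi.zero_apply, mul_eq_zero, inv_eq_zero] at h4 ⊢
    exact h4.resolve_right (Q_pos s).ne'
  · intro s _
    have h1 := pt_mem hh ht0 ht1 hm s
    refine ⟨?_, ?_⟩
    · have := h1.1
      simp only [Pi.smul_apply, smul_eq_mul]
      exact mul_pos (inv_pos.2 (Q_pos s)) this
    · have := h1.2
      simp only [Pi.smul_apply, smul_eq_mul]
      have h2 : (Q s 0)⁻¹ ≠ 0 := inv_ne_zero (Q_pos s).ne'
      simpa only [mul_div_mul_left _ _ h2] using this
  · rw [← hpt]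
    refine Finset.sum_congr rfl fun s _ => ?_
    rw [smul_smul, mul_assoc, mul_inv_cancel₀ (Q_pos s).ne', mul_one]

theorem lcons_three : LCons (k := n + 1) (fun s : Fin n ⊕ Fin 4 => cone (A s))
      (fun s => (Fin.cons 1 (P s) : Fin (n + 2) → ℝ)) {Sum.inr 3}ᶜ := by
  refine lcons_of_data _ (Sum.elim (fun j => -(1 - 2 * eps j)) ![1, -2, 1, 0]) (by simp) ?_ ?_
    (h := ![1, 1, 1, 1]) (t := ![0, 1, 0, 0]) (m := fun _ => 1) ?_ ?_ ?_ ?_ ?_
  · rintro (j | i) hs
    · have := eps_lt j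
      simp only [Sum.elim_inl]
      linarith
    · fin_cases i <;> simp at hs ⊢
  · rw [relQ_iff]
    refine ⟨by simp; norm_num, by simp; norm_num, fun j => ?_⟩
    simp
  · intro i; fin_cases i <;> simp
  · intro i; fin_cases i <;> simp
  · intro i; fin_cases i <;> simp
  · intro j; exact one_pos
  · rw [rel_iff]
    refine ⟨by simp; norm_num, by simp, by simp, fun j => ?_⟩
    simp

theorem lcons_two : LCons (k := n + 1) (fun s : Fin n ⊕ Fin 4 => cone (A s))
      (fun s => (Fin.cons 1 (P s) : Fin (n + 2) → ℝ)) {Sum.inr 2}ᶜ := by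
  refine lcons_of_data _ (Sum.elim (fun j => -(2 - 3 * eps j)) ![2, -3, 0, 1]) (by simp) ?_ ?_
    (h := ![3 / 14, 1 / 3, 1, 4 / 7]) (t := ![1 / 9, 1, 0, 0])
    (m := fun j => (3 / 7 - eps j) / (2 - 3 * eps j)) ?_ ?_ ?_ ?_ ?_
  · rintro (j | i) hs
    · have := eps_lt j
      simp only [Sum.elim_inl]
      linarith
    · fin_cases i <;> simp at hs ⊢
  · rw [relQ_iff]
    refine ⟨by simp; norm_num, by simp; norm_num, fun j => ?_⟩
    simp
  · intro i; fin_cases i <;> simp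
  · intro i; fin_cases i <;> simp
  · intro i; fin_cases i <;> simp
    norm_num
  · intro j
    have := eps_lt j
    apply div_pos <;> linarith
  · rw [rel_iff]
    refine ⟨by simp; norm_num, by simp; norm_num, by simp; norm_num, fun j => ?_⟩
    have := eps_lt j
    have h1 : 2 - 3 * eps j ≠ 0 := by linarith
    simp
    field_simp
    ring

theorem lcons_one : LCons (k := n + 1) (fun s : Fin n ⊕ Fin 4 => cone (A s))
      (fun s => (Fin.cons 1 (P s) : Fin (n + 2) → ℝ)) {Sum.inr 1}ᶜ := by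
  refine lcons_of_data _ (Sum.elim (fun _ => -1) ![1, 0, -3, 2]) (by simp) ?_ ?_
    (h := ![1 / 9, 1, 1 / 3, 4 / 9]) (t := ![1, 0, 1, 1 / 5])
    (m := fun _ => 1 / 9) ?_ ?_ ?_ ?_ ?_
  · rintro (j | i) hs
    · simp
    · fin_cases i <;> simp at hs ⊢
  · rw [relQ_iff]
    refine ⟨by simp; norm_num, by simp; norm_num, fun j => ?_⟩
    simp
  · intro i; fin_cases i <;> simp
  · intro i; fin_cases i <;> simp
  · intro i; fin_cases i <;> simp
    norm_num
  · intro j
    norm_num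
  · rw [rel_iff]
    refine ⟨by simp; norm_num, by simp; norm_num, by simp; norm_num, fun j => ?_⟩
    simp

theorem lcons_zero : LCons (k := n + 1) (fun s : Fin n ⊕ Fin 4 => cone (A s))
      (fun s => (Fin.cons 1 (P s) : Fin (n + 2) → ℝ)) {Sum.inr 0}ᶜ := by
  refine lcons_of_data _ (Sum.elim (fun j => -eps j) ![0, 1, -2, 1]) (by simp) ?_ ?_
    (h := ![1, 1 / 3, 1 / 2, 2 / 3]) (t := ![0, 0, 1, 1])
    (m := fun _ => 1 / 3) ?_ ?_ ?_ ?_ ?_
  · rintro (j | i) hs
    · have := eps_pos j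
      simp only [Sum.elim_inl]
      linarith
    · fin_cases i <;> simp at hs ⊢
  · rw [relQ_iff]
    refine ⟨by simp; norm_num, by simp; norm_num, fun j => ?_⟩
    simp
  · intro i; fin_cases i <;> simp
  · intro i; fin_cases i <;> simp
  · intro i; fin_cases i <;> simp
  · intro j
    norm_num
  · rw [rel_iff]
    refine ⟨by simp; norm_num, by simp; norm_num, by simp; norm_num, fun j => ?_⟩
    simp <;> ring

theorem lcons_inl (j0 : Fin n) : LCons (k := n + 1) (fun s : Fin n ⊕ Fin 4 => cone (A s))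
      (fun s => (Fin.cons 1 (P s) : Fin (n + 2) → ℝ)) {Sum.inl j0}ᶜ := by
  have he := eps_pos j0
  have he' := eps_lt j0
  have h23 : 0 < 2 - 3 * eps j0 := by linarith
  have h35 : 0 < 3 - 5 * eps j0 := by linarith
  obtain ⟨q, hq, hq0⟩ : ∃ q : ℝ, q * (2 - 3 * eps j0) = 3 - 5 * eps j0 ∧ 0 < q :=
    ⟨(3 - 5 * eps j0) / (2 - 3 * eps j0), div_mul_cancel₀ _ h23.ne', div_pos h35 h23⟩
  obtain ⟨w, hw, hw0, hw1⟩ : ∃ w : ℝ, w * (3 - 5 * eps j0) = 3 * (1 - 4 * eps j0) ∧ 0 ≤ w ∧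
      w ≤ 1 :=
    ⟨3 * (1 - 4 * eps j0) / (3 - 5 * eps j0), div_mul_cancel₀ _ h35.ne',
      div_nonneg (by linarith) h35.le, (div_le_one h35).2 (by linarith)⟩
  refine lcons_of_data _ (Sum.elim (fun j => -(eps j - eps j0))
    ![-eps j0, 1, 3 * eps j0 - 2, 1 - 2 * eps j0]) (by simp) ?_ ?_
    (h := ![1, 1, q, 2]) (t := ![0, 0, w, 1])
    (m := fun _ => 1) ?_ ?_ ?_ ?_ ?_
  · rintro (j | i) hs
    · simp only [Sum.elim_inl]
      intro h
      apply hs
      rw [eps_inj (by linarith : eps j = eps j0)]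
    · fin_cases i <;> simp
      · exact he.ne'
      · linarith
      · linarith
  · rw [relQ_iff]
    refine ⟨by simp; ring, by simp; ring, fun j => ?_⟩
    simp only [Sum.elim_inr, Sum.elim_inl, Matrix.cons_val_zero, Matrix.cons_val_one]
    ring
  · intro i; fin_cases i <;> simp [hq0]
  · intro i; fin_cases i <;> simp [hw0]
  · intro i; fin_cases i <;> simp [hw1]
  · intro j
    exact one_pos
  · rw [rel_iff]
    refine ⟨?_, ?_, ?_, fun j => ?_⟩
    · simp only [Sum.elim_inr, Matrix.cons_val_zero, Matrix.cons_val_one, Matrix.cons_val]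
      linear_combination (-1) * hq
    · simp only [Sum.elim_inr, Matrix.cons_val_zero, Matrix.cons_val_one, Matrix.cons_val]
      linear_combination (-2) * hq
    · simp only [Sum.elim_inr, Matrix.cons_val_zero, Matrix.cons_val_one, Matrix.cons_val]
      linear_combination (-w / 3) * hq - 1 / 3 * hw
    · simp only [Sum.elim_inr, Sum.elim_inl, Matrix.cons_val_zero, Matrix.cons_val_one]
      ring

theorem not_lcons : ¬ LCons (k := n + 1) (fun s : Fin n ⊕ Fin 4 => cone (A s))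
      (fun s => (Fin.cons 1 (P s) : Fin (n + 2) → ℝ)) Set.univ := by
  rintro ⟨f, x, hf, hx, hag⟩
  obtain ⟨h, t, m, hh, ht0, ht1, hm, rfl⟩ := exists_pt fun s => (hx s (Set.mem_univ _)).1
  have hrelP : ∀ c : Fin n ⊕ Fin 4 → ℝ, ∑ s, c s • Q s = 0 →
      ∑ s, (c s * Q s 0) • (Fin.cons 1 (P s) : Fin (n + 2) → ℝ) = 0 := by
    intro c hc
    rw [← hc]
    refine Finset.sum_congr rfl fun s _ => ?_
    rw [cons_P, smul_smul, mul_assoc, mul_inv_cancel₀ (Q_pos s).ne', mul_one]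
  -- the relation between the first three sets
  obtain ⟨ν, hν, hrel⟩ := exists_rel_compl lsep hf hx hag card_idx (Sum.inr 3)
    (fun s => Sum.elim (fun j => -(1 - 2 * eps j)) ![1, -2, 1, 0] s * Q s 0) (by simp) (by
      rintro (j | i) hs
      · have := eps_lt j
        refine mul_ne_zero ?_ (Q_pos _).ne'
        simp only [Sum.elim_inl]
        linarith
      · refine mul_ne_zero ?_ (Q_pos _).ne'
        fin_cases i <;> simp at hs ⊢) (hrelP _ (by
      rw [relQ_iff]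
      refine ⟨by simp; norm_num, by simp; norm_num, fun j => ?_⟩
      simp))
  -- the relation between the last three sets
  obtain ⟨ν', hν', hrel'⟩ := exists_rel_compl lsep hf hx hag card_idx (Sum.inr 0)
    (fun s => Sum.elim (fun j => -eps j) ![0, 1, -2, 1] s * Q s 0) (by simp) (by
      rintro (j | i) hs
      · have := eps_pos j
        refine mul_ne_zero ?_ (Q_pos _).ne'
        simp only [Sum.elim_inl]
        linarith
      · refine mul_ne_zero ?_ (Q_pos _).ne'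
        fin_cases i <;> simp at hs ⊢) (hrelP _ (by
      rw [relQ_iff]
      refine ⟨by simp; norm_num, by simp; norm_num, fun j => ?_⟩
      simp))
  rw [rel_iff] at hrel hrel'
  obtain ⟨a1, a2, a3, -⟩ := hrel
  obtain ⟨b1, b2, -, -⟩ := hrel'
  simp only [Sum.elim_inr, Matrix.cons_val_zero, Matrix.cons_val_one, Matrix.cons_val, one_mul,
    zero_mul, add_zero, zero_add] at a1 a2 a3 b1 b2
  have q0 := Q_pos (n := n) (Sum.inr 0)
  have q1 := Q_pos (n := n) (Sum.inr 1)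
  have q2 := Q_pos (n := n) (Sum.inr 2)
  have q3 := Q_pos (n := n) (Sum.inr 3)
  have w0 := mul_pos (mul_pos q0 (hν (Sum.inr 0))) (hh 0)
  have w1 := mul_pos (mul_pos q1 (hν (Sum.inr 1))) (hh 1)
  have w2 := mul_pos (mul_pos q2 (hν (Sum.inr 2))) (hh 2)
  have w1' := mul_pos (mul_pos q1 (hν' (Sum.inr 1))) (hh 1)
  have w2' := mul_pos (mul_pos q2 (hν' (Sum.inr 2))) (hh 2)
  have w3' := mul_pos (mul_pos q3 (hν' (Sum.inr 3))) (hh 3)
  -- the three points are `(0,0)`, `(1,0)`, `(2,0)`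
  have y0 : 0 ≤ Q (n := n) (Sum.inr 0) 0 * ν (Sum.inr 0) * h 0 * (3 * t 0) :=
    mul_nonneg w0.le (by linarith [ht0 0])
  have y1 : 0 ≤ Q (n := n) (Sum.inr 1) 0 * ν (Sum.inr 1) * h 1 * (1 - t 1) :=
    mul_nonneg w1.le (by linarith [ht1 1])
  have y2 : 0 ≤ Q (n := n) (Sum.inr 2) 0 * ν (Sum.inr 2) * h 2 * (t 2 / 3) :=
    mul_nonneg w2.le (by linarith [ht0 2])
  have z0 : t 0 = 0 := by
    have : Q (n := n) (Sum.inr 0) 0 * ν (Sum.inr 0) * h 0 * (3 * t 0) = 0 := by linarith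
    have := (mul_eq_zero.1 this).resolve_left w0.ne'
    linarith
  have z1 : t 1 = 1 := by
    have : Q (n := n) (Sum.inr 1) 0 * ν (Sum.inr 1) * h 1 * (1 - t 1) = 0 := by linarith
    have := (mul_eq_zero.1 this).resolve_left w1.ne'
    linarith
  -- the hyperplane
  have hfx : ∀ s, f ⬝ᵥ pt h t m s = 0 := fun s => (hx s (Set.mem_univ _)).2
  have hdot : ∀ (h x y : ℝ) (z : Fin n → ℝ), f ⬝ᵥ mk h x y z =
      f 0 * h + f 1 * x + f 2 * y + ∑ j : Fin n, (f 0 + f j.succ.succ.succ) * z j := by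
    intro h x y z
    simp only [mk, dotProduct, Fin.sum_univ_succ, Fin.cons_zero, Fin.cons_succ]
    have e1 : (0 : Fin (n + 2)).succ = (1 : Fin (n + 3)) := rfl
    have e2 : (0 : Fin (n + 1)).succ.succ = (2 : Fin (n + 3)) := rfl
    rw [e1, e2]
    simp only [add_mul, Finset.sum_add_distrib, mul_add, Finset.mul_sum]
    ring
  have hz : ∀ j : Fin n, f 0 + f j.succ.succ.succ = 0 := by
    intro j
    have := hfx (Sum.inl j)
    rw [pt, hdot] at this
    simp only [mul_zero, add_zero, zero_add, Pi.smul_apply, smul_eq_mul, Pi.single_apply] at this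
    rw [Finset.sum_eq_single j] at this
    · rw [if_pos rfl, mul_one] at this
      exact (mul_eq_zero.1 this).resolve_right (hm j).ne'
    · intro b _ hb
      rw [if_neg hb]
      simp
    · simp
  have hdot' : ∀ (h x y : ℝ) (z : Fin n → ℝ), f ⬝ᵥ mk h x y z = f 0 * h + f 1 * x + f 2 * y := by
    intro h x y z
    rw [hdot]
    simp [hz]
  have g0 := hfx (Sum.inr 0)
  have g1 := hfx (Sum.inr 1)
  have g3 := hfx (Sum.inr 3)
  rw [pt, hdot'] at g0 g1 g3
  simp only [px, py, Matrix.cons_val_zero, Matrix.cons_val_one, Matrix.cons_val, z0, z1, mul_zero,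
    add_zero, mul_one, sub_self] at g0 g1 g3
  have f0 : f 0 = 0 := (mul_eq_zero.1 g0).resolve_right (hh 0).ne'
  have f1 : f 1 = 0 := by
    rw [f0, zero_mul, zero_add] at g1
    exact (mul_eq_zero.1 g1).resolve_right (hh 1).ne'
  have f2 : f 2 ≠ 0 := by
    intro f2
    apply hf
    funext i
    refine Fin.cases f0 (fun i => Fin.cases f1 (fun i => Fin.cases f2 (fun j => ?_) i) i) i
    have := hz j
    rw [f0, zero_add] at this
    exact this
  rw [f0, f1] at g3
  simp only [zero_mul, zero_add] at g3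
  have g4 := (mul_eq_zero.1 ((mul_eq_zero.1 g3).resolve_left f2)).resolve_left (hh 3).ne'
  have z3 : t 3 = 1 / 5 := by linarith
  rw [z3] at b2
  linarith

end data

end Low

theorem lower_example (n : ℕ) :
    ∃ (a : Fin n ⊕ Fin 4 → Set (Fin (n + 2) → ℝ)) (p : Fin n ⊕ Fin 4 → Fin (n + 1) → ℝ),
      (∀ s, Convex ℝ (a s)) ∧ (∀ s, IsCompact (a s)) ∧ (∀ s t, s ≠ t → Disjoint (a s) (a t)) ∧
      LSep (fun s => cone (a s)) ∧
      (∀ s, LCons (fun s => cone (a s)) (fun s => (Fin.cons 1 (p s) : Fin (n + 2) → ℝ)) {s}ᶜ) ∧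
      ¬ LCons (fun s => cone (a s)) (fun s => (Fin.cons 1 (p s) : Fin (n + 2) → ℝ)) Set.univ := by
  refine ⟨Low.A, Low.P, fun s => convex_segment _ _, fun s => Low.isCompact_seg _ _, ?_, Low.lsep,
    ?_, Low.not_lcons⟩
  · exact Low.disjoint_of_indep (by simp) Low.cone_nonempty Low.indep
  · rintro (j | i)
    · exact Low.lcons_inl j
    · fin_cases i
      · exact Low.lcons_zero
      · exact Low.lcons_one
      · exact Low.lcons_two
      · exact Low.lcons_three

end Pool.Agent.HT
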