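import Mathlib
import Pool.Agent.HT.Defs

/-!
# Translation of the affine definitions into the linear model
-/

namespace Pool.Agent.HT

open scoped Matrix

namespace Tr

/-! ### cones -/

/-- the point of a set which is represented by a vector of the cone -/
noncomputable def pt {m : ℕ} (v : Fin (m + 1) → ℝ) : Fin m → ℝ := fun i => v i.succ / v 0

lemma eq_smul_pt {m : ℕ} {v : Fin (m + 1) → ℝ} (h : v 0 ≠ 0) :
    v = v 0 • (Fin.cons 1 (pt v) : Fin (m + 1) → ℝ) := by
  ext i
  refine Fin.cases ?_ (fun i => ?_) i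
  · simp
  · simp only [Pi.smul_apply, Fin.cons_succ, pt, smul_eq_mul]
    field_simp

lemma mem_cone {m : ℕ} {a : Set (Fin m → ℝ)} {v : Fin (m + 1) → ℝ} :
    v ∈ cone a ↔ 0 < v 0 ∧ pt v ∈ a := Iff.rfl

lemma cons_mem_cone {m : ℕ} {a : Set (Fin m → ℝ)} {y : Fin m → ℝ} (h : y ∈ a) :
    (Fin.cons 1 y : Fin (m + 1) → ℝ) ∈ cone a := by
  refine ⟨by simp, ?_⟩
  have : (fun i : Fin m => (Fin.cons 1 y : Fin (m + 1) → ℝ) i.succ
      / (Fin.cons 1 y : Fin (m + 1) → ℝ) 0) = y := by
    ext i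
    simp
  show (fun i : Fin m => (Fin.cons 1 y : Fin (m + 1) → ℝ) i.succ
      / (Fin.cons 1 y : Fin (m + 1) → ℝ) 0) ∈ a
  rw [this]
  exact h

/-! ### linear and affine independence -/

lemma sum_smul_cons {m n : ℕ} (w : Fin n → ℝ) (y : Fin n → Fin m → ℝ) :
    ∑ j, w j • (Fin.cons 1 (y j) : Fin (m + 1) → ℝ) = Fin.cons (∑ j, w j) (∑ j, w j • y j) := by
  ext i
  refine Fin.cases ?_ (fun i => ?_) i
  · simp
  · simp

lemma linearIndependent_cons_iff {m n : ℕ} (y : Fin n → Fin m → ℝ) :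
    LinearIndependent ℝ (fun j => (Fin.cons 1 (y j) : Fin (m + 1) → ℝ)) ↔
      AffineIndependent ℝ y := by
  classical
  rw [Fintype.linearIndependent_iff, affineIndependent_iff]
  constructor
  · intro h s w hw hy e he
    have := h (fun j => if j ∈ s then w j else 0) ?_ e
    · simpa [he] using this
    · rw [sum_smul_cons]
      ext i
      refine Fin.cases ?_ (fun i => ?_) i
      · simpa using hw
      · have h1 := congrFun hy i
        simp only [Finset.sum_apply, Pi.smul_apply, Pi.zero_apply] at h1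
        simpa [ite_smul, Finset.sum_apply] using h1
  · intro h w hw i
    rw [sum_smul_cons] at hw
    refine h Finset.univ w ?_ ?_ i (Finset.mem_univ i)
    · have := congrFun hw 0
      simpa using this
    · ext i
      have := congrFun hw i.succ
      simpa using this

lemma separated_iff {k n : ℕ} (a : Fin n → Set (Fin (k + 1) → ℝ)) :
    Separated a ↔ LSep (fun s => cone (a s)) := by
  constructor
  · intro h t ht x hx
    have hx0 : ∀ j, 0 < x j 0 := fun j => (hx j).1
    have hxa : ∀ j, pt (x j) ∈ a (t j) := fun j => (hx j).2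
    have hai : AffineIndependent ℝ fun j => pt (x j) := by
      rw [affineIndependent_iff_le_finrank_vectorSpan ℝ _ (n := k) (by simp)]
      by_contra hc
      push Not at hc
      rw [← direction_affineSpan] at hc
      obtain ⟨j, hj⟩ := h _ hc t ht
      exact hj _ (hxa j) (subset_affineSpan ℝ _ ⟨j, rfl⟩)
    rw [← linearIndependent_cons_iff] at hai
    have h1 := hai.units_smul (fun j => Units.mk0 (x j 0) (hx0 j).ne')
    convert h1 using 1
    ext1 j
    exact eq_smul_pt (hx0 j).ne'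
  · intro h W hW t ht
    by_contra hc
    push Not at hc
    choose y hy hyW using hc
    have h1 := h t ht (fun j => Fin.cons 1 (y j)) (fun j => cons_mem_cone (hy j))
    rw [linearIndependent_cons_iff] at h1
    have h2 := h1.finrank_vectorSpan (n := k) (by simp)
    have h3 : vectorSpan ℝ (Set.range y) ≤ W.direction := by
      rw [← direction_affineSpan]
      apply AffineSubspace.direction_le
      apply affineSpan_le.mpr
      rintro _ ⟨j, rfl⟩
      exact hyW j
    have h4 := Submodule.finrank_mono h3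
    omega

/-! ### determinants -/

lemma orn_succ {k : ℕ} (f : Fin (k + 2) → ℝ) (X : Fin (k + 1) → Fin (k + 2) → ℝ) :
    orn f X = ∑ j : Fin (k + 2), (-1) ^ (j : ℕ) * f j *
      (Matrix.of fun i : Fin (k + 1) => fun l : Fin (k + 1) => X i (j.succAbove l)).det := by
  unfold orn
  rw [Matrix.det_succ_row_zero]
  rfl

lemma orn_neg {k : ℕ} (f : Fin (k + 2) → ℝ) (X : Fin (k + 1) → Fin (k + 2) → ℝ) :
    orn (-f) X = -orn f X := by
  rw [orn_succ, orn_succ, ← Finset.sum_neg_distrib]
  apply Finset.sum_congr rfl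
  intro j _
  simp

lemma orn_smul_rows {k : ℕ} (f : Fin (k + 2) → ℝ) (c : Fin (k + 1) → ℝ)
    (X : Fin (k + 1) → Fin (k + 2) → ℝ) :
    orn f (fun j => c j • X j) = (∏ j, c j) * orn f X := by
  unfold orn
  have h := Matrix.det_mul_column (Fin.cons 1 c : Fin (k + 2) → ℝ)
    (Matrix.of (Fin.cons f X : Fin (k + 2) → Fin (k + 2) → ℝ))
  rw [Fin.prod_univ_succ] at h
  simp only [Fin.cons_zero, Fin.cons_succ, one_mul] at h
  rw [← h]
  congr 1
  ext i l
  refine Fin.cases ?_ (fun i => ?_) i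
  · simp
  · simp

/-- the matrix of an affine map, in homogeneous coordinates -/
noncomputable def hmat {k m : ℕ} (φ : (Fin k → ℝ) →ᵃ[ℝ] (Fin m → ℝ)) :
    Fin (k + 1) → Fin (m + 1) → ℝ :=
  Fin.cons (Fin.cons 1 (φ 0)) fun j => Fin.cons 0 (φ.linear (Pi.single j 1))

lemma cons_map {k m : ℕ} (φ : (Fin k → ℝ) →ᵃ[ℝ] (Fin m → ℝ)) (q : Fin k → ℝ) :
    (Fin.cons 1 (φ q) : Fin (m + 1) → ℝ)
      = ∑ j, (Fin.cons 1 q : Fin (k + 1) → ℝ) j • hmat φ j := by
  have h1 : φ q = φ 0 + ∑ j, q j • φ.linear (Pi.single j 1) := by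
    have h2 : φ q = φ.linear q + φ 0 := by
      have := φ.map_vadd 0 q
      simpa using this
    rw [h2, add_comm]
    congr 1
    have h3 : q = ∑ j, q j • (Pi.single j 1 : Fin k → ℝ) := by
      ext i
      simp [Finset.sum_apply, Pi.single_apply]
    conv_lhs => rw [h3]
    rw [map_sum]
    apply Finset.sum_congr rfl
    intro j _
    rw [map_smul]
  rw [Fin.sum_univ_succ]
  unfold hmat
  simp only [Fin.cons_zero, Fin.cons_succ, one_smul]
  ext i
  refine Fin.cases ?_ (fun i => ?_) i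
  · simp [Finset.sum_apply]
  · simp [Finset.sum_apply, h1]

lemma orn_map {k : ℕ} (φ : (Fin k → ℝ) →ᵃ[ℝ] (Fin (k + 1) → ℝ)) (f : Fin (k + 2) → ℝ)
    (q : Fin (k + 1) → Fin k → ℝ) :
    orn f (fun j => Fin.cons 1 (φ (q j))) = orient q * orn f (hmat φ) := by
  set Q : Fin (k + 1) → Fin (k + 1) → ℝ := fun i => Fin.cons 1 (q i) with hQ
  set A : Matrix (Fin (k + 2)) (Fin (k + 2)) ℝ :=
    Matrix.of (Fin.cons (Fin.cons 1 0) fun i => Fin.cons 0 (Q i)) with hA
  have h1 : A.det = orient q := by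
    rw [Matrix.det_succ_row_zero, Fin.sum_univ_succ]
    have h2 : ∀ j : Fin (k + 1), A 0 j.succ = 0 := by
      intro j
      simp [hA]
    simp only [h2, mul_zero, zero_mul, Finset.sum_const_zero, add_zero]
    have h3 : A 0 0 = 1 := by simp [hA]
    rw [h3]
    simp only [Fin.val_zero, pow_zero, one_mul]
    unfold orient
    congr 1
  rw [← h1]
  unfold orn
  rw [← Matrix.det_mul]
  congr 1
  ext i l
  rw [Matrix.mul_apply, Fin.sum_univ_succ]
  refine Fin.cases ?_ (fun i => ?_) i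
  · simp [hA]
  · simp only [hA, Matrix.of_apply, Fin.cons_succ, Fin.cons_zero, zero_mul, zero_add]
    rw [cons_map]
    simp only [Finset.sum_apply, Pi.smul_apply, smul_eq_mul]
    rfl

lemma orn_ne_zero_aux {k : ℕ} {f : Fin (k + 2) → ℝ} {X : Fin (k + 1) → Fin (k + 2) → ℝ}
    (hf : f ≠ 0) (hX : LinearIndependent ℝ X) (h : ∀ i, f ⬝ᵥ X i = 0) : orn f X ≠ 0 := by
  intro h0
  unfold orn at h0
  rw [← Matrix.exists_vecMul_eq_zero_iff] at h0
  obtain ⟨v, hv, hv0⟩ := h0
  have h1 : v 0 • f + ∑ i : Fin (k + 1), v i.succ • X i = 0 := by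
    ext l
    have := congrFun hv0 l
    rw [Matrix.vecMul, dotProduct, Fin.sum_univ_succ] at this
    simpa [Finset.sum_apply] using this
  have h2 : v 0 * (f ⬝ᵥ f) = 0 := by
    have := congrArg (fun u => f ⬝ᵥ u) h1
    simpa [dotProduct_add, dotProduct_smul, dotProduct_sum, h] using this
  have h3 : f ⬝ᵥ f ≠ 0 := by
    rw [Ne, dotProduct_self_eq_zero]
    exact hf
  have h4 : v 0 = 0 := (mul_eq_zero.mp h2).resolve_right h3
  rw [h4, zero_smul, zero_add] at h1
  have h5 := Fintype.linearIndependent_iff.mp hX _ h1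
  apply hv
  ext i
  refine Fin.cases ?_ (fun i => ?_) i
  · exact h4
  · exact h5 i

lemma orient_perm {k : ℕ} (q : Fin (k + 1) → Fin k → ℝ) (σ : Equiv.Perm (Fin (k + 1))) :
    orient (fun j => q (σ j)) = Equiv.Perm.sign σ * orient q := by
  unfold orient
  rw [← Matrix.det_permute]
  rfl

lemma orient_eq_zero {k : ℕ} (q : Fin (k + 1) → Fin k → ℝ) {i j : Fin (k + 1)} (hij : i ≠ j)
    (h : q i = q j) : orient q = 0 := by
  unfold orient
  apply Matrix.det_zero_of_row_eq hij
  show (Fin.cons 1 (q i) : Fin (k + 1) → ℝ) = Fin.cons 1 (q j)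
  rw [h]

/-- agreement on increasing tuples is enough -/
lemma sign_all {k n : ℕ} {q p : Fin n → Fin k → ℝ} {B : Set (Fin n)}
    (h : ∀ t : Fin (k + 1) → Fin n, StrictMono t → (∀ j, t j ∈ B) →
      SignType.sign (orient fun j => q (t j)) = SignType.sign (orient fun j => p (t j)))
    (t : Fin (k + 1) → Fin n) (ht : ∀ j, t j ∈ B) :
    SignType.sign (orient fun j => q (t j)) = SignType.sign (orient fun j => p (t j)) := by
  by_cases hinj : Function.Injective t
  · have h1 : StrictMono (t ∘ Tuple.sort t) :=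
      (Tuple.monotone_sort t).strictMono_of_injective (hinj.comp (Equiv.injective _))
    have h2 := h (t ∘ Tuple.sort t) h1 (fun j => ht _)
    have e1 := orient_perm (fun j => q (t j)) (Tuple.sort t)
    have e2 := orient_perm (fun j => p (t j)) (Tuple.sort t)
    simp only [Function.comp] at h2
    rw [e1, e2, sign_mul, sign_mul] at h2
    rcases Int.units_eq_one_or (Equiv.Perm.sign (Tuple.sort t)) with hs | hs
    · rw [hs] at h2
      simpa using h2
    · rw [hs] at h2
      simpa using h2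
  · rw [Function.not_injective_iff] at hinj
    obtain ⟨i, j, hij, hne⟩ := hinj
    rw [orient_eq_zero (fun j => q (t j)) hne (by rw [hij]),
      orient_eq_zero (fun j => p (t j)) hne (by rw [hij])]

/-! ### from affine to linear -/

lemma hmat_linearIndependent {k m : ℕ} {φ : (Fin k → ℝ) →ᵃ[ℝ] (Fin m → ℝ)}
    (hφ : Function.Injective φ) : LinearIndependent ℝ (hmat φ) := by
  rw [Fintype.linearIndependent_iff]
  intro c hc
  rw [Fin.sum_univ_succ] at hc
  unfold hmat at hc
  simp only [Fin.cons_zero, Fin.cons_succ] at hc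
  have h0 : c 0 = 0 := by
    have := congrFun hc 0
    simpa [Finset.sum_apply] using this
  rw [h0, zero_smul, zero_add] at hc
  have h1 : φ.linear (fun j => c j.succ) = 0 := by
    have h3 : (fun j : Fin k => c j.succ) = ∑ j, c (Fin.succ j) • (Pi.single j 1 : Fin k → ℝ) := by
      ext i
      simp [Finset.sum_apply, Pi.single_apply]
    rw [h3, map_sum]
    ext i
    have := congrFun hc i.succ
    simpa [Finset.sum_apply] using this
  have h2 : Function.Injective φ.linear := φ.linear_injective_iff.mpr hφ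
  have h3 : (fun j : Fin k => c j.succ) = 0 := by
    apply h2
    rw [h1, map_zero]
  intro i
  refine Fin.cases ?_ (fun i => ?_) i
  · exact h0
  · exact congrFun h3 i

lemma exists_normal {k : ℕ} (M : Fin (k + 1) → Fin (k + 2) → ℝ) :
    ∃ f : Fin (k + 2) → ℝ, f ≠ 0 ∧ ∀ j, f ⬝ᵥ M j = 0 := by
  have h : LinearMap.ker (Matrix.mulVecLin (Matrix.of M)) ≠ ⊥ := by
    apply LinearMap.ker_ne_bot_of_finrank_lt
    simp
  obtain ⟨f, hf, hf0⟩ := Submodule.exists_mem_ne_zero_of_ne_bot h
  refine ⟨f, hf0, fun j => ?_⟩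
  have := congrFun (LinearMap.mem_ker.mp hf) j
  rw [dotProduct_comm]
  exact this

lemma dot_map {k m : ℕ} {φ : (Fin k → ℝ) →ᵃ[ℝ] (Fin m → ℝ)} {f : Fin (m + 1) → ℝ}
    (h : ∀ j, f ⬝ᵥ hmat φ j = 0) (q : Fin k → ℝ) :
    f ⬝ᵥ (Fin.cons 1 (φ q) : Fin (m + 1) → ℝ) = 0 := by
  rw [cons_map, dotProduct_sum]
  apply Finset.sum_eq_zero
  intro j _
  rw [dotProduct_smul, h j, smul_zero]

lemma lcons_of_consistent {k n : ℕ} {a : Fin n → Set (Fin (k + 1) → ℝ)}
    {p : Fin n → Fin k → ℝ} {B : Finset (Fin n)} (h : Consistent a p B) :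
    LCons (fun s => cone (a s)) (fun s => (Fin.cons 1 (p s) : Fin (k + 1) → ℝ))
      (B : Set (Fin n)) := by
  obtain ⟨φ, q, hφ, hq, hs⟩ := h
  obtain ⟨f, hf, hfo, hfM⟩ : ∃ f : Fin (k + 2) → ℝ, f ≠ 0 ∧ (∀ j, f ⬝ᵥ hmat φ j = 0) ∧
      0 < orn f (hmat φ) := by
    obtain ⟨f, hf, hfo⟩ := exists_normal (hmat φ)
    have h1 := orn_ne_zero_aux hf (hmat_linearIndependent hφ) hfo
    rcases lt_or_gt_of_ne h1 with h2 | h2
    · refine ⟨-f, neg_ne_zero.mpr hf, fun j => ?_, ?_⟩
      · rw [neg_dotProduct, hfo j, neg_zero]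
      · rw [orn_neg]
        linarith
    · exact ⟨f, hf, hfo, h2⟩
  refine ⟨f, fun s => Fin.cons 1 (φ (q s)), hf, ?_, ?_⟩
  · intro s hs
    exact ⟨cons_mem_cone (hq s hs), dot_map hfo _⟩
  · intro t ht
    have h1 := orn_map φ f (fun j => q (t j))
    rw [h1, sign_mul, sign_pos hfM, mul_one]
    exact sign_all (B := (B : Set (Fin n))) hs t ht

/-! ### from linear to affine -/

/-- reflection of the first coordinate -/
noncomputable def refl (k : ℕ) : (Fin (k + 1) → ℝ) →ₗ[ℝ] (Fin (k + 1) → ℝ) where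
  toFun v := fun j => if j = 0 then -v j else v j
  map_add' v w := by
    ext j
    by_cases hj : j = 0
    · simp [hj]
      ring
    · simp [hj]
  map_smul' c v := by
    ext j
    by_cases hj : j = 0
    · simp [hj]
    · simp [hj]

lemma refl_refl (k : ℕ) (v : Fin (k + 1) → ℝ) : refl k (refl k v) = v := by
  ext j
  by_cases hj : j = 0
  · simp [refl, hj]
  · simp [refl, hj]

lemma orient_refl {k : ℕ} (q : Fin (k + 1 + 1) → Fin (k + 1) → ℝ) :
    orient (fun j => refl k (q j)) = -orient q := by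
  unfold orient
  have h := Matrix.det_mul_row (Fin.cons 1 (fun j : Fin (k + 1) => if j = 0 then -1 else 1) :
    Fin (k + 2) → ℝ) (Matrix.of fun i => (Fin.cons 1 (q i) : Fin (k + 2) → ℝ))
  have h2 : ∏ i : Fin (k + 2), (Fin.cons 1 (fun j : Fin (k + 1) => if j = 0 then -1 else 1) :
    Fin (k + 2) → ℝ) i = -1 := by
    rw [Fin.prod_univ_succ, Fin.prod_univ_succ]
    simp
  rw [h2] at h
  rw [← neg_one_mul, ← h]
  congr 1
  ext i l
  refine Fin.cases ?_ (fun l => ?_) l
  · simp
  · by_cases hl : l = 0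
    · simp [refl, hl]
    · simp [refl, hl]

/-- an affine parametrisation of a hyperplane -/
lemma exists_param {k : ℕ} (f : Fin (k + 2) → ℝ) (hf : f ≠ 0) (y0 : Fin (k + 1) → ℝ)
    (h0 : f ⬝ᵥ (Fin.cons 1 y0 : Fin (k + 2) → ℝ) = 0) :
    ∃ φ : (Fin k → ℝ) →ᵃ[ℝ] (Fin (k + 1) → ℝ), Function.Injective φ ∧
      (∀ j, f ⬝ᵥ hmat φ j = 0) ∧
      ∀ y, f ⬝ᵥ (Fin.cons 1 y : Fin (k + 2) → ℝ) = 0 → ∃ q, φ q = y := by
  have hdot : ∀ c : ℝ, ∀ y : Fin (k + 1) → ℝ, f ⬝ᵥ (Fin.cons c y : Fin (k + 2) → ℝ)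
      = f 0 * c + (fun i : Fin (k + 1) => f i.succ) ⬝ᵥ y := by
    intro c y
    unfold dotProduct
    rw [Fin.sum_univ_succ]
    simp
  set g : Fin (k + 1) → ℝ := fun i => f i.succ with hg
  have hg0 : g ≠ 0 := by
    intro hc
    rw [hdot, hc, zero_dotProduct] at h0
    apply hf
    ext i
    refine Fin.cases ?_ (fun i => ?_) i
    · simpa using h0
    · exact congrFun hc i
  let G : (Fin (k + 1) → ℝ) →ₗ[ℝ] ℝ := 
    { toFun := fun y => g ⬝ᵥ y
      map_add' := fun y z => dotProduct_add _ _ _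
      map_smul' := fun c y => dotProduct_smul _ _ _ }
  have hG : LinearMap.range G = ⊤ := by
    rw [LinearMap.range_eq_top]
    apply LinearMap.surjective
    intro hc
    apply hg0
    have : G g = 0 := by rw [hc]; rfl
    exact dotProduct_self_eq_zero.mp this
  have hker : Module.finrank ℝ (LinearMap.ker G) = k := by
    have h1 := LinearMap.finrank_range_add_finrank_ker G
    rw [hG, finrank_top, Module.finrank_self, Module.finrank_fin_fun] at h1
    omega
  have e : (Fin k → ℝ) ≃ₗ[ℝ] LinearMap.ker G :=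
    LinearEquiv.ofFinrankEq _ _ (by rw [hker, Module.finrank_fin_fun])
  let L : (Fin k → ℝ) →ₗ[ℝ] (Fin (k + 1) → ℝ) := (LinearMap.ker G).subtype ∘ₗ e.toLinearMap
  have hL : Function.Injective L := fun u v huv => e.injective (Subtype.ext huv)
  have hLG : ∀ v, g ⬝ᵥ L v = 0 := fun v => LinearMap.mem_ker.mp (e v).2
  let φ : (Fin k → ℝ) →ᵃ[ℝ] (Fin (k + 1) → ℝ) :=
    { toFun := fun q => L q + y0
      linear := L
      map_vadd' := fun p v => by
        simp only [vadd_eq_add, map_add]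
        abel }
  refine ⟨φ, fun u v huv => ?_, ?_, ?_⟩
  · apply hL
    have : L u + y0 = L v + y0 := huv
    exact add_right_cancel this
  · intro j
    refine Fin.cases ?_ (fun j => ?_) j
    · show f ⬝ᵥ (Fin.cons 1 (L 0 + y0) : Fin (k + 2) → ℝ) = 0
      rw [map_zero, zero_add]
      exact h0
    · show f ⬝ᵥ (Fin.cons 0 (L (Pi.single j 1)) : Fin (k + 2) → ℝ) = 0
      rw [hdot, mul_zero, zero_add]
      exact hLG _
  · intro y hy
    have h1 : y - y0 ∈ LinearMap.ker G := by
      rw [LinearMap.mem_ker]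
      show g ⬝ᵥ (y - y0) = 0
      rw [hdot] at hy h0
      rw [dotProduct_sub]
      linarith
    refine ⟨e.symm ⟨y - y0, h1⟩, ?_⟩
    show L (e.symm ⟨y - y0, h1⟩) + y0 = y
    have h2 : L (e.symm ⟨y - y0, h1⟩) = y - y0 := by
      show ((e (e.symm ⟨y - y0, h1⟩) : LinearMap.ker G) : Fin (k + 1) → ℝ) = y - y0
      rw [LinearEquiv.apply_symm_apply]
    rw [h2, sub_add_cancel]

lemma consistent_of_lcons {k n : ℕ} (hk : 1 ≤ k) {a : Fin n → Set (Fin (k + 1) → ℝ)}
    {p : Fin n → Fin k → ℝ} {B : Finset (Fin n)}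
    (h : LCons (fun s => cone (a s)) (fun s => (Fin.cons 1 (p s) : Fin (k + 1) → ℝ))
      (B : Set (Fin n))) : Consistent a p B := by
  obtain ⟨f, x, hf, hx, hag⟩ := h
  rcases B.eq_empty_or_nonempty with hB | ⟨s0, hs0⟩
  · subst hB
    refine ⟨(LinearMap.pi fun i : Fin (k + 1) => 
      (if h : (i : ℕ) < k then LinearMap.proj ⟨i, h⟩ else 0) :
        (Fin k → ℝ) →ₗ[ℝ] (Fin (k + 1) → ℝ)).toAffineMap, 0, ?_, ?_, ?_⟩
    · intro u v huv
      ext j
      have := congrFun huv ⟨j, by omega⟩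
      simpa using this
    · intro i hi
      simp at hi
    · intro t _ ht
      exact absurd (ht 0) (by simp)
  · have hx0 : ∀ s ∈ B, 0 < x s 0 := fun s hs => (hx s hs).1.1
    have hxa : ∀ s ∈ B, pt (x s) ∈ a s := fun s hs => (hx s hs).1.2
    have hxf : ∀ s ∈ B, f ⬝ᵥ (Fin.cons 1 (pt (x s)) : Fin (k + 2) → ℝ) = 0 := by
      intro s hs
      have h1 := (hx s hs).2
      rw [eq_smul_pt (hx0 s hs).ne', dotProduct_smul] at h1
      rcases smul_eq_zero.mp h1 with h2 | h2
      · exact absurd h2 (hx0 s hs).ne'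
      · exact h2
    obtain ⟨φ, hφ, hfo, hsurj⟩ := exists_param f hf (pt (x s0)) (hxf s0 hs0)
    have hq : ∀ s : Fin n, ∃ q : Fin k → ℝ, s ∈ B → φ q = pt (x s) := by
      intro s
      by_cases hs : s ∈ B
      · obtain ⟨q, hq⟩ := hsurj _ (hxf s hs)
        exact ⟨q, fun _ => hq⟩
      · exact ⟨0, fun hc => absurd hc hs⟩
    choose q hq using hq
    have h1 := orn_ne_zero_aux hf (hmat_linearIndependent hφ) hfo
    have key : ∀ t : Fin (k + 1) → Fin n, (∀ j, t j ∈ B) →
        SignType.sign (orient fun j => q (t j)) * SignType.sign (orn f (hmat φ)) =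
          SignType.sign (orient fun j => p (t j)) := by
      intro t ht
      have h2 := hag t ht
      have h3 : (fun j => x (t j)) = fun j => x (t j) 0 •
          (Fin.cons 1 (φ (q (t j))) : Fin (k + 2) → ℝ) := by
        ext1 j
        rw [hq _ (ht j)]
        exact eq_smul_pt (hx0 _ (ht j)).ne'
      rw [h3, orn_smul_rows, sign_mul, sign_pos (Finset.prod_pos fun j _ => hx0 _ (ht j)), one_mul,
        orn_map, sign_mul] at h2
      exact h2
    rcases lt_or_gt_of_ne h1 with h2 | h2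
    · obtain ⟨k, rfl⟩ : ∃ k', k = k' + 1 := ⟨k - 1, by omega⟩
      refine ⟨φ.comp (refl k).toAffineMap, fun s => refl k (q s), ?_, ?_, ?_⟩
      · intro u v huv
        have h3 : refl k u = refl k v := hφ huv
        rw [← refl_refl k u, h3, refl_refl]
      · intro s hs
        show φ (refl k (refl k (q s))) ∈ a s
        rw [refl_refl, hq s hs]
        exact hxa s hs
      · intro t _ ht
        have h3 := key t ht
        rw [sign_neg h2] at h3
        rw [orient_refl, Left.sign_neg, ← h3]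
        simp
    · refine ⟨φ, q, hφ, ?_, ?_⟩
      · intro s hs
        rw [hq s hs]
        exact hxa s hs
      · intro t _ ht
        have h3 := key t ht
        rw [sign_pos h2, mul_one] at h3
        exact h3

end Tr

/-- the linear model of separated families -/
theorem separated_iff_lsep {k n : ℕ} (a : Fin n → Set (Fin (k + 1) → ℝ)) :
    Separated a ↔ LSep (fun s => cone (a s)) :=
  Tr.separated_iff a

/-- the linear model of consistent transversals -/
theorem consistent_iff_lcons {k n : ℕ} (hk : 1 ≤ k) (a : Fin n → Set (Fin (k + 1) → ℝ))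
    (p : Fin n → Fin k → ℝ) (B : Finset (Fin n)) :
    Consistent a p B ↔ LCons (fun s => cone (a s)) (fun s => (Fin.cons 1 (p s) : Fin (k + 1) → ℝ))
      (B : Set (Fin n)) :=
  ⟨Tr.lcons_of_consistent, Tr.consistent_of_lcons hk⟩

end Pool.Agent.HT
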