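import Mathlib
import Pool.Agent.HT.Translate
import Pool.Agent.HT.HellyStep
import Pool.Agent.HT.Lower
import Pool.Agent.HT.Literal

/-!
# The Helly number of consistently ordered hyperplane transversals
-/

namespace Pool.Agent.HT

open scoped Matrix

theorem LCons.comp {k : ℕ} {ι κ : Type} {C : ι → Set (Fin (k + 2) → ℝ)}
    {p : ι → Fin (k + 1) → ℝ} {B : Set ι} (h : LCons C p B) (e : κ → ι) {B' : Set κ}
    (he : ∀ s ∈ B', e s ∈ B) : LCons (fun s => C (e s)) (fun s => p (e s)) B' := by
  obtain ⟨f, x, hf, hx, hag⟩ := h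
  exact ⟨f, fun s => x (e s), hf, fun s hs => hx _ (he s hs), fun t ht =>
    hag (fun j => e (t j)) fun j => he _ (ht j)⟩

theorem LCons.mono {k : ℕ} {ι : Type} {C : ι → Set (Fin (k + 2) → ℝ)}
    {p : ι → Fin (k + 1) → ℝ} {B B' : Set ι} (h : LCons C p B) (hB : B' ⊆ B) : LCons C p B' :=
  h.comp id hB

theorem LCons.of_comp {k : ℕ} {ι κ : Type} {C : ι → Set (Fin (k + 2) → ℝ)}
    {p : ι → Fin (k + 1) → ℝ} (e : κ → ι) (he : Function.Injective e)
    (h : LCons (fun s => C (e s)) (fun s => p (e s)) Set.univ) {B : Set ι}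
    (hB : ∀ s ∈ B, ∃ r, e r = s) : LCons C p B := by
  obtain ⟨f, x, hf, hx, hag⟩ := h
  refine ⟨f, Function.extend e x 0, hf, fun s hs => ?_, fun t ht => ?_⟩
  · obtain ⟨r, rfl⟩ := hB s hs
    rw [he.extend_apply]
    exact hx r (Set.mem_univ _)
  · choose r hr using fun j => hB _ (ht j)
    have h1 := hag r fun j => Set.mem_univ _
    have h2 : (fun j => Function.extend e x 0 (t j)) = fun j => x (r j) := by
      funext j; rw [← hr j, he.extend_apply]
    have h3 : (fun j => p (t j)) = fun j => p (e (r j)) := by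
      funext j; rw [← hr j]
    rw [h2, h3, h1]

theorem sepHelly_upper (k : ℕ) (hk : 1 ≤ k) : SepHelly k (k + 3) := by
  intro n a p ha hsep hB
  have hl : LSep (fun s => cone (a s)) := (separated_iff_lsep a).mp hsep
  have key : ∀ m : ℕ, ∀ B : Finset (Fin n), B.card = m → Consistent a p B := by
    intro m
    induction m using Nat.strong_induction_on with
    | _ m ih =>
      intro B hBm
      by_cases hm : m ≤ k + 3
      · exact hB B (by omega)
      · rw [consistent_iff_lcons hk]
        have hstep := helly_step (k := k) (ι := {i // i ∈ B}) (fun s => a s)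
          (fun s => (Fin.cons 1 (p s) : Fin (k + 1) → ℝ)) (fun s => ha.convex _)
          (fun s => ha.compact _)
          (fun t ht x hx => hl (fun j => (t j : Fin n))
            (fun i j hij => ht (Subtype.ext hij)) x hx)
          (by rw [Fintype.card_coe]; omega)
          (fun s => by
            have h1 := ih (m - 1) (by omega) (B.erase s) (by
              rw [Finset.card_erase_of_mem s.2]; omega)
            rw [consistent_iff_lcons hk] at h1
            refine h1.comp (fun i : {i // i ∈ B} => (i : Fin n)) (B' := {s}ᶜ) ?_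
            intro i hi
            rw [Finset.mem_coe, Finset.mem_erase]
            exact ⟨fun h => hi (Subtype.ext h), i.2⟩)
        exact hstep.of_comp (fun i : {i // i ∈ B} => (i : Fin n)) Subtype.coe_injective
          (fun s hs => ⟨⟨s, hs⟩, rfl⟩)
  exact key _ Finset.univ rfl

theorem reindex_family {k : ℕ} {ι : Type} [Fintype ι] {n : ℕ} (e : Fin n ≃ ι)
    {a : ι → Set (Fin (k + 1) → ℝ)} (h1 : ∀ s, Convex ℝ (a s)) (h2 : ∀ s, IsCompact (a s))
    (h3 : ∀ s t, s ≠ t → Disjoint (a s) (a t)) : IsFamily (fun i => a (e i)) :=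
  ⟨fun i => h1 _, fun i => h2 _, fun i j hij => h3 _ _ fun h => hij (e.injective h)⟩

theorem sepHelly_lower (k : ℕ) (hk : 1 ≤ k) (h : ℕ) (hh : SepHelly k h) : k + 3 ≤ h := by
  obtain ⟨n, rfl⟩ : ∃ n, k = n + 1 := ⟨k - 1, by omega⟩
  by_contra hlt
  obtain ⟨a, p, h1, h2, h3, h4, h5, h6⟩ := lower_example n
  set e : Fin (n + 4) ≃ Fin n ⊕ Fin 4 := finSumFinEquiv.symm with he
  have hfam := reindex_family e h1 h2 h3
  have hsep : Separated (fun i => a (e i)) :=
    (separated_iff_lsep _).mpr fun t ht x hx => h4 (fun j => e (t j))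
      (fun _ _ hij => ht (e.injective hij)) x hx
  have hcon := hh (n + 4) (fun i => a (e i)) (fun i => p (e i)) hfam hsep (fun B hB => by
    rw [consistent_iff_lcons (by omega)]
    obtain ⟨i, hi⟩ : ∃ i, i ∉ B := by
      by_contra hcon
      push Not at hcon
      have : B = Finset.univ := Finset.eq_univ_of_forall hcon
      rw [this, Finset.card_univ, Fintype.card_fin] at hB
      omega
    refine (h5 (e i)).comp e ?_
    intro s hs hsi
    exact hi ((e.injective hsi) ▸ hs))
  rw [consistent_iff_lcons (by omega)] at hcon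
  refine h6 (LCons.of_comp e e.injective (hcon.mono ?_) fun s _ => ⟨e.symm s, by simp⟩)
  simp

theorem not_helly (k : ℕ) (hk : 2 ≤ k) (h : ℕ) : ¬ Helly k h := by
  obtain ⟨n, rfl⟩ : ∃ n, k = n + 2 := ⟨k - 2, by omega⟩
  intro hh
  obtain ⟨a, p, h1, h2, h3, h5, h6⟩ := literal_example n h
  set e : Fin (n + (2 * h + 3)) ≃ Fin n ⊕ Fin (2 * h + 3) := finSumFinEquiv.symm with he
  have hfam := reindex_family e h1 h2 h3
  have hcon := hh _ (fun i => a (e i)) (fun i => p (e i)) hfam (fun B hB => by
    rw [consistent_iff_lcons (by omega)]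
    obtain ⟨m, hm⟩ : ∃ m : Fin (2 * h + 3), e.symm (Sum.inr m) ∉ B := by
      by_contra hcon
      push Not at hcon
      have hsub : Finset.univ.image (fun m : Fin (2 * h + 3) => e.symm (Sum.inr m)) ⊆ B := by
        intro x hx
        obtain ⟨m, _, rfl⟩ := Finset.mem_image.mp hx
        exact hcon m
      have h7 := Finset.card_le_card hsub
      rw [Finset.card_image_of_injective _ fun x y hxy =>
        Sum.inr_injective (e.symm.injective hxy), Finset.card_univ, Fintype.card_fin] at h7
      omega
    refine (h5 m).comp e ?_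
    intro s hs hsi
    rw [Set.mem_singleton_iff] at hsi
    exact hm (by rw [← hsi, e.symm_apply_apply]; exact hs))
  rw [consistent_iff_lcons (by omega)] at hcon
  refine h6 (LCons.of_comp e e.injective (hcon.mono ?_) fun s _ => ⟨e.symm s, by simp⟩)
  simp

end Pool.Agent.HT
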